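import Pool.Agent.Work.MP_db9399_da.Pre2
import Pool.Agent.Work.MP_db9399_da_helper62.Base

/-!
# MP_db9399, DENSE-ALL, phase 2, PREX: CMP, the numerical fields (helper99)
-/

set_option autoImplicit false

namespace Pool.Agent.Work.MP_db9399_da.helper99

open Finset Classical
open Pool.Agent.Work.MP_db9399_all (nb)
open Pool.Agent.Work.MP_db9399_lt (us)
open Pool.Agent.Work.MP_db9399_da.helper62 (mem_nb mem_us card_Ts)

universe u

namespace CMPAux

section abs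
variable {W : Type u} [Fintype W]

/-- vertices where the colour `b` changes -/
noncomputable def dl (F F' : W → Finset ℕ) (b : ℕ) : Finset W :=
  univ.filter (fun v => ¬ (b ∈ F v ↔ b ∈ F' v))

theorem inter_le (F F' : W → Finset ℕ) (b : ℕ) (S : Finset W) :
    (S ∩ us F' b).card ≤ (S ∩ us F b).card + (S ∩ dl F F' b).card ∧
    (S ∩ us F b).card ≤ (S ∩ us F' b).card + (S ∩ dl F F' b).card := by
  constructor
  · refine (card_le_card ?_).trans (card_union_le _ _)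
    intro v hv
    rw [mem_inter, mem_us] at hv
    rw [mem_union, mem_inter, mem_inter, mem_us, dl, mem_filter]
    by_cases h : b ∈ F v
    · exact Or.inl ⟨hv.1, h⟩
    · exact Or.inr ⟨hv.1, mem_univ _, fun h' => h (h'.2 hv.2)⟩
  · refine (card_le_card ?_).trans (card_union_le _ _)
    intro v hv
    rw [mem_inter, mem_us] at hv
    rw [mem_union, mem_inter, mem_inter, mem_us, dl, mem_filter]
    by_cases h : b ∈ F' v
    · exact Or.inl ⟨hv.1, h⟩
    · exact Or.inr ⟨hv.1, mem_univ _, fun h' => h (h'.1 hv.2)⟩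

theorem key (F F' : W → Finset ℕ) (b : ℕ) (S T : Finset W) (hST : Disjoint S T) :
    |(((S ∩ us F' b).card : ℤ) - ((T ∩ us F' b).card : ℤ)) -
      (((S ∩ us F b).card : ℤ) - ((T ∩ us F b).card : ℤ))| ≤ ((dl F F' b).card : ℤ) := by
  have h1 := inter_le F F' b S
  have h2 := inter_le F F' b T
  have h3 : (S ∩ dl F F' b).card + (T ∩ dl F F' b).card ≤ (dl F F' b).card := by
    rw [← card_union_of_disjoint (disjoint_of_subset_left inter_subset_left
      (disjoint_of_subset_right inter_subset_left hST))]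
    exact card_le_card (union_subset inter_subset_right inter_subset_right)
  rw [abs_le]
  constructor <;> omega

theorem sid_dj (sd : W → Bool) (β : Bool) : Disjoint (sid sd (!β)) (sid sd β) := by
  rw [disjoint_left]
  intro v h1 h2
  rw [sid, mem_filter] at h1 h2
  have h3 := h1.2
  rw [h2.2] at h3
  cases β <;> exact Bool.noConfusion h3

theorem qtr_dj (sd pt : W → Bool) (i : Bool) :
    Disjoint (qtr sd pt false i) (qtr sd pt true i) := by
  rw [disjoint_left]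
  intro v h1 h2
  rw [qtr, mem_filter] at h1 h2
  have h3 := h1.2.1
  rw [h2.2.1] at h3
  exact Bool.noConfusion h3

theorem sg_le (F F' : W → Finset ℕ) (sd : W → Bool) (b : ℕ) :
    |sg F' sd b - sg F sd b| ≤ ((dl F F' b).card : ℤ) :=
  key F F' b (sid sd false) (sid sd true) (sid_dj sd true)

theorem sgp_le (F F' : W → Finset ℕ) (sd pt : W → Bool) (i : Bool) (b : ℕ) :
    |sgp F' sd pt i b - sgp F sd pt i b| ≤ ((dl F F' b).card : ℤ) :=
  key F F' b (qtr sd pt false i) (qtr sd pt true i) (qtr_dj sd pt i)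

theorem need_le (F F' : W → Finset ℕ) (sd : W → Bool) (β : Bool) (b : ℕ) :
    need F' sd β b ≤ need F sd β b + (dl F F' b).card := by
  have h := key F F' b (sid sd (!β)) (sid sd β) (sid_dj sd β)
  rw [abs_le] at h
  unfold need
  omega

theorem us_le (F F' : W → Finset ℕ) (b : ℕ) :
    (us F' b).card ≤ (us F b).card + (dl F F' b).card := by
  have h := (inter_le F F' b univ).1
  rwa [univ_inter, univ_inter, univ_inter] at h

end abs

section gen
variable {V : Type u} [Fintype V] {M : ℕ}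

/-- changes outside `V0` -/
noncomputable def DV (P : Pcs V M) (F F' : V → Finset ℕ) (b : ℕ) : Finset V :=
  univ.filter (fun v => v ∉ P.V0 ∧ ¬ (b ∈ F v ↔ b ∈ F' v))

theorem dl_DV (P : Pcs V M) (F F' : V → Finset ℕ) (b : ℕ) (n : Fin M) :
    (dl (fun v : Ts P n => F v.1) (fun v : Ts P n => F' v.1) b).card ≤ (DV P F F' b).card := by
  refine card_le_card_of_injOn (fun v => v.1) ?_ (fun v _ w _ h => Subtype.ext h)
  intro v hv
  have h1 := (mem_filter.1 (mem_coe.1 hv)).2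
  exact mem_coe.2 (mem_filter.2 ⟨mem_univ _, v.2.1, h1⟩)

theorem sum_DV (P : Pcs V M) (F F' : V → Finset ℕ) (Pch : Finset (V × ℕ))
    (h : ∀ v b, v ∉ P.V0 → ¬ (b ∈ F v ↔ b ∈ F' v) → (v, b) ∈ Pch) (B : Finset ℕ) :
    ∑ b ∈ B, (DV P F F' b).card ≤ Pch.card := by
  have h1 : ∀ b ∈ B, (DV P F F' b).card ≤ (Pch.filter (fun p => p.2 = b)).card := by
    intro b _
    have h2 : DV P F F' b ⊆ (Pch.filter (fun p => p.2 = b)).image Prod.fst := by
      intro v hv
      rw [DV, mem_filter] at hv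
      exact mem_image.2 ⟨(v, b), mem_filter.2 ⟨h v b hv.2.1 hv.2.2, rfl⟩, rfl⟩
    exact (card_le_card h2).trans card_image_le
  refine (sum_le_sum h1).trans ?_
  rw [← card_biUnion]
  · exact card_le_card (biUnion_subset.2 fun b _ => filter_subset _ _)
  · intro b _ b' _ hbb
    rw [Function.onFun, disjoint_left]
    intro p hp hp'
    rw [mem_filter] at hp hp'
    exact hbb (hp.2.symm.trans hp'.2)

end gen

section main
variable {V : Type u} [Fintype V] {M : ℕ}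
variable {C g ρ K π κ ε ε2 σ τ ζ θ : ℝ} {k k2 K5 L : ℕ} {G : SimpleGraph V} {d : ℕ}
  {P : Pcs V M} {A : Pal} {X : HD V} {Ss : Finset ℕ} {t0 : V → V → ℕ} {c : V → ℕ}
  {Sp : Finset ℕ} {Bd : Finset ℕ} {s : ℕ} {t : V → V → ℕ} {U : Finset ℕ}

/-- colours at `v` at the end, with the prescribed own colours -/
noncomputable def F2 (G : SimpleGraph V) (P : Pcs V M) (X : HD V) (t : V → V → ℕ) (v : V) :
    Finset ℕ :=
  if v ∈ X.VH then insert (X.c0 v) (Fc2 G X P (fnl X t) v) else Fc2 G X P (fnl X t) v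

theorem Fo2_eq (n : Fin M) : Fo2 G X P (fnl X t) n = fun v : Ts P n => F2 G P X t v.1 := by
  funext v
  have h : v ∈ oT X P n ↔ v.1 ∈ X.VH := by
    rw [oT, mem_filter]
    exact ⟨fun h => h.2, fun h => ⟨mem_univ _, h⟩⟩
  unfold Fo2 Fo F2
  by_cases hv : v.1 ∈ X.VH
  · rw [if_pos (h.2 hv), if_pos hv]
    rfl
  · rw [if_neg (fun h' => hv (h.1 h')), if_neg hv]
    rfl

theorem thin_of {v w : V} (h : (thin2 G X P).Adj v w) (h' : ¬ X.H.Adj v w) :
    (thin G P).Adj v w := ⟨h.1, fun hb => h.2 ⟨hb, h'⟩⟩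

theorem thin2_of {v w : V} (h : (thin G P).Adj v w) : (thin2 G X P).Adj v w :=
  ⟨h.1, fun hb => h.2 hb.1⟩

theorem mem_Fc {t : V → V → ℕ} {v : V} {b : ℕ} :
    b ∈ Fc G P t v ↔ ∃ w, (thin G P).Adj v w ∧ t v w = b := by
  unfold Fc
  rw [mem_image]
  simp only [mem_nb]

theorem mem_Fc2 {t : V → V → ℕ} {v : V} {b : ℕ} :
    b ∈ Fc2 G X P t v ↔ ∃ w, (thin2 G X P).Adj v w ∧ t v w = b := by
  unfold Fc2
  rw [mem_image]
  simp only [mem_nb]

/-- changed pairs -/
noncomputable def Chg (G : SimpleGraph V) (P : Pcs V M) (X : HD V) (t0 t : V → V → ℕ) :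
    Finset (V × V) :=
  (univ : Finset (V × V)).filter (fun p => (thin2 G X P).Adj p.1 p.2 ∧
    ¬ X.H.Adj p.1 p.2 ∧ t p.1 p.2 ≠ t0 p.1 p.2)

/-- pairs of the matching -/
noncomputable def HPr (X : HD V) : Finset (V × V) :=
  (univ : Finset (V × V)).filter (fun p => X.H.Adj p.1 p.2)

/-- pairs (vertex, colour) which can change -/
noncomputable def Pch (G : SimpleGraph V) (P : Pcs V M) (X : HD V) (t0 t : V → V → ℕ) :
    Finset (V × ℕ) :=
  ((Chg G P X t0 t).image (fun p => (p.1, t p.1 p.2)) ∪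
    (Chg G P X t0 t).image (fun p => (p.1, t0 p.1 p.2))) ∪
  ((W0 X).image (fun v => (v, X.h0 v)) ∪
    ((HPr X).image (fun p => (p.1, t0 p.1 p.2)) ∪ X.VH.image (fun v => (v, X.c0 v))))

theorem W0_card (hp : HP k d G X) : (W0 X).card ≤ 2 * k := by
  have h1 := hp.VHk
  have h2 := hp.S0k
  have h3 := card_union_le X.VH X.S0
  unfold W0
  omega

theorem H_W0 (hp : HP k d G X) {v w : V} (h : X.H.Adj v w) : v ∈ W0 X :=
  mem_union.2 (hp.HS v w h)

theorem HPr_card (hp : HP k d G X) : (HPr X).card ≤ 2 * k := by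
  refine le_trans ?_ (W0_card hp)
  refine card_le_card_of_injOn (fun p => p.1) ?_ ?_
  · intro p hp'
    exact mem_coe.2 (H_W0 hp (mem_filter.1 (mem_coe.1 hp')).2)
  · intro p hp1 q hq h
    have h1 := (mem_filter.1 (mem_coe.1 hp1)).2
    have h2 := (mem_filter.1 (mem_coe.1 hq)).2
    have h3 : p.1 = q.1 := h
    rw [h3] at h1
    exact Prod.ext h3 (hp.Hm _ _ _ h1 h2)

theorem Pch_card (hp : HP k d G X) (hc : (Chg G P X t0 t).card ≤ 4 * s) :
    (Pch G P X t0 t).card ≤ 8 * s + 5 * k := by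
  have h1 := W0_card hp
  have h2 := HPr_card hp
  have h3 := hp.VHk
  unfold Pch
  refine (card_union_le _ _).trans ?_
  have h4 := card_union_le ((Chg G P X t0 t).image (fun p => (p.1, t p.1 p.2)))
    ((Chg G P X t0 t).image (fun p => (p.1, t0 p.1 p.2)))
  have h5 := card_union_le ((W0 X).image (fun v => (v, X.h0 v)))
    ((HPr X).image (fun p => (p.1, t0 p.1 p.2)) ∪ X.VH.image (fun v => (v, X.c0 v)))
  have h6 := card_union_le ((HPr X).image (fun p => (p.1, t0 p.1 p.2)))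
    (X.VH.image (fun v => (v, X.c0 v)))
  have h7 := card_image_le (s := Chg G P X t0 t) (f := fun p => (p.1, t p.1 p.2))
  have h8 := card_image_le (s := Chg G P X t0 t) (f := fun p => (p.1, t0 p.1 p.2))
  have h9 := card_image_le (s := W0 X) (f := fun v => (v, X.h0 v))
  have h10 := card_image_le (s := HPr X) (f := fun p => (p.1, t0 p.1 p.2))
  have h11 := card_image_le (s := X.VH) (f := fun v => (v, X.c0 v))
  omega

theorem gain (hp : HP k d G X) {v : V} {b : ℕ} (h1 : b ∈ Fc2 G X P (fnl X t) v)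
    (h2 : b ∉ Fc G P t0 v) : (v, b) ∈ Pch G P X t0 t := by
  obtain ⟨w, h3, h4⟩ := mem_Fc2.1 h1
  unfold Pch
  by_cases hH : X.H.Adj v w
  · rw [fnl, if_pos hH] at h4
    refine mem_union.2 (Or.inr (mem_union.2 (Or.inl (mem_image.2 ⟨v, H_W0 hp hH, ?_⟩))))
    rw [h4]
  · rw [fnl, if_neg hH] at h4
    have h5 : t v w ≠ t0 v w := by
      intro h6
      exact h2 (mem_Fc.2 ⟨w, thin_of h3 hH, by rw [← h6, h4]⟩)
    refine mem_union.2 (Or.inl (mem_union.2 (Or.inl (mem_image.2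
      ⟨(v, w), mem_filter.2 ⟨mem_univ _, h3, hH, h5⟩, ?_⟩))))
    rw [← h4]

theorem lost {v : V} {b : ℕ} (h1 : b ∉ Fc2 G X P (fnl X t) v)
    (h2 : b ∈ Fc G P t0 v) : (v, b) ∈ Pch G P X t0 t := by
  obtain ⟨w, h3, h4⟩ := mem_Fc.1 h2
  unfold Pch
  by_cases hH : X.H.Adj v w
  · refine mem_union.2 (Or.inr (mem_union.2 (Or.inr (mem_union.2 (Or.inl (mem_image.2
      ⟨(v, w), mem_filter.2 ⟨mem_univ _, hH⟩, ?_⟩))))))
    rw [← h4]
  · have h5 : t v w ≠ t0 v w := by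
      intro h6
      refine h1 (mem_Fc2.2 ⟨w, thin2_of h3, ?_⟩)
      rw [fnl, if_neg hH, h6, h4]
    refine mem_union.2 (Or.inl (mem_union.2 (Or.inr (mem_image.2
      ⟨(v, w), mem_filter.2 ⟨mem_univ _, thin2_of h3, hH, h5⟩, ?_⟩))))
    rw [← h4]

theorem ch1 (hp : HP k d G X) (v : V) (b : ℕ)
    (h : ¬ (b ∈ Fc G P t0 v ↔ b ∈ Fc2 G X P (fnl X t) v)) : (v, b) ∈ Pch G P X t0 t := by
  by_cases h1 : b ∈ Fc G P t0 v
  · exact lost (fun h2 => h ⟨fun _ => h2, fun _ => h1⟩) h1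
  · refine gain hp ?_ h1
    by_contra h2
    exact h ⟨fun h3 => absurd h3 h1, fun h3 => absurd h3 h2⟩

theorem ch2 (hp : HP k d G X) (v : V) (b : ℕ)
    (h : ¬ (b ∈ Fc G P t0 v ↔ b ∈ F2 G P X t v)) : (v, b) ∈ Pch G P X t0 t := by
  by_cases hv : v ∈ X.VH
  · by_cases hb : b = X.c0 v
    · unfold Pch
      refine mem_union.2 (Or.inr (mem_union.2 (Or.inr (mem_union.2 (Or.inr (mem_image.2
        ⟨v, hv, ?_⟩))))))
      rw [hb]
    · refine ch1 hp v b ?_
      rw [F2, if_pos hv, mem_insert] at h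
      intro h1
      apply h
      rw [h1]
      exact ⟨Or.inr, fun h2 => h2.resolve_left hb⟩
  · refine ch1 hp v b ?_
    rwa [F2, if_neg hv] at h

theorem fib1 (T : SimpleGraph V) (t : V → V → ℕ)
    (hinj : ∀ v w w', T.Adj v w → T.Adj v w' → t v w = t v w' → w = w') (W : Finset V) (b : ℕ) :
    (W.biUnion (fun w => univ.filter (fun v => T.Adj w v ∧ t w v = b))).card ≤ W.card := by
  refine card_biUnion_le.trans ?_
  have h1 : ∀ w ∈ W, (univ.filter (fun v => T.Adj w v ∧ t w v = b)).card ≤ 1 := by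
    intro w _
    rw [card_le_one]
    intro x hx y hy
    have hx' := (mem_filter.1 hx).2
    have hy' := (mem_filter.1 hy).2
    exact hinj w x y hx'.1 hy'.1 (hx'.2.trans hy'.2.symm)
  calc _ ≤ ∑ w ∈ W, 1 := sum_le_sum h1
    _ = W.card := by simp

/-- at most `6 k` vertices outside `V0` where the colour `b` changes -/
theorem DV_card (cx : Cx C g ρ K π κ ε ε2 σ τ ζ θ k k2 K5 L G d P A X Ss t0 c Sp)
    (st : PSt τ ζ G d P A X Ss t0 c Bd s t U) (F' : V → Finset ℕ)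
    (hF : ∀ v b, ¬ (b ∈ Fc G P t0 v ↔ b ∈ F' v) → (v, b) ∈ Pch G P X t0 t) (b : ℕ) :
    (DV P (Fc G P t0) F' b).card ≤ 6 * k := by
  have hp := cx.hp
  have hw := W0_card hp
  have h1 := fib1 (thin2 G X P) t st.ec.inj (W0 X) b
  have hinj0 : ∀ v w w', (thin G P).Adj v w → (thin G P).Adj v w' → t0 v w = t0 v w' → w = w' := by
    intro v w w' ha hb h
    exact cx.pre.inj v (mem_coe.2 ((mem_nb _ _ _).2 ha)) (mem_coe.2 ((mem_nb _ _ _).2 hb)) h
  have h2 := fib1 (thin G P) t0 hinj0 (W0 X) b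
  have h3 : DV P (Fc G P t0) F' b ⊆ W0 X ∪
      ((W0 X).biUnion (fun w => univ.filter (fun v => (thin2 G X P).Adj w v ∧ t w v = b)) ∪
      (W0 X).biUnion (fun w => univ.filter (fun v => (thin G P).Adj w v ∧ t0 w v = b))) := by
    intro v hv
    obtain ⟨_, hv0, hne⟩ := mem_filter.1 hv
    have hch : ∀ w, (thin2 G X P).Adj v w → ¬ X.H.Adj v w → t v w ≠ t0 v w → w ∈ W0 X := by
      intro w ha hb h
      rcases st.ch v w ha hb h with h4 | h4
      · exact absurd h4.2.1 hv0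
      · exact h4.1
    have h4 := hF v b hne
    unfold Pch at h4
    rcases mem_union.1 h4 with h5 | h5
    · rcases mem_union.1 h5 with h6 | h6
      · obtain ⟨⟨a, w⟩, h7, h8⟩ := mem_image.1 h6
        obtain ⟨_, h9, h10, h11⟩ := mem_filter.1 h7
        simp only [Prod.mk.injEq] at h8
        obtain ⟨rfl, h12⟩ := h8
        refine mem_union.2 (Or.inr (mem_union.2 (Or.inl (mem_biUnion.2
          ⟨w, hch w h9 h10 h11, mem_filter.2 ⟨mem_univ _, h9.symm, ?_⟩⟩))))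
        rw [st.ec.sym]
        exact h12
      · obtain ⟨⟨a, w⟩, h7, h8⟩ := mem_image.1 h6
        obtain ⟨_, h9, h10, h11⟩ := mem_filter.1 h7
        simp only [Prod.mk.injEq] at h8
        obtain ⟨rfl, h12⟩ := h8
        refine mem_union.2 (Or.inr (mem_union.2 (Or.inr (mem_biUnion.2
          ⟨w, hch w h9 h10 h11, mem_filter.2 ⟨mem_univ _, (thin_of h9 h10).symm, ?_⟩⟩))))
        rw [cx.pre.sym]
        exact h12
    · rcases mem_union.1 h5 with h6 | h6
      · obtain ⟨a, h7, h8⟩ := mem_image.1 h6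
        simp only [Prod.mk.injEq] at h8
        rw [← h8.1]
        exact mem_union.2 (Or.inl h7)
      · rcases mem_union.1 h6 with h7 | h7
        · obtain ⟨⟨a, w⟩, h9, h8⟩ := mem_image.1 h7
          simp only [Prod.mk.injEq] at h8
          rw [← h8.1]
          exact mem_union.2 (Or.inl (H_W0 hp (mem_filter.1 h9).2))
        · obtain ⟨a, h9, h8⟩ := mem_image.1 h7
          simp only [Prod.mk.injEq] at h8
          rw [← h8.1]
          exact mem_union.2 (Or.inl (mem_union.2 (Or.inl h9)))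
  have h4 := card_le_card h3
  have h5 := card_union_le (W0 X)
    ((W0 X).biUnion (fun w => univ.filter (fun v => (thin2 G X P).Adj w v ∧ t w v = b)) ∪
      (W0 X).biUnion (fun w => univ.filter (fun v => (thin G P).Adj w v ∧ t0 w v = b)))
  have h6 := card_union_le
    ((W0 X).biUnion (fun w => univ.filter (fun v => (thin2 G X P).Adj w v ∧ t w v = b)))
      ((W0 X).biUnion (fun w => univ.filter (fun v => (thin G P).Adj w v ∧ t0 w v = b)))
  omega

end main

end CMPAux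

namespace CMPAux

theorem sum_int (B : Finset ℕ) (f f' : ℕ → ℤ) (δ : ℕ → ℕ)
    (h : ∀ b ∈ B, |f' b - f b| ≤ (δ b : ℤ)) :
    |((∑ b ∈ B, f' b : ℤ) : ℝ)| ≤ |((∑ b ∈ B, f b : ℤ) : ℝ)| + ((∑ b ∈ B, δ b : ℕ) : ℝ) := by
  have h1 : |(∑ b ∈ B, f' b) - ∑ b ∈ B, f b| ≤ ((∑ b ∈ B, δ b : ℕ) : ℤ) := by
    rw [← sum_sub_distrib]
    push_cast
    exact (abs_sum_le_sum_abs _ _).trans (sum_le_sum h)
  have h2 : |∑ b ∈ B, f' b| ≤ |∑ b ∈ B, f b| + ((∑ b ∈ B, δ b : ℕ) : ℤ) := by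
    have h3 := abs_sub_abs_le_abs_sub (∑ b ∈ B, f' b) (∑ b ∈ B, f b)
    linarith
  have h3 : ((|∑ b ∈ B, f' b| : ℤ) : ℝ) ≤ ((|∑ b ∈ B, f b| + ((∑ b ∈ B, δ b : ℕ) : ℤ) : ℤ) : ℝ) :=
    Int.cast_le.2 h2
  rw [Int.cast_add, Int.cast_abs, Int.cast_abs, Int.cast_natCast] at h3
  exact h3

/-- the numbers -/
theorem nums {C g ρ K π κ ε ε2 σ τ ζ θ : ℝ} {M k k2 K5 L d : ℕ}
    (nu : Nu C g ρ K π κ ε ε2 σ τ ζ θ M k k2 K5 L d) :
    10 ^ 9 * (L : ℝ) ≤ ε * d ∧ 10 ^ 9 * (L : ℝ) ≤ ε * ζ * d ∧ 10 ^ 9 * (L : ℝ) ≤ κ * d := by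
  have hL : (1 : ℝ) ≤ L := by exact_mod_cast nu.L1
  have hL2 : (1 : ℝ) ≤ (L : ℝ) ^ 2 := one_le_pow₀ hL
  have hL4 : (L : ℝ) ≤ (L : ℝ) ^ 4 := by
    have := pow_le_pow_right₀ hL (show 1 ≤ 4 by norm_num)
    simpa using this
  have hd : (0 : ℝ) ≤ d := Nat.cast_nonneg d
  have hσ0 := nu.σ0
  have hσ1 := nu.σ1
  have hκ0 := nu.κ0
  have hκ := nu.κσ
  have hζ0 := nu.ζ0
  have hθ0 := nu.θ0
  have hτ0 := nu.τ0
  have hε0 := nu.ε0
  have h10 : (1 : ℝ) ≤ 10 ^ 6 * (L : ℝ) ^ 2 := by linarith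
  have hζ1 : ζ ≤ 1 := by
    have h := nu.ζL
    have h1 : ζ ≤ 10 ^ 6 * (L : ℝ) ^ 2 * ζ := le_mul_of_one_le_left hζ0.le h10
    linarith
  have hτ1 : τ ≤ 1 := by
    have h := nu.τL
    have h1 : τ ≤ 10 ^ 6 * (L : ℝ) ^ 2 * τ := le_mul_of_one_le_left hτ0.le h10
    linarith
  have hζσ : ζ ^ 2 * σ ≤ 1 := mul_le_one₀ (pow_le_one₀ hζ0.le hζ1) hσ0.le (by linarith)
  have hθ1 : θ ≤ 1 := by
    have h := nu.θL
    have h1 : θ ≤ 10 ^ 6 * (L : ℝ) ^ 2 * θ := le_mul_of_one_le_left hθ0.le h10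
    linarith
  have hε1 : ε ≤ 1 := by
    have h := nu.ετ
    linarith
  have hκ1 : κ ≤ 1 := by linarith
  have hdL := nu.dL
  have hLL : 10 ^ 9 * (L : ℝ) ≤ 10 ^ 9 * (L : ℝ) ^ 4 := by linarith
  have e1 : ε * θ * ζ ^ 2 * σ * κ * d = (ε * ζ * d) * (θ * (ζ * (σ * κ))) := by ring
  have e2 : ε * θ * ζ ^ 2 * σ * κ * d = (κ * d) * (ε * (θ * (ζ ^ 2 * σ))) := by ring
  have hσκ : σ * κ ≤ 1 := mul_le_one₀ (by linarith) hκ0.le hκ1
  have hσκ0 : 0 ≤ σ * κ := mul_nonneg hσ0.le hκ0.le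
  have f1 : θ * (ζ * (σ * κ)) ≤ 1 :=
    mul_le_one₀ hθ1 (mul_nonneg hζ0.le hσκ0) (mul_le_one₀ hζ1 hσκ0 hσκ)
  have hζσ0 : 0 ≤ ζ ^ 2 * σ := mul_nonneg (pow_nonneg hζ0.le 2) hσ0.le
  have f2 : ε * (θ * (ζ ^ 2 * σ)) ≤ 1 :=
    mul_le_one₀ hε1 (mul_nonneg hθ0.le hζσ0) (mul_le_one₀ hθ1 hζσ0 hζσ)
  have g1 : ε * θ * ζ ^ 2 * σ * κ * d ≤ ε * ζ * d := by
    rw [e1]
    exact mul_le_of_le_one_right (mul_nonneg (mul_nonneg hε0.le hζ0.le) hd) f1
  have g2 : ε * θ * ζ ^ 2 * σ * κ * d ≤ κ * d := by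
    rw [e2]
    exact mul_le_of_le_one_right (mul_nonneg hκ0.le hd) f2
  have g3 : ε * ζ * d ≤ ε * d := by
    rw [mul_assoc]
    exact mul_le_mul_of_nonneg_left (mul_le_of_le_one_left hd hζ1) hε0.le
  refine ⟨by linarith, by linarith, by linarith⟩

end CMPAux

open CMPAux

theorem stmt_CMP : Stmt_CMP.{u} := by
  intro C g ρ K π κ ε ε2 σ τ ζ θ M k k2 K5 L V _ G d P A X Ss t0 c Sp cx Bd s t U st hBd hs
  have hp := cx.hp
  have pre := cx.pre
  obtain ⟨n1, n2, n3⟩ := nums cx.nu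
  have hkL := cx.nu.kL
  have hL1 := cx.nu.L1
  have hkLr : (k : ℝ) ≤ L := by exact_mod_cast hkL
  have hk0 : (0 : ℝ) ≤ k := Nat.cast_nonneg k
  have hL0 : (0 : ℝ) ≤ L := Nat.cast_nonneg L
  -- the two lists of colours
  have hF1 : ∀ v b, ¬ (b ∈ Fc G P t0 v ↔ b ∈ Fc2 G X P (fnl X t) v) →
      (v, b) ∈ Pch G P X t0 t := ch1 hp
  have hF2 : ∀ v b, ¬ (b ∈ Fc G P t0 v ↔ b ∈ F2 G P X t v) →
      (v, b) ∈ Pch G P X t0 t := ch2 hp
  have hD1 : ∀ n b, (dl (Fn G P t0 n) (Fn2 G X P (fnl X t) n) b).card ≤ 6 * k :=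
    fun n b => (dl_DV P (Fc G P t0) (Fc2 G X P (fnl X t)) b n).trans (DV_card cx st _ hF1 b)
  have hD2 : ∀ n b, (dl (Fn G P t0 n) (Fo2 G X P (fnl X t) n) b).card ≤ 6 * k := by
    intro n b
    rw [Fo2_eq]
    exact (dl_DV P (Fc G P t0) (F2 G P X t) b n).trans (DV_card cx st _ hF2 b)
  have hPc : (Pch G P X t0 t).card ≤ 805 * L := by
    have h1 := Pch_card (t0 := t0) (t := t) (s := s) hp st.cn
    omega
  have hS1 : ∀ n (B : Finset ℕ),
      ∑ b ∈ B, (dl (Fn G P t0 n) (Fn2 G X P (fnl X t) n) b).card ≤ 805 * L := by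
    intro n B
    refine (sum_le_sum fun b _ => dl_DV P (Fc G P t0) (Fc2 G X P (fnl X t)) b n).trans ?_
    exact (sum_DV P _ _ _ (fun v b _ => hF1 v b) B).trans hPc
  have hS2 : ∀ n (B : Finset ℕ),
      ∑ b ∈ B, (dl (Fn G P t0 n) (Fo2 G X P (fnl X t) n) b).card ≤ 805 * L := by
    intro n B
    rw [Fo2_eq]
    refine (sum_le_sum fun b _ => dl_DV P (Fc G P t0) (F2 G P X t) b n).trans ?_
    exact (sum_DV P _ _ _ (fun v b _ => hF2 v b) B).trans hPc
  have hS1r : ∀ n (B : Finset ℕ),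
      ((∑ b ∈ B, (dl (Fn G P t0 n) (Fn2 G X P (fnl X t) n) b).card : ℕ) : ℝ) ≤ 805 * L := by
    intro n B
    exact_mod_cast hS1 n B
  have hS2r : ∀ n (B : Finset ℕ),
      ((∑ b ∈ B, (dl (Fn G P t0 n) (Fo2 G X P (fnl X t) n) b).card : ℕ) : ℝ) ≤ 805 * L := by
    intro n B
    exact_mod_cast hS2 n B
  have hKK : (8 : ℤ) + 6 * k ≤ KK k := by
    unfold KK
    push_cast
    linarith [Int.natCast_nonneg k]
  refine ⟨?_, ?_, ?_, ?_, ?_, ?_, ?_, ?_, ?_⟩
  · -- load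
    intro n b
    have h1 := us_le (Fn G P t0 n) (Fn2 G X P (fnl X t) n) b
    have h2 := hD1 n b
    have h3 := pre.load n b
    have h4 : (us (Fn2 G X P (fnl X t) n) b).card ≤ (us (Fn G P t0 n) b).card + 6 * k := by
      omega
    have h5 : ((us (Fn2 G X P (fnl X t) n) b).card : ℝ) ≤
        ((us (Fn G P t0 n) b).card : ℝ) + 6 * k := by exact_mod_cast h4
    linarith
  · -- sPQ
    intro n hn i b hb
    have h1 := sgp_le (Fn G P t0 n) (Fn2 G X P (fnl X t) n) (sdn P n) (ptn P n) i b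
    have h2 := hD1 n b
    have h3 := pre.sPQ n hn i b hb
    have h4 := abs_sub_abs_le_abs_sub (sgp (Fn2 G X P (fnl X t) n) (sdn P n) (ptn P n) i b)
      (sgp (Fn G P t0 n) (sdn P n) (ptn P n) i b)
    have h5 : ((dl (Fn G P t0 n) (Fn2 G X P (fnl X t) n) b).card : ℤ) ≤ 6 * k := by
      exact_mod_cast h2
    linarith
  · -- gs
    intro n hn b hb
    have h1 := sg_le (Fn G P t0 n) (Fo2 G X P (fnl X t) n) (sdn P n) b
    have h2 := hD2 n b
    have h3 := pre.gs n hn b hb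
    have h4 := abs_sub_abs_le_abs_sub (sg (Fo2 G X P (fnl X t) n) (sdn P n) b)
      (sg (Fn G P t0 n) (sdn P n) b)
    have h5 : ((dl (Fn G P t0 n) (Fo2 G X P (fnl X t) n) b).card : ℤ) ≤ 6 * k := by
      exact_mod_cast h2
    linarith
  · -- sm1
    intro n hn
    have h1 := sum_int (P1 d A.Q A.P2) (sg (Fn G P t0 n) (sdn P n))
      (sg (Fo2 G X P (fnl X t) n) (sdn P n)) _
      (fun b _ => sg_le (Fn G P t0 n) (Fo2 G X P (fnl X t) n) (sdn P n) b)
    have h2 := pre.sm1 n hn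
    have h3 := hS2r n (P1 d A.Q A.P2)
    linarith
  · -- sm2
    intro n hn i
    have h1 := sum_int A.P2 (sgp (Fn G P t0 n) (sdn P n) (ptn P n) i)
      (sgp (Fn2 G X P (fnl X t) n) (sdn P n) (ptn P n) i) _
      (fun b _ => sgp_le (Fn G P t0 n) (Fn2 G X P (fnl X t) n) (sdn P n) (ptn P n) i b)
    have h2 := pre.sm2 n hn i
    have h3 := hS1r n A.P2
    linarith
  · -- smQ
    intro n hn i
    have h1 := sum_int (A.Q (!i)) (sgp (Fn G P t0 n) (sdn P n) (ptn P n) i)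
      (sgp (Fn2 G X P (fnl X t) n) (sdn P n) (ptn P n) i) _
      (fun b _ => sgp_le (Fn G P t0 n) (Fn2 G X P (fnl X t) n) (sdn P n) (ptn P n) i b)
    have h2 := pre.smQ n hn i
    have h3 := hS1r n (A.Q (!i))
    linarith
  · -- tot
    intro n hn β
    have h1 : ∑ b ∈ P1 d A.Q A.P2, need (Fo2 G X P (fnl X t) n) (sdn P n) β b ≤
        ∑ b ∈ P1 d A.Q A.P2, need (Fn G P t0 n) (sdn P n) β b + 805 * L := by
      refine le_trans (sum_le_sum fun b _ =>
        need_le (Fn G P t0 n) (Fo2 G X P (fnl X t) n) (sdn P n) β b) ?_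
      rw [sum_add_distrib]
      exact Nat.add_le_add_left (hS2 n _) _
    have h2 := pre.tot n hn β
    have h3 : ((∑ b ∈ P1 d A.Q A.P2, need (Fo2 G X P (fnl X t) n) (sdn P n) β b : ℕ) : ℝ) ≤
        ((∑ b ∈ P1 d A.Q A.P2, need (Fn G P t0 n) (sdn P n) β b : ℕ) : ℝ) + 805 * L := by
      exact_mod_cast h1
    linarith
  · -- oY
    intro n hn j
    have h1 := pre.oY n hn j
    have h2 : ((A.Q j).filter (fun b =>
        0 ≤ sgp (Fn G P t0 n) (sdn P n) (ptn P n) (!j) b)).card ≤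
        ((A.Q j).filter (fun b =>
          0 ≤ sgp (Fn2 G X P (fnl X t) n) (sdn P n) (ptn P n) (!j) b)).card + 805 * L := by
      have h3 : (A.Q j).filter (fun b =>
          0 ≤ sgp (Fn G P t0 n) (sdn P n) (ptn P n) (!j) b) ⊆
          (A.Q j).filter (fun b =>
            0 ≤ sgp (Fn2 G X P (fnl X t) n) (sdn P n) (ptn P n) (!j) b) ∪
          (A.Q j).filter (fun b =>
            1 ≤ (dl (Fn G P t0 n) (Fn2 G X P (fnl X t) n) b).card) := by
        intro b hb
        obtain ⟨hb1, hb2⟩ := mem_filter.1 hb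
        by_cases h4 : 1 ≤ (dl (Fn G P t0 n) (Fn2 G X P (fnl X t) n) b).card
        · exact mem_union.2 (Or.inr (mem_filter.2 ⟨hb1, h4⟩))
        · refine mem_union.2 (Or.inl (mem_filter.2 ⟨hb1, ?_⟩))
          have h5 := sgp_le (Fn G P t0 n) (Fn2 G X P (fnl X t) n) (sdn P n) (ptn P n) (!j) b
          have h6 : (dl (Fn G P t0 n) (Fn2 G X P (fnl X t) n) b).card = 0 := by omega
          rw [h6, abs_le] at h5
          have h7 := h5.1
          push_cast at h7
          linarith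
      have h4 : ((A.Q j).filter (fun b =>
          1 ≤ (dl (Fn G P t0 n) (Fn2 G X P (fnl X t) n) b).card)).card ≤ 805 * L := by
        refine le_trans ?_ (hS1 n (A.Q j))
        calc ((A.Q j).filter (fun b =>
              1 ≤ (dl (Fn G P t0 n) (Fn2 G X P (fnl X t) n) b).card)).card
            = ∑ b ∈ (A.Q j).filter (fun b =>
              1 ≤ (dl (Fn G P t0 n) (Fn2 G X P (fnl X t) n) b).card), 1 := by simp
          _ ≤ ∑ b ∈ (A.Q j).filter (fun b =>
              1 ≤ (dl (Fn G P t0 n) (Fn2 G X P (fnl X t) n) b).card),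
              (dl (Fn G P t0 n) (Fn2 G X P (fnl X t) n) b).card :=
            sum_le_sum fun b hb => (mem_filter.1 hb).2
          _ ≤ _ := sum_le_sum_of_subset (filter_subset _ _)
      have h5 := (card_le_card h3).trans (card_union_le _ _)
      omega
    have h3 : 20000 * L ≤ (A.Q j).card := by
      have h4 := (cx.pal.Qc j).1
      have h5 : (20000 * L : ℝ) ≤ (A.Q j).card := by linarith
      exact_mod_cast h5
    omega
  · -- adj
    intro z hz hzV n β hr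
    have h1 := pre.adj z hz n β hr
    have hcz : c z ∈ Sp := by
      rw [pre.own]
      exact mem_image_of_mem _ hz
    have hcz2 : c z ∈ Sp2 P X c := mem_image_of_mem _ (mem_sdiff.2 ⟨hz, hzV⟩)
    have hcS : c z ∉ Ss := disjoint_left.1 cx.sh.sS hcz
    have hcB : c z ∉ Bd := fun h => disjoint_left.1 st.Bp h hcz2
    have hcU : c z ∉ U := fun h => disjoint_left.1 st.Ud h
      (mem_union.2 (Or.inl (mem_union.2 (Or.inr hcz2))))
    have hcd : c z < d + 2 := by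
      have h2 := pre.SC hcz
      rw [Pal.C0, mem_sdiff, mem_range] at h2
      exact h2.1
    have h0S : ∀ v w, X.H.Adj v w → X.h0 v ∈ Ss := by
      intro v w hvw
      rcases hp.HH v w hvw with h2 | h2
      · exact (cx.sV v h2).2
      · rw [(hp.h0l v w hvw).2]
        exact (cx.sV w h2).2
    have key1 : ∀ v : Ts P n, (c z ∈ Fn G P t0 n v ↔ c z ∈ Fo2 G X P (fnl X t) n v) := by
      intro v
      have h2 := st.tc (c z) hcd hcS hcB hcU v.1 v.2.1
      have h3 : c z ∈ Fc2 G X P (fnl X t) v.1 ↔ c z ∈ Fc2 G X P t v.1 := by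
        rw [mem_Fc2, mem_Fc2]
        constructor
        · rintro ⟨w, hw, h4⟩
          by_cases hH : X.H.Adj v.1 w
          · rw [fnl, if_pos hH] at h4
            exact absurd (h4 ▸ h0S _ _ hH) hcS
          · rw [fnl, if_neg hH] at h4
            exact ⟨w, hw, h4⟩
        · rintro ⟨w, hw, h4⟩
          by_cases hH : X.H.Adj v.1 w
          · rw [st.dm _ _ hH] at h4
            omega
          · exact ⟨w, hw, by rw [fnl, if_neg hH]; exact h4⟩
      have h4 : c z ∈ Fo2 G X P (fnl X t) n v ↔ c z ∈ Fc2 G X P (fnl X t) v.1 := by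
        rw [Fo2_eq]
        show c z ∈ F2 G P X t v.1 ↔ _
        unfold F2
        by_cases hv : v.1 ∈ X.VH
        · rw [if_pos hv, mem_insert]
          constructor
          · rintro (h5 | h5)
            · exact absurd (h5 ▸ (cx.sV _ hv).1) hcS
            · exact h5
          · exact Or.inr
        · rw [if_neg hv]
      rw [h4, h3, h2]
      exact Iff.rfl
    have h2 : (dl (Fn G P t0 n) (Fo2 G X P (fnl X t) n) (c z)).card = 0 := by
      rw [card_eq_zero, eq_empty_iff_forall_notMem]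
      intro v hv
      exact (mem_filter.1 hv).2 (key1 v)
    have h3 := need_le (Fn G P t0 n) (Fo2 G X P (fnl X t) n) (sdn P n) β (c z)
    omega

end Pool.Agent.Work.MP_db9399_da.helper99
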