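import Pool.Agent.Work.MP_db9399_da_helper99.EMBE
import Pool.Agent.Work.MP_db9399_da_helper46.EMBK
import Pool.Agent.Work.MP_db9399_da_helper46.GAD
import Pool.Agent.Work.MP_db9399_da_helper49.EMBI

/-!
# MP_db9399, DENSE-ALL, phase 2, EMB2: the regular graph with super vertices and gadgets
(helper99)
-/

set_option autoImplicit false

namespace Pool.Agent.Work.MP_db9399_da.helper99

open Finset Classical
open Pool.Agent.Work.MP_db9399_all (nb)
open _root_.MP_db9399_co (IsTotalColoring IsDistThreeMatching)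
open EMBAux

universe u

theorem stmt_GAD : Stmt_GAD.{u} := fun G d own q hq => helper46.gad G d own q hq

theorem stmt_EMB2 : Stmt_EMB2.{u} := by
  intro C1 hC1
  obtain ⟨m, hm⟩ : ∃ m : ℕ, m = ⌈4 * C1⌉₊ + 1 := ⟨_, rfl⟩
  obtain ⟨v0, hv0⟩ : ∃ v0 : ℕ, v0 = ⌈16 * C1⌉₊ := ⟨_, rfl⟩
  have hmC : 4 * C1 ≤ m := by
    rw [hm]
    push_cast
    linarith [Nat.le_ceil (4 * C1)]
  have hvC : 16 * C1 ≤ v0 := by
    rw [hv0]
    exact Nat.le_ceil _
  refine ⟨10 * (C1 + 2 * m + 2 * (3 * v0 + 4 * m)), v0 + 2 + 2 * m, 40, ?_, ?_⟩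
  · have h1 : (0 : ℝ) ≤ m := Nat.cast_nonneg m
    have h2 : (0 : ℝ) ≤ v0 := Nat.cast_nonneg v0
    linarith
  intro V _ G d H₀ c₀ t₀ hd hVC hV hdeg hH hcol hc ht
  obtain ⟨pr, fs, hMt, hadj⟩ := helper46.mto G H₀ hH
  obtain ⟨U, hU⟩ : ∃ U : Finset V, U = univ.filter (fun v => v ∈ H₀.verts) := ⟨_, rfl⟩
  rw [← hU] at hMt
  have hmU : ∀ v, v ∈ U ↔ v ∈ H₀.verts := by
    intro v
    rw [hU, mem_filter]
    exact ⟨fun h => h.2, fun h => ⟨mem_univ _, h⟩⟩
  have hd0 : (0 : ℝ) < d := by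
    have : 0 < d := by omega
    exact_mod_cast this
  -- bins
  have hm2 : 4 * Fintype.card V ≤ m * d := by
    have h1 : (4 * Fintype.card V : ℝ) ≤ m * d := by
      have h2 : 4 * C1 * d ≤ m * d := mul_le_mul_of_nonneg_right hmC hd0.le
      linarith
    exact_mod_cast h1
  obtain ⟨bn, hbf, hbs⟩ := bins (d := d) hMt m (by omega) hm2
  obtain ⟨W, iW, G', R, Gd, hB, hWc⟩ := bg_exists helper49.stmt_EMBI stmt_GAD hMt hd hdeg hV bn hbs
  have hHadj : ∀ u ∈ U, H₀.Adj u (pr u) := fun u hu => (hadj u (pr u)).2 ⟨(hmU u).1 hu, rfl⟩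
  have hHs : ∀ u ∈ U, H₀.spanningCoe.Adj u (pr u) := fun u hu => hHadj u hu
  have hy : Hy G d U pr fs bn G' R Gd c₀ t₀ := by
    refine ⟨hMt, hB, fun v _ => hbf v, fun u hu => hc u ((hmU u).1 hu), ?_, ?_, ?_⟩
    · intro u hu
      exact ht _ (SimpleGraph.Subgraph.mem_edgeSet.2 (hHadj u hu))
    · intro u hu
      exact hcol.vertex u (pr u) (hHs u hu)
    · intro u hu
      exact hcol.incidence u (pr u) (hHs u hu)
  -- sizes
  have hVHc : (VHs G d U).card ≤ v0 := by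
    have h1 := card_VH hMt d (by omega) (VHs G d U) (filter_subset _ _)
      (fun u hu => (mem_filter.1 hu).2)
    have h2 : ((VHs G d U).card : ℝ) * d ≤ 16 * Fintype.card V := by exact_mod_cast h1
    have h3 : ((VHs G d U).card : ℝ) * d ≤ v0 * d := by
      have h4 : 16 * C1 * d ≤ v0 * d := mul_le_mul_of_nonneg_right hvC hd0.le
      linarith
    have h5 : ((VHs G d U).card : ℝ) ≤ v0 := le_of_mul_le_mul_right h3 hd0
    exact_mod_cast h5
  have hLHc : (LHs G d U pr).card ≤ v0 := (card_LH hMt).trans hVHc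
  have hS0c : (S0i (m := m) (LHs G d U pr)).card ≤ v0 + 2 * m := by
    rw [S0i]
    refine (card_union_le _ _).trans (Nat.add_le_add (card_image_le.trans hLHc) ?_)
    refine card_image_le.trans ?_
    rw [card_univ, Fintype.card_prod, Fintype.card_bool, Fintype.card_fin]
  refine ⟨W, iW, G', mkX G d U pr bn G' R Gd c₀ t₀, hB.reg, ?_,
    hp hy hd _ (by omega) (by omega), ?_⟩
  · have h1 : (2 * ((LHs G d U pr).card + 2 * m) + (VHs G d U).card) * (d + 1) ≤
        (3 * v0 + 4 * m) * (2 * d) := Nat.mul_le_mul (by omega) (by omega)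
    have h2 : 2 * m ≤ 2 * m * d := Nat.le_mul_of_pos_right _ (by omega)
    have h3 : Fintype.card W ≤ 10 * (Fintype.card V + 2 * m * d +
        (3 * v0 + 4 * m) * (2 * d)) := by omega
    have h4 : (Fintype.card W : ℝ) ≤ 10 * (Fintype.card V + 2 * m * d +
        (3 * v0 + 4 * m) * (2 * d)) := by exact_mod_cast h3
    linarith
  · intro c t hT
    refine helper46.back G H₀ d c₀ t₀ pr G' (fun v => R (rep (LLs G d U pr) bn v)) c t hadj ?_
      hcol hc ht ?_ ?_ hT.clt hT.sym hT.tlt hT.inj hT.tc ?_ ?_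
    · intro u hu v hv huv
      rw [hadj]
      exact ⟨hu, hMt.d1 u ((hmU u).2 hu) v ((hmU v).2 hv) huv⟩
    · intro v w hvw hn
      refine tot_adj hy hvw (fun h => hn ?_)
      rw [hadj]
      exact ⟨(hmU v).1 h.1, hMt.d1 v h.1 w h.2 hvw⟩
    · intro u v w h1 h2 h3
      exact tot_inj hy h1 h2 h3
    · intro v w hv hw hvw
      exact tot_vertex hy hT (fun h => hv ((hmU v).1 h)) (fun h => hw ((hmU w).1 h)) hvw
    · intro u v hu hv huv
      exact tot_edge hy hT ((hmU u).2 hu) (fun h => hv ((hmU v).1 h)) huv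

end Pool.Agent.Work.MP_db9399_da.helper99
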