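import Pool.Agent.Work.MP_db9399_da_helper99.CMP

/-!
# MP_db9399, DENSE-ALL, phase 2, PREX: EXF, the field `EX` of `PreP2` (helper99)
-/

set_option autoImplicit false

namespace Pool.Agent.Work.MP_db9399_da.helper99

open Finset Classical
open Pool.Agent.Work.MP_db9399_all (nb)
open Pool.Agent.Work.MP_db9399_lt (us)
open Pool.Agent.Work.MP_db9399_da.helper62 (mem_nb mem_us card_Ts nb_split)
open CMPAux

universe u

namespace EXFAux

theorem nums4 {C g ρ K π κ ε ε2 σ τ ζ θ : ℝ} {M k k2 K5 L d : ℕ}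
    (nu : Nu C g ρ K π κ ε ε2 σ τ ζ θ M k k2 K5 L d) :
    10 ^ 9 * (L : ℝ) ^ 4 ≤ ε * d ∧ ε ≤ 1 ∧ ζ ≤ 1 / 100 := by
  have hL : (1 : ℝ) ≤ L := by exact_mod_cast nu.L1
  have hL2 : (1 : ℝ) ≤ (L : ℝ) ^ 2 := one_le_pow₀ hL
  have hd : (0 : ℝ) ≤ d := Nat.cast_nonneg d
  have hσ0 := nu.σ0
  have hσ1 := nu.σ1
  have hκ0 := nu.κ0
  have hκ := nu.κσ
  have hζ0 := nu.ζ0
  have hθ0 := nu.θ0
  have hτ0 := nu.τ0
  have hε0 := nu.ε0
  have h10 : (1 : ℝ) ≤ 10 ^ 6 * (L : ℝ) ^ 2 := by linarith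
  have hζ1 : ζ ≤ 1 / 100 := by
    have h := nu.ζL
    have h1 : ζ ≤ 10 ^ 6 * (L : ℝ) ^ 2 * ζ := le_mul_of_one_le_left hζ0.le h10
    linarith
  have hτ1 : τ ≤ 1 := by
    have h := nu.τL
    have h1 : τ ≤ 10 ^ 6 * (L : ℝ) ^ 2 * τ := le_mul_of_one_le_left hτ0.le h10
    linarith
  have hζσ : ζ ^ 2 * σ ≤ 1 := mul_le_one₀ (pow_le_one₀ hζ0.le (by linarith)) hσ0.le (by linarith)
  have hθ1 : θ ≤ 1 := by
    have h := nu.θL
    have h1 : θ ≤ 10 ^ 6 * (L : ℝ) ^ 2 * θ := le_mul_of_one_le_left hθ0.le h10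
    linarith
  have hε1 : ε ≤ 1 := by
    have h := nu.ετ
    linarith
  have hκ1 : κ ≤ 1 := by linarith
  have hdL := nu.dL
  have e1 : ε * θ * ζ ^ 2 * σ * κ * d = (ε * d) * ((ζ ^ 2 * σ) * (θ * κ)) := by ring
  have hζσ0 : 0 ≤ ζ ^ 2 * σ := mul_nonneg (pow_nonneg hζ0.le 2) hσ0.le
  have hθκ0 : 0 ≤ θ * κ := mul_nonneg hθ0.le hκ0.le
  have hθκ : θ * κ ≤ 1 := mul_le_one₀ hθ1 hκ0.le hκ1
  have f1 : (ζ ^ 2 * σ) * (θ * κ) ≤ 1 := mul_le_one₀ hζσ hθκ0 hθκ
  have g1 : ε * θ * ζ ^ 2 * σ * κ * d ≤ ε * d := by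
    rw [e1]
    exact mul_le_of_le_one_right (mul_nonneg hε0.le hd) f1
  exact ⟨by linarith, hε1, hζ1⟩

section abs
variable {W : Type u} [Fintype W]

theorem dl_comm (F F' : W → Finset ℕ) (b : ℕ) : dl F F' b = dl F' F b := by
  unfold dl
  ext v
  rw [mem_filter, mem_filter]
  constructor
  · rintro ⟨h1, h2⟩
    exact ⟨h1, fun h => h2 h.symm⟩
  · rintro ⟨h1, h2⟩
    exact ⟨h1, fun h => h2 h.symm⟩

theorem two_need (F : W → Finset ℕ) (sd : W → Bool) (γ : Bool) (b : ℕ) :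
    2 * (need F sd γ b : ℤ) = |sg F sd b| + (if γ then sg F sd b else - sg F sd b) := by
  unfold need sg
  cases γ
  · simp only [Bool.not_false, Bool.false_eq_true, if_false]
    rcases le_total (sid sd false ∩ us F b).card (sid sd true ∩ us F b).card with h | h
    · rw [abs_of_nonpos (by omega)]
      omega
    · rw [abs_of_nonneg (by omega)]
      omega
  · simp only [Bool.not_true, if_true]
    rcases le_total (sid sd false ∩ us F b).card (sid sd true ∩ us F b).card with h | h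
    · rw [abs_of_nonpos (by omega)]
      omega
    · rw [abs_of_nonneg (by omega)]
      omega

/-- many unbalanced colours, small sum: both sums of needs are large -/
theorem sum_need (F : W → Finset ℕ) (sd : W → Bool) (γ : Bool) (B : Finset ℕ) :
    ((B.filter (fun b => sg F sd b ≠ 0)).card : ℝ) ≤
      2 * ((∑ b ∈ B, need F sd γ b : ℕ) : ℝ) + |((∑ b ∈ B, sg F sd b : ℤ) : ℝ)| := by
  have h1 : ((B.filter (fun b => sg F sd b ≠ 0)).card : ℤ) ≤ ∑ b ∈ B, |sg F sd b| := by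
    calc ((B.filter (fun b => sg F sd b ≠ 0)).card : ℤ)
        = ∑ b ∈ B.filter (fun b => sg F sd b ≠ 0), 1 := by simp
      _ ≤ ∑ b ∈ B.filter (fun b => sg F sd b ≠ 0), |sg F sd b| :=
        sum_le_sum fun b hb => Int.one_le_abs (mem_filter.1 hb).2
      _ ≤ ∑ b ∈ B, |sg F sd b| :=
        sum_le_sum_of_subset_of_nonneg (filter_subset _ _) fun b _ _ => abs_nonneg _
  have h2 : 2 * ((∑ b ∈ B, need F sd γ b : ℕ) : ℤ) =
      ∑ b ∈ B, |sg F sd b| + (if γ then ∑ b ∈ B, sg F sd b else - ∑ b ∈ B, sg F sd b) := by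
    push_cast
    rw [mul_sum, sum_congr rfl (fun b _ => two_need F sd γ b), sum_add_distrib]
    cases γ
    · simp only [Bool.false_eq_true, if_false]
      rw [sum_neg_distrib]
    · simp only [if_true]
  have h3 : -|∑ b ∈ B, sg F sd b| ≤
      (if γ then ∑ b ∈ B, sg F sd b else - ∑ b ∈ B, sg F sd b) := by
    cases γ
    · simp only [Bool.false_eq_true, if_false]
      exact neg_le_neg (le_abs_self _)
    · simp only [if_true]
      exact neg_abs_le _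
  have h4 : ((B.filter (fun b => sg F sd b ≠ 0)).card : ℤ) ≤
      2 * ((∑ b ∈ B, need F sd γ b : ℕ) : ℤ) + |∑ b ∈ B, sg F sd b| := by linarith
  have h5 : (((B.filter (fun b => sg F sd b ≠ 0)).card : ℤ) : ℝ) ≤
      ((2 * ((∑ b ∈ B, need F sd γ b : ℕ) : ℤ) + |∑ b ∈ B, sg F sd b| : ℤ) : ℝ) :=
    Int.cast_le.2 h4
  rw [Int.cast_add, Int.cast_mul, Int.cast_abs, Int.cast_natCast, Int.cast_natCast] at h5
  exact_mod_cast h5

theorem need_abs (F : W → Finset ℕ) (sd : W → Bool) (γ : Bool) (b : ℕ) :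
    (need F sd γ b : ℤ) ≤ |sg F sd b| := by
  have h := two_need F sd γ b
  have h1 : (if γ then sg F sd b else - sg F sd b) ≤ |sg F sd b| := by
    cases γ
    · simp only [Bool.false_eq_true, if_false]
      exact neg_le_abs _
    · simp only [if_true]
      exact le_abs_self _
  linarith

theorem need_cmp (F F' : W → Finset ℕ) (sd : W → Bool) (β : Bool) (b : ℕ) (D : Finset W)
    (h1 : ∀ v, sd v = !β → b ∈ F' v → b ∈ F v ∨ v ∈ D) (h2 : ∀ v, b ∈ F v → b ∈ F' v) :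
    need F' sd β b ≤ need F sd β b + D.card := by
  have h3 : sid sd (!β) ∩ us F' b ⊆ (sid sd (!β) ∩ us F b) ∪ D := by
    intro v hv
    obtain ⟨h4, h5⟩ := mem_inter.1 hv
    rw [mem_us] at h5
    rcases h1 v (mem_filter.1 h4).2 h5 with h6 | h6
    · exact mem_union.2 (Or.inl (mem_inter.2 ⟨h4, (mem_us _ _ _).2 h6⟩))
    · exact mem_union.2 (Or.inr h6)
  have h4 : sid sd β ∩ us F b ⊆ sid sd β ∩ us F' b := by
    intro v hv
    obtain ⟨h5, h6⟩ := mem_inter.1 hv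
    rw [mem_us] at h6
    exact mem_inter.2 ⟨h5, (mem_us _ _ _).2 (h2 v h6)⟩
  have h5 := (card_le_card h3).trans (card_union_le _ _)
  have h6 := card_le_card h4
  unfold need
  omega

end abs

section main
variable {V : Type u} [Fintype V] {M : ℕ}
variable {C g ρ K π κ ε ε2 σ τ ζ θ : ℝ} {k k2 K5 L : ℕ} {G : SimpleGraph V} {d : ℕ}
  {P : Pcs V M} {A : Pal} {X : HD V} {Ss : Finset ℕ} {t0 : V → V → ℕ} {c : V → ℕ}
  {Sp : Finset ℕ} {Bd : Finset ℕ} {s : ℕ} {t : V → V → ℕ} {U : Finset ℕ}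

theorem Ss_lt (cx : Cx C g ρ K π κ ε ε2 σ τ ζ θ k k2 K5 L G d P A X Ss t0 c Sp) {b : ℕ}
    (hb : b ∈ Ss) : b < d + 2 := by
  have h := cx.sC hb
  rw [Pal.C0, mem_sdiff, mem_range] at h
  exact h.1

theorem Ss_P1 (cx : Cx C g ρ K π κ ε ε2 σ τ ζ θ k k2 K5 L G d P A X Ss t0 c Sp) {b : ℕ}
    (hb : b ∈ Ss) : b ∈ P1 d A.Q A.P2 := by
  have h := cx.sC hb
  rw [Pal.C0, mem_sdiff] at h
  rw [P1, mem_sdiff]
  refine ⟨h.1, fun h1 => h.2 ?_⟩
  rcases mem_union.1 h1 with h2 | h2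
  · rcases mem_union.1 h2 with h3 | h3
    · exact mem_union.2 (Or.inl (mem_union.2 (Or.inl (cx.pal.Q0 h3))))
    · exact mem_union.2 (Or.inl (mem_union.2 (Or.inr (cx.pal.Q1 h3))))
  · exact mem_union.2 (Or.inr (cx.pal.P2C h2))

/-- dummy edges to real colours -/
theorem fnl_mem (st : PSt τ ζ G d P A X Ss t0 c Bd s t U) {v : V} {b : ℕ} (hb : b < d + 2) :
    (b ∈ Fc2 G X P t v → b ∈ Fc2 G X P (fnl X t) v) ∧
    (b ∈ Fc2 G X P (fnl X t) v → b ∈ Fc2 G X P t v ∨ ∃ w, X.H.Adj v w ∧ X.h0 v = b) := by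
  constructor
  · intro h
    obtain ⟨w, hw, h4⟩ := mem_Fc2.1 h
    by_cases hH : X.H.Adj v w
    · rw [st.dm _ _ hH] at h4
      omega
    · exact mem_Fc2.2 ⟨w, hw, by rw [fnl, if_neg hH]; exact h4⟩
  · intro h
    obtain ⟨w, hw, h4⟩ := mem_Fc2.1 h
    by_cases hH : X.H.Adj v w
    · rw [fnl, if_pos hH] at h4
      exact Or.inr ⟨w, hH, h4⟩
    · rw [fnl, if_neg hH] at h4
      exact Or.inl (mem_Fc2.2 ⟨w, hw, h4⟩)

theorem h0_Ss (cx : Cx C g ρ K π κ ε ε2 σ τ ζ θ k k2 K5 L G d P A X Ss t0 c Sp) {v w : V}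
    (hvw : X.H.Adj v w) : X.h0 v ∈ Ss := by
  rcases cx.hp.HH v w hvw with h2 | h2
  · exact (cx.sV v h2).2
  · rw [(cx.hp.h0l v w hvw).2]
    exact (cx.sV w h2).2

/-- a colour `h0 v` is not blocked on the other side -/
theorem not_blocked (cx : Cx C g ρ K π κ ε ε2 σ τ ζ θ k k2 K5 L G d P A X Ss t0 c Sp)
    {n : Fin M} (hn : P.ty n = Ty.B) {β : Bool} (v : Ts P n) (hv : P.sd v.1 = !β) {w : V}
    (hw : X.H.Adj v.1 w) : X.h0 v.1 ∉ Bkn X P ζ d Ss n β := by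
  intro hb
  have h1 := (mem_filter.1 hb).2
  have hvV : v.1 ∈ X.VH := by
    rcases cx.hp.HS _ _ hw with h | h
    · exact h
    · exact absurd (cx.sup _ h).1 v.2.1
  have h2 : nb (bulk G P) v.1 ⊆ ((sV P n β).filter (fun y => X.h0 v.1 ∉ X.nm y)) ∪
      (univ.filter (fun y => ∃ x ∈ X.VH, G.Adj x y ∧ X.h0 x ∈ X.nm y)) := by
    intro y hy
    rw [mem_nb] at hy
    by_cases h3 : X.h0 v.1 ∈ X.nm y
    · exact mem_union.2 (Or.inr (mem_filter.2 ⟨mem_univ _, v.1, hvV, hy.1, h3⟩))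
    · refine mem_union.2 (Or.inl (mem_filter.2 ⟨mem_filter.2 ⟨mem_univ _, hy.2.2.1, ?_, ?_⟩, h3⟩))
      · rw [← hy.2.2.2.1]
        exact v.2.2
      · have h4 := hy.2.2.2.2 (by rw [v.2.2]; exact hn)
        rw [hv] at h4
        revert h4
        cases P.sd y <;> cases β <;> simp
  have h3 := (card_le_card h2).trans (card_union_le _ _)
  have h4 := cx.hp.ht
  have h5 := nb_split G P v.1
  have h6 := cx.dec.reg v.1
  have h7 := cx.dec.thd v.1 v.2.1
  obtain ⟨n1, n2, n3⟩ := nums4 cx.nu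
  have hkL := cx.nu.kL
  have hkLr : (k : ℝ) ≤ L := by exact_mod_cast hkL
  have hL : (1 : ℝ) ≤ L := by exact_mod_cast cx.nu.L1
  have hd : (0 : ℝ) ≤ d := Nat.cast_nonneg d
  have hL4 : (L : ℝ) ≤ (L : ℝ) ^ 4 := by
    have := pow_le_pow_right₀ hL (show 1 ≤ 4 by norm_num)
    simpa using this
  have h8 : d ≤ (nb (thin G P) v.1).card +
      (((sV P n β).filter (fun y => X.h0 v.1 ∉ X.nm y)).card + k) := by omega
  have h9 : (d : ℝ) ≤ ((nb (thin G P) v.1).card : ℝ) +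
      ((((sV P n β).filter (fun y => X.h0 v.1 ∉ X.nm y)).card : ℝ) + k) := by exact_mod_cast h8
  have h10 : ε * d ≤ d := mul_le_of_le_one_left hd n2
  have h11 : ζ * d ≤ 1 / 100 * d := mul_le_mul_of_nonneg_right n3 hd
  linarith

/-- one round of a blocked colour -/
theorem need_blocked (cx : Cx C g ρ K π κ ε ε2 σ τ ζ θ k k2 K5 L G d P A X Ss t0 c Sp)
    (st : PSt τ ζ G d P A X Ss t0 c Bd s t U) {n : Fin M} (hn : P.ty n = Ty.B) {β : Bool}
    {b : ℕ} (hb : b ∈ Bkn X P ζ d Ss n β) :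
    need (Fo2 G X P (fnl X t) n) (sdn P n) β b ≤
      need (fun v : Ts P n => Fc2 G X P t v.1) (sdn P n) β b +
        ((oT X P n ∩ sid (sdn P n) (!β)).filter (fun v => X.c0 v.1 = b)).card := by
  have hbS : b ∈ Ss := (mem_filter.1 hb).1
  have hbd := Ss_lt cx hbS
  refine need_cmp (fun v : Ts P n => Fc2 G X P t v.1) (Fo2 G X P (fnl X t) n) (sdn P n) β b _ ?_ ?_
  · intro v h4 h3
    rw [Fo2_eq] at h3
    have h3' : b ∈ F2 G P X t v.1 := h3
    have h5 : b ∈ Fc2 G X P (fnl X t) v.1 → b ∈ Fc2 G X P t v.1 := by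
      intro h6
      rcases (fnl_mem st hbd).2 h6 with h7 | ⟨w, hw, h7⟩
      · exact h7
      · exfalso
        apply not_blocked cx hn v h4 hw
        rw [h7]
        exact hb
    unfold F2 at h3'
    by_cases hv : v.1 ∈ X.VH
    · rw [if_pos hv, mem_insert] at h3'
      rcases h3' with h6 | h6
      · exact Or.inr (mem_filter.2 ⟨mem_inter.2 ⟨mem_filter.2 ⟨mem_univ _, hv⟩,
          mem_filter.2 ⟨mem_univ _, h4⟩⟩, h6.symm⟩)
      · exact Or.inl (h5 h6)
    · rw [if_neg hv] at h3'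
      exact Or.inl (h5 h3')
  · intro v h4
    rw [Fo2_eq]
    show b ∈ F2 G P X t v.1
    have h5 := (fnl_mem st hbd).1 h4
    unfold F2
    by_cases hv : v.1 ∈ X.VH
    · rw [if_pos hv]
      exact mem_insert_of_mem h5
    · rw [if_neg hv]
      exact h5

/-- nothing changes for fresh colours -/
theorem need_fresh (cx : Cx C g ρ K π κ ε ε2 σ τ ζ θ k k2 K5 L G d P A X Ss t0 c Sp)
    (st : PSt τ ζ G d P A X Ss t0 c Bd s t U) (n : Fin M) (γ : Bool) {b : ℕ} (hb : b ∈ U) :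
    need (Fo2 G X P (fnl X t) n) (sdn P n) γ b =
      need (fun v : Ts P n => Fc2 G X P t v.1) (sdn P n) γ b := by
  have hbd : b < d + 2 := by
    have h := st.UP hb
    rw [P1, mem_sdiff, mem_range] at h
    exact h.1
  have hbS : b ∉ Ss := fun h => disjoint_left.1 st.Ud hb
    (mem_union.2 (Or.inl (mem_union.2 (Or.inl h))))
  have h1 : us (Fo2 G X P (fnl X t) n) b = us (fun v : Ts P n => Fc2 G X P t v.1) b := by
    ext v
    rw [mem_us, mem_us, Fo2_eq]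
    show b ∈ F2 G P X t v.1 ↔ b ∈ Fc2 G X P t v.1
    have h2 : b ∈ Fc2 G X P (fnl X t) v.1 ↔ b ∈ Fc2 G X P t v.1 := by
      constructor
      · intro h3
        rcases (fnl_mem st hbd).2 h3 with h4 | ⟨w, hw, h4⟩
        · exact h4
        · exact absurd (h4 ▸ h0_Ss cx hw) hbS
      · exact (fnl_mem st hbd).1
    unfold F2
    by_cases hv : v.1 ∈ X.VH
    · rw [if_pos hv, mem_insert, h2]
      constructor
      · rintro (h3 | h3)
        · exact absurd (h3 ▸ (cx.sV _ hv).1) hbS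
        · exact h3
      · exact Or.inr
    · rw [if_neg hv, h2]
  unfold need
  rw [h1]

end main

end EXFAux

open EXFAux

theorem stmt_EXF : Stmt_EXF.{u} := by
  intro C g ρ K π κ ε ε2 σ τ ζ θ M k k2 K5 L V _ G d P A X Ss t0 c Sp cx Bd s t U st hBd hs n hn β
  have hp := cx.hp
  have pre := cx.pre
  by_cases hz : ZT τ G d P A t0 n
  · -- zero type
    have hE := st.E n hz β
    unfold EXI at hE
    have h1 : ∑ b ∈ Bkn X P ζ d Ss n β, need (Fo2 G X P (fnl X t) n) (sdn P n) β b ≤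
        ∑ b ∈ Bkn X P ζ d Ss n β, need (fun v : Ts P n => Fc2 G X P t v.1) (sdn P n) β b +
          ∑ b ∈ Bkn X P ζ d Ss n β,
            ((oT X P n ∩ sid (sdn P n) (!β)).filter (fun v => X.c0 v.1 = b)).card := by
      rw [← sum_add_distrib]
      exact sum_le_sum fun b hb => need_blocked cx st hn hb
    have h2 : ∑ b ∈ Bkn X P ζ d Ss n β,
        ((oT X P n ∩ sid (sdn P n) (!β)).filter (fun v => X.c0 v.1 = b)).card ≤
        (oT X P n ∩ sid (sdn P n) (!β)).card := by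
      rw [← card_biUnion]
      · exact card_le_card (biUnion_subset.2 fun b _ => filter_subset _ _)
      · intro b _ b' _ hbb
        rw [Function.onFun, disjoint_left]
        intro p hp hp'
        rw [mem_filter] at hp hp'
        exact hbb (hp.2.symm.trans hp'.2)
    have h3 : ∑ b ∈ U, need (fun v : Ts P n => Fc2 G X P t v.1) (sdn P n) (!β) b ≤
        ∑ b ∈ P1 d A.Q A.P2 \ Bkn X P ζ d Ss n (!β),
          need (Fo2 G X P (fnl X t) n) (sdn P n) (!β) b := by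
      rw [← sum_congr rfl (fun b hb => need_fresh cx st n (!β) hb)]
      refine sum_le_sum_of_subset ?_
      intro b hb
      refine mem_sdiff.2 ⟨st.UP hb, fun h4 => ?_⟩
      exact disjoint_left.1 st.Ud hb
        (mem_union.2 (Or.inl (mem_union.2 (Or.inl (mem_filter.1 h4).1))))
    omega
  · -- many unbalanced colours
    have hz' : τ * d < (((P1 d A.Q A.P2).filter
        (fun b => sg (Fn G P t0 n) (sdn P n) b ≠ 0)).card : ℝ) := by
      by_contra h
      exact hz ⟨hn, not_lt.1 h⟩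
    obtain ⟨n1, n2, n3⟩ := nums4 cx.nu
    have hkL := cx.nu.kL
    have hk2L := cx.nu.k2L
    have hετ := cx.nu.ετ
    have hε0 := cx.nu.ε0
    have hL1 := cx.nu.L1
    have hL : (1 : ℝ) ≤ L := by exact_mod_cast cx.nu.L1
    have hd : (0 : ℝ) ≤ d := Nat.cast_nonneg d
    have hF2 : ∀ v b, ¬ (b ∈ Fc G P t0 v ↔ b ∈ F2 G P X t v) →
        (v, b) ∈ Pch G P X t0 t := ch2 hp
    have hD2 : ∀ b, (dl (Fn G P t0 n) (Fo2 G X P (fnl X t) n) b).card ≤ 6 * k := by
      intro b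
      rw [Fo2_eq]
      exact (dl_DV P (Fc G P t0) (F2 G P X t) b n).trans (DV_card cx st _ hF2 b)
    have hS2 : ∑ b ∈ P1 d A.Q A.P2, (dl (Fn G P t0 n) (Fo2 G X P (fnl X t) n) b).card ≤
        805 * L := by
      rw [Fo2_eq]
      refine (sum_le_sum fun b _ => dl_DV P (Fc G P t0) (F2 G P X t) b n).trans ?_
      refine (sum_DV P _ _ _ (fun v b _ => hF2 v b) _).trans ?_
      have h1 := Pch_card (t0 := t0) (t := t) (s := s) hp st.cn
      omega
    have h1 := sum_need (Fn G P t0 n) (sdn P n) (!β) (P1 d A.Q A.P2)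
    have h2 := pre.sm1 n hn
    -- the sum after the changes
    have h3 : ∑ b ∈ P1 d A.Q A.P2, need (Fn G P t0 n) (sdn P n) (!β) b ≤
        ∑ b ∈ P1 d A.Q A.P2, need (Fo2 G X P (fnl X t) n) (sdn P n) (!β) b + 805 * L := by
      refine le_trans (sum_le_sum fun b _ =>
        need_le (Fo2 G X P (fnl X t) n) (Fn G P t0 n) (sdn P n) (!β) b) ?_
      rw [sum_add_distrib]
      refine Nat.add_le_add_left ?_ _
      rw [sum_congr rfl (fun b _ => by rw [dl_comm])]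
      exact hS2
    -- one colour
    have h4 : ∀ γ, ∀ b ∈ Ss, need (Fo2 G X P (fnl X t) n) (sdn P n) γ b ≤ 8 + 6 * L := by
      intro γ b hb
      have h5 := need_le (Fn G P t0 n) (Fo2 G X P (fnl X t) n) (sdn P n) γ b
      have h6 := hD2 b
      have h7 := need_abs (Fn G P t0 n) (sdn P n) γ b
      have h8 := pre.gs n hn b (Ss_P1 cx hb)
      have h9 : (need (Fn G P t0 n) (sdn P n) γ b : ℤ) ≤ 8 := h7.trans h8
      omega
    have h5 : ∀ γ δ, ∑ b ∈ Bkn X P ζ d Ss n δ, need (Fo2 G X P (fnl X t) n) (sdn P n) γ b ≤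
        L * (8 + 6 * L) := by
      intro γ δ
      refine (sum_le_sum fun b hb => h4 γ b (mem_filter.1 hb).1).trans ?_
      rw [sum_const, smul_eq_mul]
      refine Nat.mul_le_mul_right _ ?_
      have h6 := card_le_card (filter_subset (fun b =>
        (((sV P n δ).filter (fun v => b ∉ X.nm v)).card : ℝ) < ζ / 4 * d) Ss)
      have h7 := cx.sk
      exact (h6.trans h7).trans hk2L
    have h6 : ∑ b ∈ P1 d A.Q A.P2, need (Fo2 G X P (fnl X t) n) (sdn P n) (!β) b ≤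
        ∑ b ∈ P1 d A.Q A.P2 \ Bkn X P ζ d Ss n (!β),
          need (Fo2 G X P (fnl X t) n) (sdn P n) (!β) b + L * (8 + 6 * L) := by
      have h7 : P1 d A.Q A.P2 ⊆ (P1 d A.Q A.P2 \ Bkn X P ζ d Ss n (!β)) ∪
          Bkn X P ζ d Ss n (!β) := by
        intro b hb
        by_cases h8 : b ∈ Bkn X P ζ d Ss n (!β)
        · exact mem_union.2 (Or.inr h8)
        · exact mem_union.2 (Or.inl (mem_sdiff.2 ⟨hb, h8⟩))
      refine (sum_le_sum_of_subset h7).trans ?_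
      rw [sum_union sdiff_disjoint]
      exact Nat.add_le_add_left (h5 _ _) _
    have h7 := h5 β β
    have h8 : ∑ b ∈ P1 d A.Q A.P2, need (Fn G P t0 n) (sdn P n) (!β) b ≤
        ∑ b ∈ P1 d A.Q A.P2 \ Bkn X P ζ d Ss n (!β),
          need (Fo2 G X P (fnl X t) n) (sdn P n) (!β) b + (L * (8 + 6 * L) + 805 * L) := by
      omega
    have h9 : ((∑ b ∈ P1 d A.Q A.P2, need (Fn G P t0 n) (sdn P n) (!β) b : ℕ) : ℝ) ≤
        ((∑ b ∈ P1 d A.Q A.P2 \ Bkn X P ζ d Ss n (!β),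
          need (Fo2 G X P (fnl X t) n) (sdn P n) (!β) b : ℕ) : ℝ) +
            (L * (8 + 6 * L) + 805 * L) := by exact_mod_cast h8
    have h10 : (L : ℝ) ≤ (L : ℝ) ^ 4 := by
      have := pow_le_pow_right₀ hL (show 1 ≤ 4 by norm_num)
      simpa using this
    have h11 : (L : ℝ) ^ 2 ≤ (L : ℝ) ^ 4 := pow_le_pow_right₀ hL (by norm_num)
    have h12 : 100 * (ε * d) ≤ τ * d := by
      rw [← mul_assoc]
      exact mul_le_mul_of_nonneg_right hετ hd
    have h13 : ((L * (8 + 6 * L) : ℕ) : ℝ) ≤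
        ((∑ b ∈ P1 d A.Q A.P2 \ Bkn X P ζ d Ss n (!β),
          need (Fo2 G X P (fnl X t) n) (sdn P n) (!β) b : ℕ) : ℝ) := by
      push_cast
      push_cast at h9 h1 h2
      have h14 : (L : ℝ) * (8 + 6 * L) = 8 * L + 6 * (L : ℝ) ^ 2 := by ring
      rw [h14] at h9 ⊢
      linarith
    have h14 : L * (8 + 6 * L) ≤ ∑ b ∈ P1 d A.Q A.P2 \ Bkn X P ζ d Ss n (!β),
          need (Fo2 G X P (fnl X t) n) (sdn P n) (!β) b := by exact_mod_cast h13
    omega

end Pool.Agent.Work.MP_db9399_da.helper99
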