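import Pool.Agent.Work.MP_db9399_da.Frame2
import Pool.Agent.Work.MP_db9399_da_helper62.Base

/-!
# MP_db9399, DENSE-ALL, phase 2: the super vertices are exceptional (helper99)
-/

set_option autoImplicit false

namespace Pool.Agent.Work.MP_db9399_da.helper99

open Finset Classical
open Pool.Agent.Work.MP_db9399_all (nb)
open Pool.Agent.Work.MP_db9399_nc (nn)
open Pool.Agent.Work.MP_db9399_lt (us)
open Pool.Agent.Work.MP_db9399_da.helper62 (mem_nb nb_split)

universe u

namespace SUPAux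

section
variable {V : Type u} [Fintype V] {M : ℕ}

theorem card_Ts_pV (P : Pcs V M) (n : Fin M) : Fintype.card (Ts P n) = (pV P n).card := by
  apply Fintype.card_of_subtype
  intro x
  simp [pV]

theorem card_pV_sV (P : Pcs V M) (n : Fin M) :
    (pV P n).card = (sV P n false).card + (sV P n true).card := by
  have h : pV P n = sV P n false ∪ sV P n true := by
    ext v
    simp only [pV, sV, mem_filter, mem_univ, true_and, mem_union]
    constructor
    · rintro ⟨h1, h2⟩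
      cases h3 : P.sd v
      · exact Or.inl ⟨h1, h2, rfl⟩
      · exact Or.inr ⟨h1, h2, rfl⟩
    · rintro (⟨h1, h2, _⟩ | ⟨h1, h2, _⟩)
      · exact ⟨h1, h2⟩
      · exact ⟨h1, h2⟩
  rw [h, card_union_of_disjoint]
  rw [disjoint_left]
  intro v hv hv'
  simp only [sV, mem_filter, mem_univ, true_and] at hv hv'
  rw [hv.2.2] at hv'
  exact Bool.noConfusion hv'.2.2

/-- bulk degree outside `V0` -/
theorem bulk_deg {C g ρ ζ θ : ℝ} {G : SimpleGraph V} {d : ℕ} {P : Pcs V M}
    (hD : DecP C g ρ ζ θ G d P) (hζ : ζ ≤ 1 / 100) (x : V) (hx : x ∉ P.V0) :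
    (99 / 100 : ℝ) * d ≤ ((nb (bulk G P) x).card : ℝ) := by
  have h1 := nb_split G P x
  rw [hD.reg x] at h1
  have h2 := hD.thd x hx
  have h3 : ((nb (bulk G P) x).card : ℝ) + ((nb (thin G P) x).card : ℝ) = d := by exact_mod_cast h1
  have h4 : ζ * d ≤ 1 / 100 * d := mul_le_mul_of_nonneg_right hζ (Nat.cast_nonneg d)
  linarith

/-- the gadget is almost inside the piece -/
theorem gad_piece {C g ρ ζ θ : ℝ} {G : SimpleGraph V} {d k : ℕ} {P : Pcs V M} {X : HD V}
    (hD : DecP C g ρ ζ θ G d P) (hH : HP k d G X) (hζ : ζ ≤ 1 / 100) (z : V) (hz : z ∈ X.S0)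
    (i : Bool) (x : V) (hxG : x ∈ X.Gd z i) (hx : x ∉ P.V0) :
    (99 / 100 : ℝ) * d ≤ ((X.Gd z i ∩ pV P (P.pc x)).card : ℝ) + 1 := by
  have h1 := bulk_deg hD hζ x hx
  have h2 : nb (bulk G P) x ⊆ insert z (X.Gd z i ∩ pV P (P.pc x)) := by
    intro y hy
    rw [mem_nb] at hy
    rcases hH.gd2 z hz i x hxG y hy.1 with h | h
    · refine mem_insert_of_mem (mem_inter.2 ⟨h, ?_⟩)
      simp only [pV, mem_filter, mem_univ, true_and]
      exact ⟨hy.2.2.1, hy.2.2.2.1.symm⟩
    · rw [h]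
      exact mem_insert_self _ _
  have h3 := (card_le_card h2).trans (card_insert_le _ _)
  have h4 : ((nb (bulk G P) x).card : ℝ) ≤ ((X.Gd z i ∩ pV P (P.pc x)).card : ℝ) + 1 := by
    exact_mod_cast h3
  linarith

/-- a piece of type N or B which meets a gadget is small -/
theorem small_piece {C g ρ ζ θ : ℝ} {G : SimpleGraph V} {d k : ℕ} {P : Pcs V M} {X : HD V}
    (hD : DecP C g ρ ζ θ G d P) (hH : HP k d G X) (hρ : 0 < ρ) (z : V) (hz : z ∈ X.S0)
    (i : Bool) (x : V) (hxG : x ∈ X.Gd z i) (hx : x ∉ P.V0)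
    (hty : P.ty (P.pc x) = Ty.N ∨ P.ty (P.pc x) = Ty.B) :
    (Fintype.card (Ts P (P.pc x)) : ℝ) ≤ d + 1 + 1 / ρ := by
  set S : Finset (Ts P (P.pc x)) := univ.filter (fun v => v.1 ∈ X.Gd z i) with hS
  have hcut := hD.cut (P.pc x) hty S
  have h1 : ∑ v ∈ S, ((nb (bk G P (P.pc x)) v \ S).card : ℝ) ≤ S.card := by
    have h2 : ∀ v ∈ S, ((nb (bk G P (P.pc x)) v \ S).card : ℝ) ≤ 1 := by
      intro v hv
      have hv' : v.1 ∈ X.Gd z i := (mem_filter.1 hv).2
      have h3 : (nb (bk G P (P.pc x)) v \ S).card ≤ 1 := by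
        rw [card_le_one]
        have h4 : ∀ w ∈ nb (bk G P (P.pc x)) v \ S, w.1 = z := by
          intro w hw
          obtain ⟨hw1, hw2⟩ := mem_sdiff.1 hw
          rw [mem_nb] at hw1
          have hw3 : (bulk G P).Adj v.1 w.1 := hw1
          rcases hH.gd2 z hz i v.1 hv' w.1 hw3.1 with h | h
          · exact absurd (by rw [hS]; exact mem_filter.2 ⟨mem_univ _, h⟩) hw2
          · exact h
        intro w hw w' hw'
        exact Subtype.ext ((h4 w hw).trans (h4 w' hw').symm)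
      exact_mod_cast h3
    calc ∑ v ∈ S, ((nb (bk G P (P.pc x)) v \ S).card : ℝ) ≤ ∑ v ∈ S, (1 : ℝ) := sum_le_sum h2
      _ = S.card := by simp
  have hSpos : (0 : ℝ) < S.card := by
    have : (⟨x, hx, rfl⟩ : Ts P (P.pc x)) ∈ S := mem_filter.2 ⟨mem_univ _, hxG⟩
    exact_mod_cast card_pos.2 ⟨_, this⟩
  have h5 : ρ * ((univ \ S).card : ℝ) ≤ 1 := by
    have h6 : (ρ * ((univ \ S).card : ℝ)) * S.card ≤ 1 * S.card := by
      have := hcut.trans h1
      linarith
    exact le_of_mul_le_mul_right h6 hSpos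
  have h7 : ((univ \ S).card : ℝ) ≤ 1 / ρ := by
    rw [le_div_iff₀ hρ, mul_comm]
    exact h5
  have h8 : S.card ≤ d + 1 := by
    refine le_trans ?_ (hH.gd1 z hz i)
    apply card_le_card_of_injOn (fun w => w.1)
    · intro w hw
      exact (mem_filter.1 hw).2
    · intro w _ w' _ h
      exact Subtype.ext h
  have h9 : (univ \ S).card + S.card = Fintype.card (Ts P (P.pc x)) := by
    rw [← card_univ]
    exact card_sdiff_add_card_eq_card (subset_univ _)
  have h10 : (S.card : ℝ) ≤ d + 1 := by exact_mod_cast h8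
  have h11 : (((univ \ S).card : ℕ) : ℝ) + S.card = Fintype.card (Ts P (P.pc x)) := by
    exact_mod_cast h9
  linarith

/-- the pieces which meet a gadget have type K -/
theorem gad_K {C g ρ ζ θ : ℝ} {G : SimpleGraph V} {d k : ℕ} {P : Pcs V M} {X : HD V}
    (hD : DecP C g ρ ζ θ G d P) (hH : HP k d G X) (hg : 0 < g) (hg1 : g ≤ 1 / 10) (hρ : 0 < ρ)
    (hζ : ζ ≤ 1 / 100) (hd : 4 * (1 + 1 / ρ) / g + 1000 ≤ (d : ℝ)) (z : V) (hz : z ∈ X.S0)
    (i : Bool) (x : V) (hxG : x ∈ X.Gd z i) (hx : x ∉ P.V0) : P.ty (P.pc x) = Ty.K := by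
  have hr : 0 < 1 + 1 / ρ := by positivity
  have hgd : 4 * (1 + 1 / ρ) ≤ g * d := by
    have h1 : 4 * (1 + 1 / ρ) / g ≤ d := by linarith
    rw [div_le_iff₀ hg] at h1
    linarith
  have hgd' : g * d ≤ 1 / 10 * d := mul_le_mul_of_nonneg_right hg1 (Nat.cast_nonneg d)
  cases hty : P.ty (P.pc x) with
  | E => exact ((hD.emp _ hty).false ⟨x, hx, rfl⟩).elim
  | K => rfl
  | N =>
    exfalso
    have h1 := small_piece hD hH hρ z hz i x hxG hx (Or.inl hty)
    have h2 := hD.nL _ hty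
    have h3 : (1 + g / 2) * (d : ℝ) = d + g * d / 2 := by ring
    rw [h3] at h2
    linarith
  | B =>
    exfalso
    have h1 := small_piece hD hH hρ z hz i x hxG hx (Or.inr hty)
    have h2 := bulk_deg hD hζ x hx
    have h3 : nb (bulk G P) x ⊆ sV P (P.pc x) (!(P.sd x)) := by
      intro y hy
      rw [mem_nb] at hy
      simp only [sV, mem_filter, mem_univ, true_and]
      refine ⟨hy.2.2.1, hy.2.2.2.1.symm, ?_⟩
      have h4 := hy.2.2.2.2 hty
      cases h5 : P.sd x <;> cases h6 : P.sd y <;> simp_all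
    have h4 := card_le_card h3
    have h5 : (sV P (P.pc x) (!(P.sd x))).card = (sV P (P.pc x) false).card := by
      cases P.sd x
      · exact (hD.bal _ hty).symm
      · rfl
    rw [h5] at h4
    have h6 := card_Ts_pV P (P.pc x)
    rw [card_pV_sV, ← hD.bal _ hty] at h6
    have h7 : ((nb (bulk G P) x).card : ℝ) ≤ ((sV P (P.pc x) false).card : ℝ) := by
      exact_mod_cast h4
    have h8 : (Fintype.card (Ts P (P.pc x)) : ℝ) = (sV P (P.pc x) false).card +
        (sV P (P.pc x) false).card := by exact_mod_cast h6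
    linarith

end

end SUPAux

open SUPAux in
theorem stmt_SUP : Stmt_SUP.{u} := by
  intro C g ρ k hC hg hg1 hρ hρ1
  obtain ⟨d0, hd0⟩ := exists_nat_ge (4 * (1 + 1 / ρ) / g + 1000)
  refine ⟨1 / 100, d0, by norm_num, ?_⟩
  intro V _ M G d P X ζ θ hd hζ hθ hD hH z hz
  have hdR : 4 * (1 + 1 / ρ) / g + 1000 ≤ (d : ℝ) := hd0.trans (by exact_mod_cast hd)
  have hpos : 0 < 4 * (1 + 1 / ρ) / g := by positivity
  refine ⟨?_, fun i x hxG hx => gad_K hD hH hg hg1 hρ hζ hdR z hz i x hxG hx⟩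
  by_contra hz0
  -- a member of each gadget in the piece of `z`
  have hex : ∀ i : Bool, ∃ x ∈ X.Gd z i, x ∉ P.V0 ∧ P.pc x = P.pc z := by
    intro i
    by_contra hno
    push Not at hno
    have h1 : nb G z ∩ X.Gd z i ⊆ nb (thin G P) z := by
      intro x hx
      obtain ⟨hx1, hx2⟩ := mem_inter.1 hx
      rw [mem_nb] at hx1 ⊢
      refine ⟨hx1, fun hb => ?_⟩
      exact hno x hx2 hb.2.2.1 hb.2.2.2.1.symm
    have h2 := card_le_card h1
    have h3 := hD.thd z hz0
    have h4 := hH.gd3 z hz i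
    have h5 : (d : ℝ) ≤ 8 * ((nb (thin G P) z).card : ℝ) + 16 := by
      have : d ≤ 8 * (nb (thin G P) z).card + 16 := by omega
      exact_mod_cast this
    have h6 : ζ * d ≤ 1 / 100 * d := mul_le_mul_of_nonneg_right hζ (Nat.cast_nonneg d)
    linarith
  obtain ⟨x, hx1, hx2, hx3⟩ := hex false
  obtain ⟨y, hy1, hy2, hy3⟩ := hex true
  have hK := gad_K hD hH hg hg1 hρ hζ hdR z hz false x hx1 hx2
  have h1 := gad_piece hD hH hζ z hz false x hx1 hx2
  have h2 := gad_piece hD hH hζ z hz true y hy1 hy2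
  rw [hx3] at h1 hK
  rw [hy3] at h2
  have h3 : (X.Gd z false ∩ pV P (P.pc z)).card + (X.Gd z true ∩ pV P (P.pc z)).card ≤
      (pV P (P.pc z)).card := by
    rw [← card_union_of_disjoint ((hH.gd0 z hz).mono inter_subset_left inter_subset_left)]
    exact card_le_card (union_subset inter_subset_right inter_subset_right)
  have h4 := hD.kU _ hK
  rw [card_Ts_pV] at h4
  have h5 : ((X.Gd z false ∩ pV P (P.pc z)).card : ℝ) +
      ((X.Gd z true ∩ pV P (P.pc z)).card : ℝ) ≤ ((pV P (P.pc z)).card : ℝ) := by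
    exact_mod_cast h3
  have h6 : g * d ≤ 1 / 10 * d := mul_le_mul_of_nonneg_right hg1 (Nat.cast_nonneg d)
  have h7 : (1 + g) * (d : ℝ) = d + g * d := by ring
  rw [h7] at h4
  linarith

end Pool.Agent.Work.MP_db9399_da.helper99
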