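import Pool.Agent.Work.MP_db9399_da.Parts

/-!
# MP_db9399, DENSE-ALL: DCUT (cuts of the double cover)
-/

set_option autoImplicit false

namespace Pool.Agent.Work.MP_db9399_da.helper99

open Finset Classical
open Pool.Agent.Work.MP_db9399_all (nb)

universe u

namespace DCUTAux

variable {V : Type u} [Fintype V]

/-- number of ordered pairs -/
noncomputable def e (G : SimpleGraph V) (A B : Finset V) : ℝ := ∑ v ∈ A, ((nb G v ∩ B).card : ℝ)

theorem mem_nb (G : SimpleGraph V) (v w : V) : w ∈ nb G v ↔ G.Adj v w := by
  unfold nb; simp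

theorem card_eq (G : SimpleGraph V) (v : V) (B : Finset V) :
    ((nb G v ∩ B).card : ℝ) = ∑ w ∈ B, (if G.Adj v w then (1 : ℝ) else 0) := by
  rw [Finset.inter_comm, Finset.sum_boole]
  congr 2
  ext w
  rw [Finset.mem_inter, Finset.mem_filter, mem_nb]

theorem e_eq (G : SimpleGraph V) (A B : Finset V) :
    e G A B = ∑ v ∈ A, ∑ w ∈ B, (if G.Adj v w then (1 : ℝ) else 0) := by
  unfold e
  exact Finset.sum_congr rfl (fun v _ => card_eq G v B)

theorem e_comm (G : SimpleGraph V) (A B : Finset V) : e G A B = e G B A := by
  rw [e_eq, e_eq, Finset.sum_comm]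
  exact Finset.sum_congr rfl (fun w _ => Finset.sum_congr rfl (fun v _ => by rw [G.adj_comm]))

theorem e_nonneg (G : SimpleGraph V) (A B : Finset V) : 0 ≤ e G A B :=
  Finset.sum_nonneg (fun _ _ => Nat.cast_nonneg _)

theorem e_mono (G : SimpleGraph V) {A A' B B' : Finset V} (hA : A ⊆ A') (hB : B ⊆ B') :
    e G A B ≤ e G A' B' := by
  unfold e
  calc ∑ v ∈ A, ((nb G v ∩ B).card : ℝ) ≤ ∑ v ∈ A, ((nb G v ∩ B').card : ℝ) :=
        Finset.sum_le_sum (fun v _ => by
          exact_mod_cast Finset.card_le_card (Finset.inter_subset_inter_left hB))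
    _ ≤ ∑ v ∈ A', ((nb G v ∩ B').card : ℝ) :=
        Finset.sum_le_sum_of_subset_of_nonneg hA (fun _ _ _ => Nat.cast_nonneg _)

theorem e_union_le (G : SimpleGraph V) (A B C : Finset V) :
    e G A (B ∪ C) ≤ e G A B + e G A C := by
  unfold e
  rw [← Finset.sum_add_distrib]
  refine Finset.sum_le_sum (fun v _ => ?_)
  rw [Finset.inter_union_distrib_left]
  exact_mod_cast Finset.card_union_le _ _

theorem e_union_le' (G : SimpleGraph V) (A B C : Finset V) :
    e G (B ∪ C) A ≤ e G B A + e G C A := by
  rw [e_comm G (B ∪ C), e_comm G B, e_comm G C]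
  exact e_union_le G A B C

theorem e_le (G : SimpleGraph V) (d : ℕ) (hd : ∀ v, (nb G v).card ≤ d) (A B : Finset V) :
    e G A B ≤ d * A.card := by
  unfold e
  calc ∑ v ∈ A, ((nb G v ∩ B).card : ℝ) ≤ ∑ _v ∈ A, (d : ℝ) :=
        Finset.sum_le_sum (fun v _ => by
          exact_mod_cast (Finset.card_le_card Finset.inter_subset_left).trans (hd v))
    _ = d * A.card := by rw [Finset.sum_const, nsmul_eq_mul, mul_comm]

theorem sd_eq (G : SimpleGraph V) (A B : Finset V) :
    ∑ v ∈ A, ((nb G v \ B).card : ℝ) = e G A (univ \ B) := by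
  unfold e
  refine Finset.sum_congr rfl (fun v _ => ?_)
  congr 2
  ext w
  simp

/-- Every vertex of `A` has many neighbours in `B`. -/
theorem e_ge (G : SimpleGraph V) (A B : Finset V) (x : ℝ)
    (h : ∀ v ∈ A, x ≤ ((nb G v ∩ B).card : ℝ)) : x * A.card ≤ e G A B := by
  unfold e
  calc x * A.card = ∑ _v ∈ A, x := by rw [Finset.sum_const, nsmul_eq_mul, mul_comm]
    _ ≤ _ := Finset.sum_le_sum h

/-- A vertex has many neighbours in the complement of a small set. -/
theorem nb_compl (G : SimpleGraph V) (v : V) (S : Finset V) (a b : ℝ)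
    (h1 : a ≤ ((nb G v).card : ℝ)) (h2 : (S.card : ℝ) ≤ b) :
    a - b ≤ ((nb G v ∩ (univ \ S)).card : ℝ) := by
  have h3 : (nb G v).card ≤ (nb G v ∩ (univ \ S)).card + S.card := by
    calc (nb G v).card ≤ ((nb G v ∩ (univ \ S)) ∪ S).card := by
          refine Finset.card_le_card (fun w hw => ?_)
          by_cases hS : w ∈ S
          · exact Finset.mem_union_right _ hS
          · refine Finset.mem_union_left _ ?_
            simp [hw, hS]
      _ ≤ _ := Finset.card_union_le _ _
  have h4 : ((nb G v).card : ℝ) ≤ (nb G v ∩ (univ \ S)).card + S.card := by exact_mod_cast h3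
  linarith

end DCUTAux

open DCUTAux

theorem stmt_DCUT : Stmt_DCUT.{u} := by
  intro C ρ hC hρ
  obtain ⟨m, hm⟩ : ∃ m : ℝ, m = min ρ 1 := ⟨_, rfl⟩
  have hm0 : 0 < m := by rw [hm]; exact lt_min hρ one_pos
  have hm1 : m ≤ ρ := by rw [hm]; exact min_le_left _ _
  have hm2 : m ≤ 1 := by rw [hm]; exact min_le_right _ _
  obtain ⟨κ, hκ⟩ : ∃ κ : ℝ, κ = m ^ 2 / 64 := ⟨_, rfl⟩
  have hκ0 : 0 < κ := by rw [hκ]; positivity
  obtain ⟨c, hc⟩ : ∃ c : ℝ, c = m / 16 := ⟨_, rfl⟩
  have hc0 : 0 < c := by rw [hc]; positivity
  have hC0 : 0 < C := by linarith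
  refine ⟨min (κ / C ^ 2) (1 / (4 * C)), 1 / 4, by positivity, by norm_num, ?_⟩
  intro V _ G d hd hV hdeg hcut hbip S T
  obtain ⟨r, hr⟩ : ∃ r : ℝ, r = min (κ / C ^ 2) (1 / (4 * C)) := ⟨_, rfl⟩
  rw [← hr]
  have hr0 : 0 < r := by rw [hr]; positivity
  have hr1 : r ≤ κ / C ^ 2 := by rw [hr]; exact min_le_left _ _
  have hr2 : r ≤ 1 / (4 * C) := by rw [hr]; exact min_le_right _ _
  rw [sd_eq, sd_eq]
  have hd0 : (1 : ℝ) ≤ d := by exact_mod_cast hd
  obtain ⟨n, hn⟩ : ∃ n : ℝ, n = Fintype.card V := ⟨_, rfl⟩
  have hS : (S.card : ℝ) ≤ n := by rw [hn]; exact_mod_cast Finset.card_le_univ S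
  have hT : (T.card : ℝ) ≤ n := by rw [hn]; exact_mod_cast Finset.card_le_univ T
  have hS0 : (0 : ℝ) ≤ S.card := Nat.cast_nonneg _
  have hT0 : (0 : ℝ) ≤ T.card := Nat.cast_nonneg _
  rw [← hn] at hV ⊢
  have hcard : ∀ A : Finset V, ((univ \ A).card : ℝ) = n - A.card := by
    intro A
    have h1 := Finset.card_sdiff_add_card_eq_card (Finset.subset_univ A)
    rw [Finset.card_univ] at h1
    have h2 : ((univ \ A).card : ℝ) + A.card = n := by rw [hn]; exact_mod_cast h1
    linarith
  obtain ⟨L, hL⟩ : ∃ L : ℝ, L = e G S (univ \ T) + e G T (univ \ S) := ⟨_, rfl⟩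
  rw [← hL]
  by_cases hbig : κ * d ^ 2 ≤ L
  · refine le_trans ?_ hbig
    have h1 : ((S.card : ℝ) + T.card) * (2 * n - S.card - T.card) ≤ (C * d) ^ 2 := by
      have h2 : ((S.card : ℝ) + T.card) * (2 * n - S.card - T.card) ≤ n ^ 2 := by
        nlinarith [sq_nonneg ((S.card : ℝ) + T.card - n)]
      have h3 : n ^ 2 ≤ (C * d) ^ 2 := by
        have : 0 ≤ n := by linarith
        exact pow_le_pow_left₀ this hV 2
      linarith
    calc r * ((S.card : ℝ) + T.card) * (2 * n - S.card - T.card)
        = r * (((S.card : ℝ) + T.card) * (2 * n - S.card - T.card)) := by ring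
      _ ≤ r * (C * d) ^ 2 := mul_le_mul_of_nonneg_left h1 hr0.le
      _ ≤ κ / C ^ 2 * (C * d) ^ 2 := mul_le_mul_of_nonneg_right hr1 (by positivity)
      _ = κ * d ^ 2 := by field_simp
  · rw [not_le] at hbig
    by_cases hne : Nonempty V
    · obtain ⟨v0⟩ := hne
      have hnd : 3 / 4 * (d : ℝ) ≤ n := by
        have h1 := (hdeg v0).2
        have h2 : ((nb G v0).card : ℝ) ≤ n := by
          rw [hn]; exact_mod_cast Finset.card_le_univ _
        linarith
      -- small or large
      have key : ∀ A : Finset V, e G A (univ \ A) ≤ L →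
          (A.card : ℝ) ≤ c * d ∨ ((univ \ A).card : ℝ) ≤ c * d := by
        intro A hA
        have h1 := hcut A
        rw [sd_eq] at h1
        by_contra hcon
        push Not at hcon
        obtain ⟨h2, h3⟩ := hcon
        have h4 := hcard A
        -- one of them is at least `n/2 ≥ 3 d / 8`
        have h5 : ρ * A.card * (univ \ A).card ≤ κ * d ^ 2 := by linarith
        have h6 : κ * (d : ℝ) ^ 2 < ρ * A.card * (univ \ A).card := by
          have hmr : m * (A.card * (univ \ A).card : ℝ) ≤ ρ * A.card * (univ \ A).card := by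
            have := mul_le_mul_of_nonneg_right hm1
              (by positivity : (0 : ℝ) ≤ A.card * (univ \ A).card)
            linarith
          refine lt_of_lt_of_le ?_ hmr
          have h7 : c * d * (3 / 8 * d) < (A.card : ℝ) * (univ \ A).card := by
            have hcd : 0 < c * d := by positivity
            by_cases h8 : (3 / 8 : ℝ) * d ≤ A.card
            · have h9 : c * d * (3 / 8 * d) < (univ \ A).card * (3 / 8 * d) :=
                mul_lt_mul_of_pos_right h3 (by positivity)
              have h10 : ((univ \ A).card : ℝ) * (3 / 8 * d) ≤ (univ \ A).card * A.card :=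
                mul_le_mul_of_nonneg_left h8 (Nat.cast_nonneg _)
              linarith [mul_comm ((univ \ A).card : ℝ) (A.card : ℝ)]
            · rw [not_le] at h8
              have h8' : (3 / 8 : ℝ) * d ≤ (univ \ A).card := by linarith
              have h9 : c * d * (3 / 8 * d) < A.card * (3 / 8 * d) :=
                mul_lt_mul_of_pos_right h2 (by positivity)
              have h10 : (A.card : ℝ) * (3 / 8 * d) ≤ A.card * (univ \ A).card :=
                mul_le_mul_of_nonneg_left h8' (Nat.cast_nonneg _)
              linarith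
          have h8 : m * (c * d * (3 / 8 * d)) < m * ((A.card : ℝ) * (univ \ A).card) :=
            mul_lt_mul_of_pos_left h7 hm0
          have h9 : κ * (d : ℝ) ^ 2 ≤ m * (c * d * (3 / 8 * d)) := by
            rw [hκ, hc]
            have : 0 ≤ m ^ 2 * (d : ℝ) ^ 2 := by positivity
            nlinarith
          linarith
        linarith
      have hP1 : e G (S ∩ T) (univ \ (S ∩ T)) ≤ L := by
        have h1 : univ \ (S ∩ T) ⊆ (univ \ T) ∪ (T \ S) := by
          intro v hv
          simp only [Finset.mem_sdiff, Finset.mem_inter, Finset.mem_union, Finset.mem_univ,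
            true_and] at hv ⊢
          tauto
        have h2 := e_mono G (Finset.Subset.refl (S ∩ T)) h1
        have h3 := e_union_le G (S ∩ T) (univ \ T) (T \ S)
        have h4 := e_mono G (Finset.inter_subset_left : S ∩ T ⊆ S)
          (Finset.Subset.refl (univ \ T))
        have h5 := e_mono G (Finset.inter_subset_right : S ∩ T ⊆ T)
          (Finset.sdiff_subset_sdiff (Finset.subset_univ T) (Finset.Subset.refl S))
        linarith
      have hP4 : e G (univ \ (S ∪ T)) (univ \ (univ \ (S ∪ T))) ≤ L := by
        have h1 : univ \ (univ \ (S ∪ T)) ⊆ S ∪ (T \ S) := by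
          intro v hv
          simp only [Finset.mem_sdiff, Finset.mem_union, Finset.mem_univ,
            true_and, not_not] at hv ⊢
          tauto
        have h2 := e_mono G (Finset.Subset.refl (univ \ (S ∪ T))) h1
        have h3 := e_union_le G (univ \ (S ∪ T)) S (T \ S)
        rw [e_comm G (univ \ (S ∪ T)) S, e_comm G (univ \ (S ∪ T)) (T \ S)] at h3
        have h4 := e_mono G (Finset.Subset.refl S)
          (Finset.sdiff_subset_sdiff (Finset.Subset.refl univ)
            (Finset.subset_union_right : T ⊆ S ∪ T))
        have h5 := e_mono G (Finset.sdiff_subset : T \ S ⊆ T)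
          (Finset.sdiff_subset_sdiff (Finset.Subset.refl univ)
            (Finset.subset_union_left : S ⊆ S ∪ T))
        linarith
      have hc1 : c ≤ 1 / 16 := by rw [hc]; linarith
      have hcd : c * d ≤ 1 / 16 * d := mul_le_mul_of_nonneg_right hc1 (by linarith)
      -- the final estimate in the two extreme cases
      have hfin : ∀ x : ℝ, 0 ≤ x → ∀ y : ℝ, 0 ≤ y → y ≤ 2 * n → r * x * y ≤ d / 2 * x := by
        intro x hx y hy hyn
        have h1 : r * y ≤ d / 2 := by
          calc r * y ≤ 1 / (4 * C) * (2 * (C * d)) :=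
                mul_le_mul hr2 (by linarith) hy (by positivity)
            _ = d / 2 := by field_simp; ring
        have := mul_le_mul_of_nonneg_right h1 hx
        linarith
      rcases key _ hP1 with h1 | h1
      · rcases key _ hP4 with h2 | h2
        · -- contradiction
          exfalso
          have h3 := hbip (S \ T)
          have h4 : ∑ v ∈ S \ T, ((nb G v ∩ (S \ T)).card : ℝ) = e G (S \ T) (S \ T) := rfl
          rw [h4, sd_eq] at h3
          have h5 : univ \ (S \ T) ⊆ (T \ S) ∪ ((S ∩ T) ∪ (univ \ (S ∪ T))) := by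
            intro v hv
            simp only [Finset.mem_sdiff, Finset.mem_inter, Finset.mem_union, Finset.mem_univ,
              true_and] at hv ⊢
            tauto
          obtain ⟨R, hR⟩ : ∃ R, R = (S ∩ T) ∪ (univ \ (S ∪ T)) := ⟨_, rfl⟩
          rw [← hR] at h5
          have h6 := e_mono G h5 h5
          have h7 := e_union_le G ((T \ S) ∪ R) (T \ S) R
          have h8 := e_union_le' G (T \ S) (T \ S) R
          have h9 := e_le G d (fun v => (hdeg v).1) R (T \ S)
          have h10 := e_le G d (fun v => (hdeg v).1) R ((T \ S) ∪ R)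
          rw [e_comm G R ((T \ S) ∪ R)] at h10
          have h11 : (R.card : ℝ) ≤ c * d + c * d := by
            have : R.card ≤ (S ∩ T).card + (univ \ (S ∪ T)).card := by
              rw [hR]; exact Finset.card_union_le _ _
            have h12 : (R.card : ℝ) ≤ (S ∩ T).card + (univ \ (S ∪ T)).card := by
              exact_mod_cast this
            linarith
          have h13 := e_mono G (Finset.sdiff_subset : S \ T ⊆ S)
            (Finset.sdiff_subset_sdiff (Finset.subset_univ S) (Finset.Subset.refl T))
          have h14 := e_mono G (Finset.sdiff_subset : T \ S ⊆ T)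
            (Finset.sdiff_subset_sdiff (Finset.subset_univ T) (Finset.Subset.refl S))
          have h15 : (d : ℝ) * R.card ≤ d * (c * d + c * d) :=
            mul_le_mul_of_nonneg_left h11 (by linarith)
          have h16 : ρ * (d : ℝ) ^ 2 < κ * d ^ 2 + 2 * (d * (c * d + c * d)) := by
            linarith
          have h17 : κ * (d : ℝ) ^ 2 + 2 * (d * (c * d + c * d)) ≤ ρ * (d : ℝ) ^ 2 := by
            have h18 : κ + 4 * c ≤ ρ := by
              rw [hκ, hc]
              nlinarith
            have := mul_le_mul_of_nonneg_right h18 (by positivity : (0 : ℝ) ≤ (d : ℝ) ^ 2)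
            linarith
          linarith
        · -- `S` and `T` are small
          have h3 : S ⊆ univ \ (univ \ (S ∪ T)) := by
            intro v hv
            simp only [Finset.mem_sdiff, Finset.mem_union, Finset.mem_univ,
              true_and, not_not]
            exact Or.inl hv
          have h4 : T ⊆ univ \ (univ \ (S ∪ T)) := by
            intro v hv
            simp only [Finset.mem_sdiff, Finset.mem_union, Finset.mem_univ,
              true_and, not_not]
            exact Or.inr hv
          have h5 : (S.card : ℝ) ≤ c * d := by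
            have : (S.card : ℝ) ≤ ((univ \ (univ \ (S ∪ T))).card : ℝ) := by
              exact_mod_cast Finset.card_le_card h3
            linarith
          have h6 : (T.card : ℝ) ≤ c * d := by
            have : (T.card : ℝ) ≤ ((univ \ (univ \ (S ∪ T))).card : ℝ) := by
              exact_mod_cast Finset.card_le_card h4
            linarith
          have h7 := e_ge G S (univ \ T) (d / 2) (fun v _ => by
            have := nb_compl G v T _ _ (hdeg v).2 h6
            linarith)
          have h8 := e_ge G T (univ \ S) (d / 2) (fun v _ => by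
            have := nb_compl G v S _ _ (hdeg v).2 h5
            linarith)
          have h9 := hfin ((S.card : ℝ) + T.card) (by positivity)
            (2 * n - S.card - T.card) (by linarith) (by linarith)
          linarith
      · -- `S` and `T` are almost everything
        have h5 : ((univ \ S).card : ℝ) ≤ c * d := by
          have : ((univ \ S).card : ℝ) ≤ ((univ \ (S ∩ T)).card : ℝ) := by
            exact_mod_cast Finset.card_le_card (Finset.sdiff_subset_sdiff
              (Finset.Subset.refl univ) Finset.inter_subset_left)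
          linarith
        have h6 : ((univ \ T).card : ℝ) ≤ c * d := by
          have : ((univ \ T).card : ℝ) ≤ ((univ \ (S ∩ T)).card : ℝ) := by
            exact_mod_cast Finset.card_le_card (Finset.sdiff_subset_sdiff
              (Finset.Subset.refl univ) Finset.inter_subset_right)
          linarith
        have hcc : ∀ A : Finset V, univ \ (univ \ A) = A := by
          intro A
          ext v
          simp
        have h7 := e_ge G (univ \ T) S (d / 2) (fun v _ => by
          have := nb_compl G v (univ \ S) _ _ (hdeg v).2 h5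
          rw [hcc] at this
          linarith)
        have h8 := e_ge G (univ \ S) T (d / 2) (fun v _ => by
          have := nb_compl G v (univ \ T) _ _ (hdeg v).2 h6
          rw [hcc] at this
          linarith)
        rw [e_comm G (univ \ T) S, hcard T] at h7
        rw [e_comm G (univ \ S) T, hcard S] at h8
        have h9 := hfin (2 * n - S.card - T.card) (by linarith) ((S.card : ℝ) + T.card)
          (by positivity) (by linarith)
        linarith
    · rw [not_nonempty_iff] at hne
      have h1 : S = ∅ := Finset.eq_empty_of_isEmpty S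
      have h2 : T = ∅ := Finset.eq_empty_of_isEmpty T
      rw [hL, h1, h2]
      simp [e]

end Pool.Agent.Work.MP_db9399_da.helper99
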