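import Pool.Agent.Work.MP_db9399_da.Frame2
import Pool.Agent.Work.MP_db9399_da_helper62.Base

/-!
# MP_db9399, DENSE-ALL, phase 2, EMB2 part A: binning, merged graph (helper99)
-/

set_option autoImplicit false

namespace Pool.Agent.Work.MP_db9399_da.helper99

open Finset Classical
open Pool.Agent.Work.MP_db9399_all (nb)
open Pool.Agent.Work.MP_db9399_da.helper62 (mem_nb)

universe u

namespace EMBAux

section
variable {V : Type u} [Fintype V]

/-- greedy binning -/
theorem binning (S : Finset V) (a : V → ℕ) (d m N : ℕ) (hm : 0 < m)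
    (ha : ∀ u ∈ S, 4 * a u ≤ d) (hN : ∑ u ∈ S, a u ≤ N) (hNm : 4 * N ≤ m * d) :
    ∃ b : V → Fin m, ∀ j, 2 * ∑ u ∈ S.filter (fun u => b u = j), a u ≤ d := by
  revert ha hN
  refine Finset.induction_on S ?_ ?_
  · intro _ _
    exact ⟨fun _ => ⟨0, hm⟩, fun j => by simp⟩
  · intro v S hv ih ha hN
    rw [sum_insert hv] at hN
    obtain ⟨b, hb⟩ := ih (fun u hu => ha u (mem_insert_of_mem hu)) (by omega)
    -- a bin with small load
    have hex : ∃ j : Fin m, 4 * ∑ u ∈ S.filter (fun u => b u = j), a u ≤ d := by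
      by_contra hno
      push Not at hno
      have h1 : ∑ j : Fin m, ∑ u ∈ S.filter (fun u => b u = j), a u = ∑ u ∈ S, a u :=
        sum_fiberwise S b a
      have h2 : ∑ j : Fin m, (d + 1) ≤ ∑ j : Fin m, 4 * ∑ u ∈ S.filter (fun u => b u = j), a u :=
        sum_le_sum fun j _ => hno j
      rw [← mul_sum, h1, sum_const, card_univ, Fintype.card_fin, smul_eq_mul] at h2
      have h3 : m * (d + 1) = m * d + m := by ring
      omega
    obtain ⟨j₀, hj₀⟩ := hex
    refine ⟨Function.update b v j₀, fun j => ?_⟩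
    have h4 : ∀ u ∈ S, Function.update b v j₀ u = b u := by
      intro u hu
      rw [Function.update_of_ne]
      rintro rfl
      exact hv hu
    have h5 : S.filter (fun u => Function.update b v j₀ u = j) = S.filter (fun u => b u = j) :=
      filter_congr fun u hu => by rw [h4 u hu]
    rw [filter_insert, Function.update_self, h5]
    split_ifs with h
    · rw [sum_insert (fun h' => hv (mem_filter.1 h').1), ← h]
      have := ha v (mem_insert_self v S)
      omega
    · exact hb j

/-- the combinatorial data of a distance-3 matching: `U` ends, `pr` partner, `fs` first or second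
end -/
structure Mt (G : SimpleGraph V) (U : Finset V) (pr : V → V) (fs : V → Bool) : Prop where
  prU : ∀ u ∈ U, pr u ∈ U
  pra : ∀ u ∈ U, G.Adj u (pr u)
  prp : ∀ u ∈ U, pr (pr u) = u
  d1 : ∀ u ∈ U, ∀ v ∈ U, G.Adj u v → v = pr u
  d2 : ∀ u ∈ U, ∀ v ∈ U, ∀ w, G.Adj w u → G.Adj w v → u = v ∨ v = pr u
  fsn : ∀ u ∈ U, fs (pr u) ≠ fs u

/-- neighbours outside `U` -/
noncomputable def nU (G : SimpleGraph V) (U : Finset V) (u : V) : Finset V :=
  (nb G u).filter (fun w => w ∉ U)

theorem mem_nU (G : SimpleGraph V) (U : Finset V) (u w : V) :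
    w ∈ nU G U u ↔ G.Adj u w ∧ w ∉ U := by
  rw [nU, mem_filter, mem_nb]

theorem card_nU {G : SimpleGraph V} {U : Finset V} {pr : V → V} {fs : V → Bool}
    (h : Mt G U pr fs) (u : V) (hu : u ∈ U) : (nU G U u).card + 1 = (nb G u).card := by
  have h1 : nb G u = insert (pr u) (nU G U u) := by
    ext w
    rw [mem_insert, mem_nU, mem_nb]
    constructor
    · intro hw
      by_cases hwU : w ∈ U
      · exact Or.inl (h.d1 u hu w hwU hw)
      · exact Or.inr ⟨hw, hwU⟩
    · rintro (rfl | hw)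
      · exact h.pra u hu
      · exact hw.1
  rw [h1, card_insert_of_notMem]
  rw [mem_nU]
  exact fun h' => h'.2 (h.prU u hu)

/-- the neighbourhoods of ends of the same kind are disjoint -/
theorem sum_nU {G : SimpleGraph V} {U : Finset V} {pr : V → V} {fs : V → Bool}
    (h : Mt G U pr fs) (S : Finset V) (hS : S ⊆ U) (β : Bool) (hβ : ∀ u ∈ S, fs u = β) :
    ∑ u ∈ S, (nU G U u).card ≤ Fintype.card V := by
  have hd : ∀ u ∈ S, ∀ v ∈ S, u ≠ v → Disjoint (nU G U u) (nU G U v) := by
    intro u hu v hv huv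
    rw [disjoint_left]
    intro w hw hw'
    rw [mem_nU] at hw hw'
    rcases h.d2 u (hS hu) v (hS hv) w hw.1.symm hw'.1.symm with h1 | h1
    · exact huv h1
    · apply h.fsn u (hS hu)
      rw [← h1, hβ u hu, hβ v hv]
  rw [← card_biUnion hd]
  exact card_le_univ _

/-- number of high ends -/
theorem card_VH {G : SimpleGraph V} {U : Finset V} {pr : V → V} {fs : V → Bool}
    (h : Mt G U pr fs) (d : ℕ) (hd : 6 ≤ d) (S : Finset V) (hS : S ⊆ U)
    (hdeg : ∀ u ∈ S, d < 4 * (nb G u).card) : S.card * d ≤ 16 * Fintype.card V := by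
  have hk : ∀ β : Bool, (S.filter (fun u => fs u = β)).card * (d - 3) ≤ 4 * Fintype.card V := by
    intro β
    have h1 := sum_nU h (S.filter (fun u => fs u = β)) ((filter_subset _ _).trans hS) β
      (fun u hu => (mem_filter.1 hu).2)
    have h2 : ∑ u ∈ S.filter (fun u => fs u = β), (d - 3) ≤
        ∑ u ∈ S.filter (fun u => fs u = β), 4 * (nU G U u).card := by
      refine sum_le_sum fun u hu => ?_
      have huS := (mem_filter.1 hu).1
      have h3 := card_nU h u (hS huS)
      have h4 := hdeg u huS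
      omega
    rw [sum_const, smul_eq_mul, ← mul_sum] at h2
    omega
  have h1 : S.card = (S.filter (fun u => fs u = false)).card +
      (S.filter (fun u => fs u = true)).card := by
    rw [← card_union_of_disjoint]
    · congr 1
      ext u
      simp only [mem_union, mem_filter]
      cases fs u <;> simp
    · rw [disjoint_left]
      intro u hu hu'
      have := (mem_filter.1 hu).2
      rw [(mem_filter.1 hu').2] at this
      exact Bool.noConfusion this
  have h2 := hk false
  have h3 := hk true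
  have h4 : d ≤ 2 * (d - 3) := by omega
  rw [h1]
  calc ((S.filter (fun u => fs u = false)).card + (S.filter (fun u => fs u = true)).card) * d
      ≤ ((S.filter (fun u => fs u = false)).card + (S.filter (fun u => fs u = true)).card) *
        (2 * (d - 3)) := Nat.mul_le_mul_left _ h4
    _ = 2 * ((S.filter (fun u => fs u = false)).card * (d - 3) +
        (S.filter (fun u => fs u = true)).card * (d - 3)) := by ring
    _ ≤ 16 * Fintype.card V := by omega

/-- the representatives -/
noncomputable def rep {m : ℕ} (LL : Finset V) (bn : V → Bool × Fin m) (v : V) :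
    V ⊕ (Bool × Fin m) := if v ∈ LL then Sum.inr (bn v) else Sum.inl v

theorem rep_in {m : ℕ} {LL : Finset V} {bn : V → Bool × Fin m} {v : V} (h : v ∈ LL) :
    rep LL bn v = Sum.inr (bn v) := by rw [rep, if_pos h]

theorem rep_out {m : ℕ} {LL : Finset V} {bn : V → Bool × Fin m} {v : V} (h : v ∉ LL) :
    rep LL bn v = Sum.inl v := by rw [rep, if_neg h]

theorem rep_eq_inl {m : ℕ} {LL : Finset V} {bn : V → Bool × Fin m} {v w : V}
    (h : rep LL bn v = Sum.inl w) : v = w ∧ v ∉ LL := by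
  by_cases hv : v ∈ LL
  · rw [rep_in hv] at h
    exact absurd h Sum.inr_ne_inl
  · rw [rep_out hv] at h
    exact ⟨Sum.inl_injective h, hv⟩

theorem rep_eq_inr {m : ℕ} {LL : Finset V} {bn : V → Bool × Fin m} {v : V} {b : Bool × Fin m}
    (h : rep LL bn v = Sum.inr b) : bn v = b ∧ v ∈ LL := by
  by_cases hv : v ∈ LL
  · rw [rep_in hv] at h
    exact ⟨Sum.inr_injective h, hv⟩
  · rw [rep_out hv] at h
    exact absurd h Sum.inl_ne_inr

/-- the merged graph -/
def G0 {m : ℕ} (G : SimpleGraph V) (LL : Finset V) (bn : V → Bool × Fin m) :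
    SimpleGraph (V ⊕ (Bool × Fin m)) where
  Adj x y := ∃ v w, G.Adj v w ∧ ¬ (v ∈ LL ∧ w ∈ LL) ∧ rep LL bn v = x ∧ rep LL bn w = y
  symm := ⟨fun _ _ ⟨v, w, h1, h2, h3, h4⟩ => ⟨w, v, h1.symm, fun h => h2 ⟨h.2, h.1⟩, h4, h3⟩⟩
  loopless := ⟨by
    rintro x ⟨v, w, h1, h2, h3, h4⟩
    have h5 : rep LL bn v = rep LL bn w := h3.trans h4.symm
    by_cases hv : v ∈ LL
    · have hw : w ∉ LL := fun hw => h2 ⟨hv, hw⟩
      rw [rep_in hv, rep_out hw] at h5
      exact Sum.inr_ne_inl h5
    · rw [rep_out hv] at h5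
      exact h1.ne (rep_eq_inl h5.symm).1.symm⟩

theorem G0_adj {m : ℕ} {G : SimpleGraph V} {LL : Finset V} {bn : V → Bool × Fin m} {v w : V}
    (h : G.Adj v w) (h' : ¬ (v ∈ LL ∧ w ∈ LL)) :
    (G0 G LL bn).Adj (rep LL bn v) (rep LL bn w) := ⟨v, w, h, h', rfl, rfl⟩

/-- local injectivity of the representatives -/
theorem rep_inj {m : ℕ} {G : SimpleGraph V} {U : Finset V} {pr : V → V} {fs : V → Bool}
    (h : Mt G U pr fs) {LL : Finset V} (hL : LL ⊆ U) {bn : V → Bool × Fin m}
    (hb : ∀ v ∈ LL, (bn v).1 = fs v) {u v w : V} (h1 : G.Adj u v) (h2 : G.Adj u w)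
    (he : rep LL bn v = rep LL bn w) : v = w := by
  by_cases hv : v ∈ LL
  · rw [rep_in hv] at he
    obtain ⟨h3, hw⟩ := rep_eq_inr he.symm
    rcases h.d2 v (hL hv) w (hL hw) u h1 h2 with h4 | h4
    · exact h4
    · exfalso
      apply h.fsn v (hL hv)
      rw [← h4, ← hb w hw, h3, hb v hv]
  · rw [rep_out hv] at he
    exact (rep_eq_inl he.symm).1.symm

/-- degrees of real vertices -/
theorem deg_inl {m : ℕ} (G : SimpleGraph V) (LL : Finset V) (bn : V → Bool × Fin m) (v : V) :
    (nb (G0 G LL bn) (Sum.inl v)).card ≤ (nb G v).card := by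
  have h1 : nb (G0 G LL bn) (Sum.inl v) ⊆ (nb G v).image (rep LL bn) := by
    intro x hx
    rw [mem_nb] at hx
    obtain ⟨v', w, h1, h2, h3, h4⟩ := hx
    obtain ⟨rfl, _⟩ := rep_eq_inl h3
    exact mem_image.2 ⟨w, (mem_nb G _ w).2 h1, h4⟩
  exact (card_le_card h1).trans card_image_le

/-- degrees of super vertices -/
theorem deg_inr {m : ℕ} {G : SimpleGraph V} {U : Finset V} {pr : V → V} {fs : V → Bool}
    (h : Mt G U pr fs) {LL : Finset V} (hL : LL ⊆ U) (hLp : ∀ u ∈ LL, pr u ∈ LL)
    {bn : V → Bool × Fin m} {d : ℕ} (b : Bool × Fin m)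
    (hb : 2 * ∑ u ∈ LL.filter (fun u => bn u = b), (nU G U u).card ≤ d) :
    2 * (nb (G0 G LL bn) (Sum.inr b)).card ≤ d := by
  have h1 : nb (G0 G LL bn) (Sum.inr b) ⊆
      (LL.filter (fun u => bn u = b)).biUnion (fun u => (nU G U u).image Sum.inl) := by
    intro x hx
    rw [mem_nb] at hx
    obtain ⟨v, w, h1, h2, h3, h4⟩ := hx
    obtain ⟨h5, hv⟩ := rep_eq_inr h3
    have hw : w ∉ LL := fun hw => h2 ⟨hv, hw⟩
    rw [rep_out hw] at h4
    refine mem_biUnion.2 ⟨v, mem_filter.2 ⟨hv, h5⟩, mem_image.2 ⟨w, ?_, h4⟩⟩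
    rw [mem_nU]
    refine ⟨h1, fun hwU => hw ?_⟩
    rw [h.d1 v (hL hv) w hwU h1]
    exact hLp v hv
  have h2 := (card_le_card h1).trans card_biUnion_le
  have h3 : ∑ u ∈ LL.filter (fun u => bn u = b), ((nU G U u).image (Sum.inl : V → V ⊕ (Bool × Fin m))).card ≤
      ∑ u ∈ LL.filter (fun u => bn u = b), (nU G U u).card := sum_le_sum fun u _ => card_image_le
  omega

end

end EMBAux

end Pool.Agent.Work.MP_db9399_da.helper99
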