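import Pool.Agent.Work.MP_db9399_da_helper99.EMBA

/-!
# MP_db9399, DENSE-ALL, phase 2, EMB2 part B: the regular graph with gadgets (helper99)
-/

set_option autoImplicit false

namespace Pool.Agent.Work.MP_db9399_da.helper99

open Finset Classical
open Pool.Agent.Work.MP_db9399_all (nb)
open Pool.Agent.Work.MP_db9399_da.helper62 (mem_nb)

universe u

/-- GAD: gadgets (helper46). -/
def Stmt_GAD : Prop :=
  ∀ {W J : Type u} [Fintype W] [Fintype J] (G : SimpleGraph W) (d : ℕ) (own : J → W) (q : J → ℕ),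
    (∀ j, 2 * q j ≤ d) →
    ∃ G1 : SimpleGraph (W ⊕ (J × Fin (d + 1))),
      (∀ a b, G1.Adj (Sum.inl a) (Sum.inl b) ↔ G.Adj a b) ∧
      (∀ w, (nb G1 (Sum.inl w)).card =
        (nb G w).card + ∑ j ∈ univ.filter (fun j => own j = w), 2 * q j) ∧
      (∀ j x y, G1.Adj (Sum.inr (j, x)) y → (∃ x', y = Sum.inr (j, x')) ∨ y = Sum.inl (own j)) ∧
      (∀ p, (nb G1 (Sum.inr p)).card = d) ∧
      (∀ j, (univ.filter (fun x => G1.Adj (Sum.inl (own j)) (Sum.inr (j, x)))).card = 2 * q j)

namespace EMBAux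

section
variable {V : Type u} [Fintype V]

/-- high ends -/
noncomputable def VHs (G : SimpleGraph V) (d : ℕ) (U : Finset V) : Finset V :=
  U.filter (fun u => d < 4 * (nb G u).card)

/-- low ends with low partner -/
noncomputable def LLs (G : SimpleGraph V) (d : ℕ) (U : Finset V) (pr : V → V) : Finset V :=
  U.filter (fun u => 4 * (nb G u).card ≤ d ∧ 4 * (nb G (pr u)).card ≤ d)

/-- low ends with high partner -/
noncomputable def LHs (G : SimpleGraph V) (d : ℕ) (U : Finset V) (pr : V → V) : Finset V :=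
  U.filter (fun u => 4 * (nb G u).card ≤ d ∧ d < 4 * (nb G (pr u)).card)

/-- super vertices -/
noncomputable def S0i {m : ℕ} (LH : Finset V) : Finset (V ⊕ (Bool × Fin m)) :=
  LH.image Sum.inl ∪ (univ : Finset (Bool × Fin m)).image Sum.inr

theorem mem_S0i {m : ℕ} (LH : Finset V) (s : V ⊕ (Bool × Fin m)) :
    s ∈ S0i (m := m) LH ↔ (∃ v ∈ LH, s = Sum.inl v) ∨ ∃ b, s = Sum.inr b := by
  simp only [S0i, mem_union, mem_image, mem_univ, true_and]
  constructor
  · rintro (⟨v, hv, rfl⟩ | ⟨b, rfl⟩)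
    · exact Or.inl ⟨v, hv, rfl⟩
    · exact Or.inr ⟨b, rfl⟩
  · rintro (⟨v, hv, rfl⟩ | ⟨b, rfl⟩)
    · exact Or.inl ⟨v, hv, rfl⟩
    · exact Or.inr ⟨b, rfl⟩

/-- the regular graph `G'` with gadgets `Gd`, `R` = position of the vertices of the merged graph -/
structure BgP {m : ℕ} (G : SimpleGraph V) (d : ℕ) (VH LL LH : Finset V) (bn : V → Bool × Fin m)
    {W : Type u} [Fintype W] (G' : SimpleGraph W) (R : V ⊕ (Bool × Fin m) → W)
    (Gd : W → Bool → Finset W) : Prop where
  Ri : Function.Injective R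
  adj : ∀ x y, G'.Adj (R x) (R y) ↔ (G0 G LL bn).Adj x y
  reg : ∀ w, (nb G' w).card = d
  exc : (univ.filter (fun w => (∀ x, R x ≠ w) ∧ ∃ v ∈ VH, ∃ v' ∈ VH, v ≠ v' ∧
    G'.Adj (R (Sum.inl v)) w ∧ G'.Adj (R (Sum.inl v')) w)).card ≤ VH.card
  gd0 : ∀ s ∈ S0i LH, Disjoint (Gd (R s) false) (Gd (R s) true)
  gd1 : ∀ s ∈ S0i LH, ∀ i, (Gd (R s) i).card ≤ d + 1
  gd2 : ∀ s ∈ S0i LH, ∀ i, ∀ x ∈ Gd (R s) i, ∀ y, G'.Adj x y → y ∈ Gd (R s) i ∨ y = R s
  gd3 : ∀ s ∈ S0i LH, ∀ i, d ≤ 8 * (nb G' (R s) ∩ Gd (R s) i).card + 16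
  gd4 : ∀ s ∈ S0i LH, ∀ i, ∀ x ∈ Gd (R s) i, (∀ y, R y ≠ x) ∧
    ∀ v ∈ VH, ¬ G'.Adj (R (Sum.inl v)) x

/-- the sum of the gadget degrees -/
theorem sum_own {W0 : Type u} [Fintype W0] (S : Finset W0) (T : Finset W0) (hST : Disjoint S T)
    (deg : W0 → ℕ) (d : ℕ) (w : W0) (own : ({s // s ∈ S} × Bool) ⊕ {s // s ∈ T} → W0)
    (q : ({s // s ∈ S} × Bool) ⊕ {s // s ∈ T} → ℕ)
    (ho : own = Sum.elim (fun p : {s // s ∈ S} × Bool => (p.1 : W0))
      (fun t : {s // s ∈ T} => (t : W0)))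
    (hq : q = Sum.elim (fun p : {s // s ∈ S} × Bool => (d - deg p.1) / 4)
      (fun t : {s // s ∈ T} => (d - deg t) / 2)) :
    (w ∈ S → ∑ j ∈ univ.filter (fun j => own j = w), 2 * q j = 4 * ((d - deg w) / 4)) ∧
    (w ∈ T → ∑ j ∈ univ.filter (fun j => own j = w), 2 * q j = 2 * ((d - deg w) / 2)) ∧
    (w ∉ S → w ∉ T → ∑ j ∈ univ.filter (fun j => own j = w), 2 * q j = 0) := by
  have hA : ∀ (h : w ∉ S), ∑ p : {s // s ∈ S} × Bool,
      (if (p.1 : W0) = w then 2 * ((d - deg p.1) / 4) else 0) = 0 := by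
    intro h
    refine sum_eq_zero fun p _ => ?_
    rw [if_neg]
    rintro rfl
    exact h p.1.2
  have hB : ∀ (h : w ∉ T), ∑ t : {s // s ∈ T},
      (if (t : W0) = w then 2 * ((d - deg t) / 2) else 0) = 0 := by
    intro h
    refine sum_eq_zero fun p _ => ?_
    rw [if_neg]
    rintro rfl
    exact h p.2
  have hA' : w ∈ S → ∑ p : {s // s ∈ S} × Bool,
      (if (p.1 : W0) = w then 2 * ((d - deg p.1) / 4) else 0) = 4 * ((d - deg w) / 4) := by
    intro h
    rw [Fintype.sum_prod_type, Fintype.sum_eq_single (⟨w, h⟩ : {s // s ∈ S})]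
    · simp
      ring
    · intro x hx
      refine sum_eq_zero fun i _ => ?_
      rw [if_neg]
      intro h'
      exact hx (Subtype.ext h')
  have hB' : w ∈ T → ∑ t : {s // s ∈ T},
      (if (t : W0) = w then 2 * ((d - deg t) / 2) else 0) = 2 * ((d - deg w) / 2) := by
    intro h
    rw [Fintype.sum_eq_single (⟨w, h⟩ : {s // s ∈ T})]
    · simp
    · intro x hx
      rw [if_neg]
      intro h'
      exact hx (Subtype.ext h')
  have hsp : ∑ j ∈ univ.filter (fun j => own j = w), 2 * q j =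
      ∑ p : {s // s ∈ S} × Bool, (if (p.1 : W0) = w then 2 * ((d - deg p.1) / 4) else 0) +
      ∑ t : {s // s ∈ T}, (if (t : W0) = w then 2 * ((d - deg t) / 2) else 0) := by
    rw [sum_filter, Fintype.sum_sum_type, ho, hq]
    simp only [Sum.elim_inl, Sum.elim_inr]
  rw [hsp]
  refine ⟨fun h => ?_, fun h => ?_, fun h h' => ?_⟩
  · rw [hA' h, hB (disjoint_left.1 hST h), add_zero]
  · rw [hA (disjoint_right.1 hST h), hB' h, zero_add]
  · rw [hA h, hB h']

theorem bg_exists (hE : Stmt_EMBI.{u}) (hGad : Stmt_GAD.{u}) {m : ℕ} {G : SimpleGraph V}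
    {U : Finset V} {pr : V → V} {fs : V → Bool} (h : Mt G U pr fs) {d : ℕ} (hd : 40 ≤ d)
    (hdeg : ∀ v, (nb G v).card ≤ d) (hV : d + 1 ≤ Fintype.card V) (bn : V → Bool × Fin m)
    (hb : ∀ b, 2 * ∑ u ∈ (LLs G d U pr).filter (fun u => bn u = b), (nU G U u).card ≤ d) :
    ∃ (W : Type u) (_ : Fintype W) (G' : SimpleGraph W) (R : V ⊕ (Bool × Fin m) → W)
      (Gd : W → Bool → Finset W),
      BgP G d (VHs G d U) (LLs G d U pr) (LHs G d U pr) bn G' R Gd ∧
      Fintype.card W ≤ 10 * (Fintype.card V + 2 * m +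
        (2 * ((LHs G d U pr).card + 2 * m) + (VHs G d U).card) * (d + 1)) := by
  set VH := VHs G d U with hVH
  set LL := LLs G d U pr with hLL
  set LH := LHs G d U pr with hLH
  let W0 : Type u := V ⊕ (Bool × Fin m)
  set g0 : SimpleGraph (V ⊕ (Bool × Fin m)) := G0 G LL bn with hg0
  set S : Finset (V ⊕ (Bool × Fin m)) := S0i LH with hS
  set T : Finset (V ⊕ (Bool × Fin m)) := VH.image Sum.inl with hT
  have hLU : LL ⊆ U := filter_subset _ _
  have hLp : ∀ u ∈ LL, pr u ∈ LL := by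
    intro u hu
    rw [hLL, LLs, mem_filter] at hu ⊢
    refine ⟨h.prU u hu.1, hu.2.2, ?_⟩
    rw [h.prp u hu.1]
    exact hu.2.1
  have hST : Disjoint S T := by
    rw [disjoint_left]
    intro s hs ht
    rw [hT, mem_image] at ht
    obtain ⟨v, hv, rfl⟩ := ht
    rw [hS, mem_S0i] at hs
    rcases hs with ⟨w, hw, h1⟩ | ⟨b, h1⟩
    · have h2 := Sum.inl_injective h1
      subst h2
      rw [hLH, LHs, mem_filter] at hw
      rw [hVH, VHs, mem_filter] at hv
      omega
    · exact Sum.inl_ne_inr h1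
  -- degrees in the merged graph
  have hdS : ∀ s ∈ S, 2 * (nb g0 s).card ≤ d := by
    intro s hs
    rw [hS, mem_S0i] at hs
    rcases hs with ⟨v, hv, rfl⟩ | ⟨b, rfl⟩
    · have h1 := deg_inl G LL bn v
      rw [hLH, LHs, mem_filter] at hv
      have h2 : (nb g0 (Sum.inl v)).card ≤ (nb G v).card := h1
      omega
    · exact deg_inr h hLU hLp b (hb b)
  have hd0 : ∀ w, (nb g0 w).card ≤ d := by
    intro w
    cases w with
    | inl v => exact (deg_inl G LL bn v).trans (hdeg v)
    | inr b =>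
      have := hdS (Sum.inr b) (by rw [hS, mem_S0i]; exact Or.inr ⟨b, rfl⟩)
      omega
  let J : Type u := ({s // s ∈ S} × Bool) ⊕ {s // s ∈ T}
  let own : J → V ⊕ (Bool × Fin m) :=
    Sum.elim (fun p : {s // s ∈ S} × Bool => (p.1 : V ⊕ (Bool × Fin m)))
      (fun t : {s // s ∈ T} => (t : V ⊕ (Bool × Fin m)))
  let q : J → ℕ := Sum.elim (fun p : {s // s ∈ S} × Bool => (d - (nb g0 p.1).card) / 4)
    (fun t : {s // s ∈ T} => (d - (nb g0 t).card) / 2)
  have hq : ∀ j, 2 * q j ≤ d := by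
    intro j
    rcases j with p | t
    · show 2 * ((d - (nb g0 p.1).card) / 4) ≤ d
      omega
    · show 2 * ((d - (nb g0 t).card) / 2) ≤ d
      omega
  obtain ⟨G1, a1, a2, a3, a4, a5⟩ := hGad g0 d own q hq
  have hsum := fun w => sum_own S T hST (fun w => (nb g0 w).card) d w own q rfl rfl
  have a2S : ∀ w ∈ S, (nb G1 (Sum.inl w)).card =
      (nb g0 w).card + 4 * ((d - (nb g0 w).card) / 4) := fun w hw =>
    (a2 w).trans (congrArg (fun x => (nb g0 w).card + x) ((hsum w).1 hw))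
  have a2T : ∀ w ∈ T, (nb G1 (Sum.inl w)).card =
      (nb g0 w).card + 2 * ((d - (nb g0 w).card) / 2) := fun w hw =>
    (a2 w).trans (congrArg (fun x => (nb g0 w).card + x) ((hsum w).2.1 hw))
  have a2N : ∀ w, w ∉ S → w ∉ T → (nb G1 (Sum.inl w)).card =
      (nb g0 w).card + 0 := fun w hw hw' =>
    (a2 w).trans (congrArg (fun x => (nb g0 w).card + x) ((hsum w).2.2 hw hw'))
  have hdT : ∀ t ∈ T, d ≤ (nb G1 (Sum.inl t)).card + 1 := by
    intro t ht
    rw [a2T t ht]
    have := hd0 t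
    omega
  have hd1 : ∀ x, (nb G1 x).card ≤ d := by
    intro x
    cases x with
    | inr p => exact (a4 p).le
    | inl w =>
      have h0 := hd0 w
      by_cases hwS : w ∈ S
      · rw [a2S w hwS]
        omega
      · by_cases hwT : w ∈ T
        · rw [a2T w hwT]
          omega
        · rw [a2N w hwS hwT]
          omega
  have hcard : Fintype.card ((V ⊕ (Bool × Fin m)) ⊕ (J × Fin (d + 1))) =
      Fintype.card V + 2 * m + (S.card * 2 + T.card) * (d + 1) := by
    simp only [J, Fintype.card_sum, Fintype.card_prod, Fintype.card_bool, Fintype.card_fin,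
      Fintype.card_coe]
  obtain ⟨W, iW, G', f, hf, hfa, hreg, hWc⟩ := hE G1 d (by omega) hd1 (by rw [hcard]; omega)
  -- neighbours of vertices of full degree
  have hfull : ∀ x, (nb G1 x).card = d → ∀ y, G'.Adj (f x) y → ∃ z, y = f z ∧ G1.Adj x z := by
    intro x hx y hy
    have h1 : (nb G1 x).image f ⊆ nb G' (f x) := by
      intro z hz
      obtain ⟨z', hz', rfl⟩ := mem_image.1 hz
      rw [mem_nb] at hz' ⊢
      exact (hfa x z').2 hz'
    have h2 : (nb G1 x).image f = nb G' (f x) := by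
      apply eq_of_subset_of_card_le h1
      rw [card_image_of_injective _ hf, hx, hreg]
    have h3 : y ∈ (nb G1 x).image f := by
      rw [h2, mem_nb]
      exact hy
    obtain ⟨z, hz, rfl⟩ := mem_image.1 h3
    exact ⟨z, rfl, (mem_nb _ _ _).1 hz⟩
  let R : V ⊕ (Bool × Fin m) → W := fun x => f (Sum.inl x)
  let gv : ∀ s, s ∈ S → Bool → Fin (d + 1) → W := fun s hs i x =>
    f (Sum.inr (Sum.inl (⟨s, hs⟩, i), x))
  let Gd : W → Bool → Finset W := fun z i =>
    univ.filter (fun y => ∃ (s : V ⊕ (Bool × Fin m)) (hs : s ∈ S), R s = z ∧ ∃ x, y = gv s hs i x)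
  have hRi : Function.Injective R := fun x y hxy => Sum.inl_injective (hf hxy)
  have mem_Gd : ∀ s (hs : s ∈ S) i y, y ∈ Gd (R s) i ↔ ∃ x, y = gv s hs i x := by
    intro s hs i y
    simp only [Gd, mem_filter, mem_univ, true_and]
    constructor
    · rintro ⟨s', hs', h1, h2⟩
      obtain rfl := hRi h1
      exact h2
    · intro h1
      exact ⟨s, hs, rfl, h1⟩
  refine ⟨W, iW, G', R, Gd, ?_, ?_⟩
  · constructor
    · exact hRi
    · intro x y
      rw [hfa, a1]
    · exact hreg
    · -- exceptional vertices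
      have h1 : (univ.filter (fun w => (∀ x, R x ≠ w) ∧ ∃ v ∈ VH, ∃ v' ∈ VH, v ≠ v' ∧
          G'.Adj (R (Sum.inl v)) w ∧ G'.Adj (R (Sum.inl v')) w)) ⊆
          VH.biUnion (fun v => nb G' (R (Sum.inl v)) \
            (nb G1 (Sum.inl (Sum.inl v))).image f) := by
        intro w hw
        obtain ⟨hw1, v, hv, v', hv', hvv, h2, h3⟩ := (mem_filter.1 hw).2
        refine mem_biUnion.2 ⟨v, hv, mem_sdiff.2 ⟨(mem_nb _ _ _).2 h2, fun h4 => ?_⟩⟩
        obtain ⟨z, hz, rfl⟩ := mem_image.1 h4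
        rw [mem_nb] at hz
        cases z with
        | inl z => exact hw1 z rfl
        | inr p =>
          obtain ⟨j, x⟩ := p
          have h5 : G1.Adj (Sum.inl (Sum.inl v')) (Sum.inr (j, x)) := (hfa _ _).1 h3
          rcases a3 j x _ hz.symm with ⟨x', h6⟩ | h6
          · exact Sum.inl_ne_inr h6
          · rcases a3 j x _ h5.symm with ⟨x', h7⟩ | h7
            · exact Sum.inl_ne_inr h7
            · have h8 := Sum.inl_injective (h6.trans h7.symm)
              exact hvv (Sum.inl_injective h8)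
      refine (card_le_card h1).trans (card_biUnion_le.trans ?_)
      have h2 : ∀ v ∈ VH, (nb G' (R (Sum.inl v)) \
          (nb G1 (Sum.inl (Sum.inl v))).image f).card ≤ 1 := by
        intro v hv
        have h3 : (nb G1 (Sum.inl (Sum.inl v))).image f ⊆ nb G' (R (Sum.inl v)) := by
          intro z hz
          obtain ⟨z', hz', rfl⟩ := mem_image.1 hz
          rw [mem_nb] at hz' ⊢
          exact (hfa _ z').2 hz'
        rw [card_sdiff_of_subset h3, hreg, card_image_of_injective _ hf]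
        have := hdT (Sum.inl v) (by rw [hT]; exact mem_image_of_mem _ hv)
        omega
      calc ∑ v ∈ VH, (nb G' (R (Sum.inl v)) \ (nb G1 (Sum.inl (Sum.inl v))).image f).card
          ≤ ∑ v ∈ VH, 1 := sum_le_sum h2
        _ = VH.card := by simp
    · intro s hs
      rw [disjoint_left]
      intro y hy hy'
      rw [mem_Gd s hs] at hy hy'
      obtain ⟨x, rfl⟩ := hy
      obtain ⟨x', hx'⟩ := hy'
      have h1 := Sum.inr_injective (hf hx')
      have h2 := congrArg Prod.fst h1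
      have h3 := Sum.inl_injective h2
      have h4 := congrArg Prod.snd h3
      exact Bool.noConfusion h4
    · intro s hs i
      have h1 : Gd (R s) i = (univ : Finset (Fin (d + 1))).image (gv s hs i) := by
        ext y
        rw [mem_Gd s hs, mem_image]
        constructor
        · rintro ⟨x, rfl⟩
          exact ⟨x, mem_univ _, rfl⟩
        · rintro ⟨x, _, rfl⟩
          exact ⟨x, rfl⟩
      rw [h1]
      refine card_image_le.trans ?_
      rw [card_univ, Fintype.card_fin]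
    · intro s hs i x hx y hy
      rw [mem_Gd s hs] at hx ⊢
      obtain ⟨x', rfl⟩ := hx
      obtain ⟨z, rfl, hz⟩ := hfull _ (a4 _) y hy
      rcases a3 _ _ _ hz with ⟨x'', h1⟩ | h1
      · left
        exact ⟨x'', by rw [h1]⟩
      · right
        rw [h1]
        rfl
    · intro s hs i
      have h1 : ((univ.filter (fun x => G1.Adj (Sum.inl (own (Sum.inl (⟨s, hs⟩, i))))
          (Sum.inr (Sum.inl (⟨s, hs⟩, i), x)))).image (gv s hs i)) ⊆
          nb G' (R s) ∩ Gd (R s) i := by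
        intro y hy
        obtain ⟨x, hx, rfl⟩ := mem_image.1 hy
        rw [mem_inter, mem_nb, mem_Gd s hs]
        exact ⟨(hfa _ _).2 (mem_filter.1 hx).2, x, rfl⟩
      have h2 := card_le_card h1
      have hgi : Function.Injective (gv s hs i) := by
        intro x x' hxx
        have h3 := Sum.inr_injective (hf hxx)
        exact congrArg Prod.snd h3
      rw [card_image_of_injective _ hgi, a5] at h2
      have h3 : q (Sum.inl (⟨s, hs⟩, i)) = (d - (nb g0 s).card) / 4 := rfl
      rw [h3] at h2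
      have h4 := hdS s hs
      omega
    · intro s hs i x hx
      rw [mem_Gd s hs] at hx
      obtain ⟨x', rfl⟩ := hx
      refine ⟨fun y hy => ?_, fun v hv hadj => ?_⟩
      · exact Sum.inl_ne_inr (hf hy)
      · have h1 : G1.Adj (Sum.inl (Sum.inl v)) (Sum.inr (Sum.inl (⟨s, hs⟩, i), x')) :=
          (hfa _ _).1 hadj
        rcases a3 _ _ _ h1.symm with ⟨x'', h2⟩ | h2
        · exact Sum.inl_ne_inr h2
        · have h3 : (Sum.inl v : V ⊕ (Bool × Fin m)) = s := Sum.inl_injective h2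
          refine disjoint_left.1 hST hs ?_
          rw [hT, ← h3]
          exact mem_image_of_mem _ hv
  · refine hWc.trans (Nat.mul_le_mul_left _ ?_)
    rw [hcard]
    have h1 : S.card ≤ LH.card + 2 * m := by
      rw [hS, S0i]
      refine (card_union_le _ _).trans (Nat.add_le_add card_image_le ?_)
      refine card_image_le.trans ?_
      rw [card_univ, Fintype.card_prod, Fintype.card_bool, Fintype.card_fin]
    have h2 : T.card ≤ VH.card := by
      rw [hT]
      exact card_image_le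
    have h3 : S.card * 2 + T.card ≤ 2 * (LH.card + 2 * m) + VH.card := by omega
    have h4 := Nat.mul_le_mul_right (d + 1) h3
    omega

end

end EMBAux

end Pool.Agent.Work.MP_db9399_da.helper99
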