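import Pool.Agent.Work.MP_db9399_da_helper99.EMBB

/-!
# MP_db9399, DENSE-ALL, phase 2, EMB2 part C: the precoloured matching in the big graph (helper99)
-/

set_option autoImplicit false

namespace Pool.Agent.Work.MP_db9399_da.helper99

open Finset Classical
open Pool.Agent.Work.MP_db9399_all (nb)
open Pool.Agent.Work.MP_db9399_da.helper62 (mem_nb)

universe u

namespace EMBAux

section
variable {V : Type u} [Fintype V] {m : ℕ} {W : Type u} [Fintype W]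

/-- the ends which are seen by `w` -/
noncomputable def Ks (G : SimpleGraph V) (d : ℕ) (U : Finset V) (G' : SimpleGraph W)
    (R : V ⊕ (Bool × Fin m) → W) (w : W) : Finset V :=
  U.filter (fun u => (∃ v, v ∉ U ∧ w = R (Sum.inl v) ∧ G.Adj v u) ∨
    (u ∈ VHs G d U ∧ G'.Adj (R (Sum.inl u)) w))

/-- the ends which give forbidden colours of the edge `z w` -/
noncomputable def Es (G : SimpleGraph V) (d : ℕ) (U : Finset V) (pr : V → V)
    (bn : V → Bool × Fin m) (R : V ⊕ (Bool × Fin m) → W) (z w : W) : Finset V :=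
  U.filter (fun u => u ∉ VHs G d U ∧ R (rep (LLs G d U pr) bn u) = z ∧
    ∃ v, v ∉ U ∧ w = R (Sum.inl v) ∧ G.Adj v u)

/-- the precoloured matching in the big graph -/
noncomputable def mkX (G : SimpleGraph V) (d : ℕ) (U : Finset V) (pr : V → V)
    (bn : V → Bool × Fin m) (G' : SimpleGraph W) (R : V ⊕ (Bool × Fin m) → W)
    (Gd : W → Bool → Finset W) (c₀ : V → ℕ) (t₀ : Sym2 V → ℕ) : HD W where
  VH := (VHs G d U).image (fun v => R (Sum.inl v))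
  S0 := (S0i (LHs G d U pr)).image R
  H := { Adj := fun x y => x ≠ y ∧ ∃ u v, x = R (Sum.inl u) ∧ y = R (Sum.inl v) ∧ u ∈ U ∧ v ∈ U ∧
          G.Adj u v ∧ (u ∈ VHs G d U ∨ v ∈ VHs G d U)
         symm := ⟨fun _ _ ⟨h1, u, v, h2, h3, h4, h5, h6, h7⟩ =>
          ⟨h1.symm, v, u, h3, h2, h5, h4, h6.symm, h7.symm⟩⟩
         loopless := ⟨fun _ h => h.1 rfl⟩ }
  c0 := Function.extend (fun v => R (Sum.inl v)) c₀ (fun _ => 0)
  h0 := Function.extend (fun v => R (Sum.inl v)) (fun u => t₀ s(u, pr u)) (fun _ => 0)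
  p0 := Function.extend (fun v => R (Sum.inl v)) (fun u => c₀ (pr u)) (fun _ => 0)
  nm w := if w ∈ (VHs G d U).image (fun v => R (Sum.inl v)) ∨ w ∈ (S0i (LHs G d U pr)).image R
    then ∅ else (Ks G d U G' R w).image c₀
  ne z w := (Es G d U pr bn R z w).biUnion (fun u => {c₀ u, t₀ s(u, pr u)})
  Gd := Gd

/-- the hypotheses -/
structure Hy (G : SimpleGraph V) (d : ℕ) (U : Finset V) (pr : V → V) (fs : V → Bool)
    (bn : V → Bool × Fin m) (G' : SimpleGraph W) (R : V ⊕ (Bool × Fin m) → W)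
    (Gd : W → Bool → Finset W) (c₀ : V → ℕ) (t₀ : Sym2 V → ℕ) : Prop where
  h : Mt G U pr fs
  B : BgP G d (VHs G d U) (LLs G d U pr) (LHs G d U pr) bn G' R Gd
  bf : ∀ v ∈ LLs G d U pr, (bn v).1 = fs v
  c : ∀ u ∈ U, c₀ u < d + 2
  t : ∀ u ∈ U, t₀ s(u, pr u) < d + 2
  cc : ∀ u ∈ U, c₀ u ≠ c₀ (pr u)
  ct : ∀ u ∈ U, t₀ s(u, pr u) ≠ c₀ u

variable {G : SimpleGraph V} {d : ℕ} {U : Finset V} {pr : V → V} {fs : V → Bool}
    {bn : V → Bool × Fin m} {G' : SimpleGraph W} {R : V ⊕ (Bool × Fin m) → W}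
    {Gd : W → Bool → Finset W} {c₀ : V → ℕ} {t₀ : Sym2 V → ℕ}

theorem cls (u : V) (hu : u ∈ U) :
    u ∈ VHs G d U ∨ u ∈ LHs G d U pr ∨ u ∈ LLs G d U pr := by
  rw [VHs, LHs, LLs, mem_filter, mem_filter, mem_filter]
  by_cases h1 : d < 4 * (nb G u).card
  · exact Or.inl ⟨hu, h1⟩
  · by_cases h2 : d < 4 * (nb G (pr u)).card
    · exact Or.inr (Or.inl ⟨hu, by omega, h2⟩)
    · exact Or.inr (Or.inr ⟨hu, by omega, by omega⟩)

theorem VH_U {u : V} (hu : u ∈ VHs G d U) : u ∈ U := (mem_filter.1 hu).1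

theorem LH_U {u : V} (hu : u ∈ LHs G d U pr) : u ∈ U := (mem_filter.1 hu).1

theorem LL_U {u : V} (hu : u ∈ LLs G d U pr) : u ∈ U := (mem_filter.1 hu).1

theorem VH_LL {u : V} (hu : u ∈ VHs G d U) : u ∉ LLs G d U pr := by
  rw [VHs, mem_filter] at hu
  rw [LLs, mem_filter]
  omega

theorem VH_LH {u : V} (hu : u ∈ VHs G d U) : u ∉ LHs G d U pr := by
  rw [VHs, mem_filter] at hu
  rw [LHs, mem_filter]
  omega

theorem LH_LL {u : V} (hu : u ∈ LHs G d U pr) : u ∉ LLs G d U pr := by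
  rw [LHs, mem_filter] at hu
  rw [LLs, mem_filter]
  omega

theorem LL_pr (h : Mt G U pr fs) {u : V} (hu : u ∈ LLs G d U pr) : pr u ∈ LLs G d U pr := by
  rw [LLs, mem_filter] at hu ⊢
  refine ⟨h.prU u hu.1, hu.2.2, ?_⟩
  rw [h.prp u hu.1]
  exact hu.2.1

theorem VH_pr (h : Mt G U pr fs) {u : V} (hu : u ∈ VHs G d U) : pr u ∉ LLs G d U pr := by
  intro h1
  have h2 := LL_pr h h1
  rw [h.prp u (VH_U hu)] at h2
  exact VH_LL hu h2

theorem pr_VH (h : Mt G U pr fs) {u : V} (hu : u ∈ U) (hp : pr u ∈ VHs G d U) :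
    u ∉ LLs G d U pr := by
  have := VH_pr h hp
  rwa [h.prp u hu] at this

/-- adjacency of real vertices -/
theorem adjF (hy : Hy G d U pr fs bn G' R Gd c₀ t₀) {u v : V} :
    G'.Adj (R (Sum.inl u)) (R (Sum.inl v)) ↔
      G.Adj u v ∧ u ∉ LLs G d U pr ∧ v ∉ LLs G d U pr := by
  rw [hy.B.adj]
  constructor
  · rintro ⟨v', w', h1, h2, h3, h4⟩
    obtain ⟨rfl, h5⟩ := rep_eq_inl h3
    obtain ⟨rfl, h6⟩ := rep_eq_inl h4
    exact ⟨h1, h5, h6⟩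
  · rintro ⟨h1, h2, h3⟩
    exact ⟨u, v, h1, fun h => h2 h.1, rep_out h2, rep_out h3⟩

theorem Fi (hy : Hy G d U pr fs bn G' R Gd c₀ t₀) {u v : V}
    (h : R (Sum.inl u) = R (Sum.inl v)) : u = v := Sum.inl_injective (hy.B.Ri h)

theorem Finj (hy : Hy G d U pr fs bn G' R Gd c₀ t₀) :
    Function.Injective (fun v => R (Sum.inl v)) := fun _ _ h => Fi hy h

theorem c0F (hy : Hy G d U pr fs bn G' R Gd c₀ t₀) (u : V) :
    (mkX G d U pr bn G' R Gd c₀ t₀).c0 (R (Sum.inl u)) = c₀ u :=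
  (Finj hy).extend_apply c₀ (fun _ => 0) u

theorem h0F (hy : Hy G d U pr fs bn G' R Gd c₀ t₀) (u : V) :
    (mkX G d U pr bn G' R Gd c₀ t₀).h0 (R (Sum.inl u)) = t₀ s(u, pr u) :=
  (Finj hy).extend_apply (fun u => t₀ s(u, pr u)) (fun _ => 0) u

theorem p0F (hy : Hy G d U pr fs bn G' R Gd c₀ t₀) (u : V) :
    (mkX G d U pr bn G' R Gd c₀ t₀).p0 (R (Sum.inl u)) = c₀ (pr u) :=
  (Finj hy).extend_apply (fun u => c₀ (pr u)) (fun _ => 0) u

theorem memVH {w : W} : w ∈ (mkX G d U pr bn G' R Gd c₀ t₀).VH ↔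
    ∃ u ∈ VHs G d U, R (Sum.inl u) = w := mem_image

theorem memVHF (hy : Hy G d U pr fs bn G' R Gd c₀ t₀) {u : V} :
    R (Sum.inl u) ∈ (mkX G d U pr bn G' R Gd c₀ t₀).VH ↔ u ∈ VHs G d U := by
  rw [memVH]
  constructor
  · rintro ⟨v, hv, h1⟩
    rwa [← Fi hy h1]
  · intro h1
    exact ⟨u, h1, rfl⟩

theorem memS0 {w : W} : w ∈ (mkX G d U pr bn G' R Gd c₀ t₀).S0 ↔
    (∃ u ∈ LHs G d U pr, w = R (Sum.inl u)) ∨ ∃ b, w = R (Sum.inr b) := by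
  show w ∈ (S0i (LHs G d U pr)).image R ↔ _
  rw [mem_image]
  constructor
  · rintro ⟨s, hs, rfl⟩
    rw [mem_S0i] at hs
    rcases hs with ⟨v, hv, rfl⟩ | ⟨b, rfl⟩
    · exact Or.inl ⟨v, hv, rfl⟩
    · exact Or.inr ⟨b, rfl⟩
  · rintro (⟨v, hv, rfl⟩ | ⟨b, rfl⟩)
    · exact ⟨Sum.inl v, (mem_S0i _ _).2 (Or.inl ⟨v, hv, rfl⟩), rfl⟩
    · exact ⟨Sum.inr b, (mem_S0i _ _).2 (Or.inr ⟨b, rfl⟩), rfl⟩

theorem memS0F (hy : Hy G d U pr fs bn G' R Gd c₀ t₀) {u : V} :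
    R (Sum.inl u) ∈ (mkX G d U pr bn G' R Gd c₀ t₀).S0 ↔ u ∈ LHs G d U pr := by
  rw [memS0]
  constructor
  · rintro (⟨v, hv, h1⟩ | ⟨b, h1⟩)
    · rwa [Fi hy h1]
    · exact absurd (hy.B.Ri h1) Sum.inl_ne_inr
  · intro h1
    exact Or.inl ⟨u, h1, rfl⟩

theorem adjH (hy : Hy G d U pr fs bn G' R Gd c₀ t₀) {x y : W} :
    (mkX G d U pr bn G' R Gd c₀ t₀).H.Adj x y ↔
    ∃ u ∈ U, x = R (Sum.inl u) ∧ y = R (Sum.inl (pr u)) ∧
      (u ∈ VHs G d U ∨ pr u ∈ VHs G d U) := by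
  constructor
  · rintro ⟨h1, u, v, h2, h3, h4, h5, h6, h7⟩
    have h8 := hy.h.d1 u h4 v h5 h6
    subst h8
    exact ⟨u, h4, h2, h3, h7⟩
  · rintro ⟨u, hu, rfl, rfl, h1⟩
    refine ⟨fun h2 => ?_, u, pr u, rfl, rfl, hu, hy.h.prU u hu, hy.h.pra u hu, h1⟩
    exact (hy.h.pra u hu).ne (Fi hy h2)

theorem adjHF (hy : Hy G d U pr fs bn G' R Gd c₀ t₀) {u : V} (hu : u ∈ VHs G d U) :
    (mkX G d U pr bn G' R Gd c₀ t₀).H.Adj (R (Sum.inl u)) (R (Sum.inl (pr u))) :=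
  (adjH hy).2 ⟨u, VH_U hu, rfl, rfl, Or.inl hu⟩

theorem nm_in {w : W} (hw : w ∈ (mkX G d U pr bn G' R Gd c₀ t₀).VH ∨
    w ∈ (mkX G d U pr bn G' R Gd c₀ t₀).S0) : (mkX G d U pr bn G' R Gd c₀ t₀).nm w = ∅ :=
  if_pos hw

theorem nm_out {w : W} (h1 : w ∉ (mkX G d U pr bn G' R Gd c₀ t₀).VH)
    (h2 : w ∉ (mkX G d U pr bn G' R Gd c₀ t₀).S0) :
    (mkX G d U pr bn G' R Gd c₀ t₀).nm w = (Ks G d U G' R w).image c₀ :=
  if_neg (fun h => h.elim h1 h2)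

theorem nm_sub (w : W) :
    (mkX G d U pr bn G' R Gd c₀ t₀).nm w ⊆ (Ks G d U G' R w).image c₀ := by
  by_cases hw : w ∈ (mkX G d U pr bn G' R Gd c₀ t₀).VH ∨
    w ∈ (mkX G d U pr bn G' R Gd c₀ t₀).S0
  · rw [nm_in hw]
    exact empty_subset _
  · push Not at hw
    rw [nm_out hw.1 hw.2]

theorem mem_Ks {w : W} {u : V} : u ∈ Ks G d U G' R w ↔
    u ∈ U ∧ ((∃ v, v ∉ U ∧ w = R (Sum.inl v) ∧ G.Adj v u) ∨
      (u ∈ VHs G d U ∧ G'.Adj (R (Sum.inl u)) w)) := mem_filter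

/-- what a real vertex outside `U` sees -/
theorem Ks_real (hy : Hy G d U pr fs bn G' R Gd c₀ t₀) {v u : V}
    (hu : u ∈ Ks G d U G' R (R (Sum.inl v))) (hv : v ∉ U) : u ∈ U ∧ G.Adj v u := by
  rw [mem_Ks] at hu
  refine ⟨hu.1, ?_⟩
  rcases hu.2 with ⟨v', _, h2, h3⟩ | ⟨_, h2⟩
  · rwa [Fi hy h2]
  · exact ((adjF hy).1 h2).1.symm

theorem Ks_LL (hy : Hy G d U pr fs bn G' R Gd c₀ t₀) {v : V} (hv : v ∈ LLs G d U pr) :
    Ks G d U G' R (R (Sum.inl v)) = ∅ := by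
  rw [eq_empty_iff_forall_notMem]
  intro u hu
  rw [mem_Ks] at hu
  rcases hu.2 with ⟨v', h1, h2, h3⟩ | ⟨_, h2⟩
  · rw [← Fi hy h2] at h1
    exact h1 (LL_U hv)
  · exact ((adjF hy).1 h2).2.2 hv

theorem Ks_new {w : W} (hw : ∀ x, R x ≠ w) {u : V} (hu : u ∈ Ks G d U G' R w) :
    u ∈ VHs G d U ∧ G'.Adj (R (Sum.inl u)) w := by
  rw [mem_Ks] at hu
  rcases hu.2 with ⟨v', _, h2, _⟩ | h2
  · exact absurd h2.symm (hw _)
  · exact h2

/-- trichotomy -/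
theorem tri (w : W) (h1 : w ∉ (mkX G d U pr bn G' R Gd c₀ t₀).VH)
    (h2 : w ∉ (mkX G d U pr bn G' R Gd c₀ t₀).S0) :
    (∃ v, v ∉ U ∧ w = R (Sum.inl v)) ∨ (∃ v ∈ LLs G d U pr, w = R (Sum.inl v)) ∨
      ∀ x, R x ≠ w := by
  by_cases h3 : ∃ x, R x = w
  · obtain ⟨x, rfl⟩ := h3
    cases x with
    | inr b => exact absurd (memS0.2 (Or.inr ⟨b, rfl⟩)) h2
    | inl v =>
      by_cases hv : v ∈ U
      · rcases cls (G := G) (d := d) (pr := pr) v hv with h4 | h4 | h4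
        · exact absurd (memVH.2 ⟨v, h4, rfl⟩) h1
        · exact absurd (memS0.2 (Or.inl ⟨v, h4, rfl⟩)) h2
        · exact Or.inr (Or.inl ⟨v, h4, rfl⟩)
      · exact Or.inl ⟨v, hv, rfl⟩
  · push Not at h3
    exact Or.inr (Or.inr h3)

/-- a real vertex outside `U` sees at most the ends of one edge -/
theorem Ks_two (hy : Hy G d U pr fs bn G' R Gd c₀ t₀) {v u u' : V} (hv : v ∉ U)
    (hu : u ∈ Ks G d U G' R (R (Sum.inl v))) (hu' : u' ∈ Ks G d U G' R (R (Sum.inl v))) :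
    u = u' ∨ u' = pr u := by
  have h1 := Ks_real hy hu hv
  have h2 := Ks_real hy hu' hv
  exact hy.h.d2 u h1.1 u' h2.1 v h1.2 h2.2

/-- the position of an end -/
theorem rF (hy : Hy G d U pr fs bn G' R Gd c₀ t₀) {w : W} {u : V}
    (hu : u ∈ Ks G d U G' R w) :
    R (rep (LLs G d U pr) bn u) ∈ nb G' w ∩
      ((mkX G d U pr bn G' R Gd c₀ t₀).VH ∪ (mkX G d U pr bn G' R Gd c₀ t₀).S0) := by
  rw [mem_Ks] at hu
  rw [mem_inter, mem_union, mem_nb]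
  constructor
  · rcases hu.2 with ⟨v, h1, rfl, h2⟩ | ⟨h1, h2⟩
    · have hvL : v ∉ LLs G d U pr := fun h => h1 (LL_U h)
      rw [← rep_out (bn := bn) hvL, hy.B.adj]
      exact G0_adj h2 (fun h => hvL h.1)
    · rw [rep_out (VH_LL h1)]
      exact h2.symm
  · rcases cls (G := G) (d := d) (pr := pr) u hu.1 with h1 | h1 | h1
    · left
      rw [rep_out (VH_LL h1)]
      exact memVH.2 ⟨u, h1, rfl⟩
    · right
      rw [rep_out (LH_LL h1)]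
      exact memS0.2 (Or.inl ⟨u, h1, rfl⟩)
    · right
      rw [rep_in h1]
      exact memS0.2 (Or.inr ⟨_, rfl⟩)

theorem rF_inj (hy : Hy G d U pr fs bn G' R Gd c₀ t₀) {w : W} {u u' : V}
    (hu : u ∈ Ks G d U G' R w) (hu' : u' ∈ Ks G d U G' R w)
    (h : R (rep (LLs G d U pr) bn u) = R (rep (LLs G d U pr) bn u')) : u = u' := by
  have h1 := hy.B.Ri h
  by_cases h2 : u ∈ LLs G d U pr
  · have h3 : u' ∈ LLs G d U pr := by
      rw [rep_in h2] at h1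
      exact (rep_eq_inr h1.symm).2
    rw [mem_Ks] at hu hu'
    rcases hu.2 with ⟨v, h4, h5, h6⟩ | ⟨h4, _⟩
    · rcases hu'.2 with ⟨v', h7, h8, h9⟩ | ⟨h7, _⟩
      · obtain rfl := Fi hy (h5.symm.trans h8)
        exact rep_inj hy.h (fun x hx => LL_U hx) hy.bf h6 h9 h1
      · exact absurd h3 (VH_LL h7)
    · exact absurd h2 (VH_LL h4)
  · rw [rep_out h2] at h1
    exact (rep_eq_inl h1.symm).1.symm

end

end EMBAux

end Pool.Agent.Work.MP_db9399_da.helper99
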