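import Pool.Agent.Work.MP_db9399_da_helper99.EMBC

/-!
# MP_db9399, DENSE-ALL, phase 2, EMB2 part D: the properties HP (helper99)
-/

set_option autoImplicit false

namespace Pool.Agent.Work.MP_db9399_da.helper99

open Finset Classical
open Pool.Agent.Work.MP_db9399_all (nb)
open Pool.Agent.Work.MP_db9399_da.helper62 (mem_nb)

universe u

namespace EMBAux

section
variable {V : Type u} [Fintype V] {m : ℕ} {W : Type u} [Fintype W]
variable {G : SimpleGraph V} {d : ℕ} {U : Finset V} {pr : V → V} {fs : V → Bool}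
    {bn : V → Bool × Fin m} {G' : SimpleGraph W} {R : V ⊕ (Bool × Fin m) → W}
    {Gd : W → Bool → Finset W} {c₀ : V → ℕ} {t₀ : Sym2 V → ℕ}

theorem notVH (hy : Hy G d U pr fs bn G' R Gd c₀ t₀) {v : V} (hv : v ∉ U) :
    R (Sum.inl v) ∉ (mkX G d U pr bn G' R Gd c₀ t₀).VH := by
  rw [memVHF hy]
  exact fun h => hv (VH_U h)

theorem notS0 (hy : Hy G d U pr fs bn G' R Gd c₀ t₀) {v : V} (hv : v ∉ U) :
    R (Sum.inl v) ∉ (mkX G d U pr bn G' R Gd c₀ t₀).S0 := by
  rw [memS0F hy]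
  exact fun h => hv (LH_U h)

theorem Ks_card (hy : Hy G d U pr fs bn G' R Gd c₀ t₀) {v : V} (hv : v ∉ U) :
    (Ks G d U G' R (R (Sum.inl v))).card ≤ 2 := by
  rcases (Ks G d U G' R (R (Sum.inl v))).eq_empty_or_nonempty with h | ⟨u, hu⟩
  · rw [h]
    simp
  · have h1 : Ks G d U G' R (R (Sum.inl v)) ⊆ {u, pr u} := by
      intro u' hu'
      rw [mem_insert, mem_singleton]
      rcases Ks_two hy hv hu hu' with h2 | h2
      · exact Or.inl h2.symm
      · exact Or.inr h2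
    exact (card_le_card h1).trans card_le_two

/-- names of an exceptional vertex -/
theorem exc_sub (hy : Hy G d U pr fs bn G' R Gd c₀ t₀) (w : W)
    (hw : w ∉ (mkX G d U pr bn G' R Gd c₀ t₀).VH)
    (hw' : w ∉ (mkX G d U pr bn G' R Gd c₀ t₀).S0)
    (h : ∃ u ∈ Ks G d U G' R w, ∃ u' ∈ Ks G d U G' R w, u ≠ u' ∧
      ¬ ∃ v, v ∉ U ∧ w = R (Sum.inl v)) :
    w ∈ univ.filter (fun w => (∀ x, R x ≠ w) ∧ ∃ v ∈ VHs G d U, ∃ v' ∈ VHs G d U, v ≠ v' ∧
      G'.Adj (R (Sum.inl v)) w ∧ G'.Adj (R (Sum.inl v')) w) := by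
  obtain ⟨u, hu, u', hu', h1, h2⟩ := h
  rcases tri w hw hw' with h3 | ⟨v, hv, rfl⟩ | h3
  · exact absurd h3 h2
  · rw [Ks_LL hy hv] at hu
    exact absurd hu (notMem_empty _)
  · have h4 := Ks_new h3 hu
    have h5 := Ks_new h3 hu'
    exact mem_filter.2 ⟨mem_univ _, h3, u, h4.1, u', h5.1, h1, h4.2, h5.2⟩

theorem mem_Es {z w : W} {u : V} : u ∈ Es G d U pr bn R z w ↔
    u ∈ U ∧ u ∉ VHs G d U ∧ R (rep (LLs G d U pr) bn u) = z ∧
      ∃ v, v ∉ U ∧ w = R (Sum.inl v) ∧ G.Adj v u := mem_filter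

theorem Es_one (hy : Hy G d U pr fs bn G' R Gd c₀ t₀) {z w : W} {u u' : V}
    (hu : u ∈ Es G d U pr bn R z w) (hu' : u' ∈ Es G d U pr bn R z w) : u = u' := by
  rw [mem_Es] at hu hu'
  obtain ⟨_, _, h1, v, _, h2, h3⟩ := hu
  obtain ⟨_, _, h4, v', _, h5, h6⟩ := hu'
  obtain rfl := Fi hy (h2.symm.trans h5)
  exact rep_inj hy.h (fun x hx => LL_U hx) hy.bf h3 h6 (hy.B.Ri (h1.trans h4.symm))

theorem hp (hy : Hy G d U pr fs bn G' R Gd c₀ t₀) (hd : 40 ≤ d) (k : ℕ)
    (hk1 : (VHs G d U).card + 2 ≤ k) (hk2 : (S0i (m := m) (LHs G d U pr)).card ≤ k) :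
    HP k d G' (mkX G d U pr bn G' R Gd c₀ t₀) := by
  have h := hy.h
  have hS0 : ∀ z ∈ (mkX G d U pr bn G' R Gd c₀ t₀).S0,
      ∃ s ∈ S0i (m := m) (LHs G d U pr), R s = z := by
    intro z hz
    exact mem_image.1 hz
  have hexc := hy.B.exc
  constructor
  · -- VHk
    exact card_image_le.trans (by omega)
  · -- S0k
    exact card_image_le.trans hk2
  · -- dj
    rw [disjoint_left]
    intro w hw hw'
    obtain ⟨u, hu, rfl⟩ := memVH.1 hw
    rw [memS0F hy] at hw'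
    exact VH_LH hu hw'
  · -- HG
    intro x y hxy
    obtain ⟨u, hu, rfl, rfl, h1⟩ := (adjH hy).1 hxy
    refine (adjF hy).2 ⟨h.pra u hu, ?_, ?_⟩
    · rcases h1 with h1 | h1
      · exact VH_LL h1
      · exact pr_VH h hu h1
    · rcases h1 with h1 | h1
      · exact VH_pr h h1
      · exact VH_LL h1
  · -- Hm
    intro x y y' h1 h2
    obtain ⟨u, hu, rfl, rfl, _⟩ := (adjH hy).1 h1
    obtain ⟨u', hu', h3, rfl, _⟩ := (adjH hy).1 h2
    rw [Fi hy h3]
  · -- HV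
    intro x hx
    obtain ⟨u, hu, rfl⟩ := memVH.1 hx
    exact ⟨_, adjHF hy hu⟩
  · -- HS
    intro x y hxy
    obtain ⟨u, hu, rfl, rfl, h1⟩ := (adjH hy).1 hxy
    rw [memVHF hy, memS0F hy]
    rcases cls (G := G) (d := d) (pr := pr) u hu with h2 | h2 | h2
    · exact Or.inl h2
    · exact Or.inr h2
    · exfalso
      rcases h1 with h1 | h1
      · exact VH_LL h1 h2
      · exact pr_VH h hu h1 h2
  · -- HH
    intro x y hxy
    obtain ⟨u, hu, rfl, rfl, h1⟩ := (adjH hy).1 hxy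
    rw [memVHF hy, memVHF hy]
    exact h1
  · -- c0l
    intro x hx
    obtain ⟨u, hu, rfl⟩ := memVH.1 hx
    rw [c0F hy]
    exact hy.c u (VH_U hu)
  · -- h0l
    intro x y hxy
    obtain ⟨u, hu, rfl, rfl, h1⟩ := (adjH hy).1 hxy
    rw [h0F hy, h0F hy, h.prp u hu, Sym2.eq_swap (a := pr u)]
    exact ⟨hy.t u hu, rfl⟩
  · -- ch
    intro x hx
    obtain ⟨u, hu, rfl⟩ := memVH.1 hx
    rw [c0F hy, h0F hy]
    exact (hy.ct u (VH_U hu)).symm
  · -- cc
    intro x _ y _ hxy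
    obtain ⟨u, hu, rfl, rfl, h1⟩ := (adjH hy).1 hxy
    rw [c0F hy, c0F hy, p0F hy]
    exact ⟨hy.cc u hu, rfl⟩
  · -- VV
    intro x hx y hy' hxy
    obtain ⟨u, hu, rfl⟩ := memVH.1 hx
    have key : ∀ v, v ∈ U → y = R (Sum.inl v) →
        (mkX G d U pr bn G' R Gd c₀ t₀).H.Adj (R (Sum.inl u)) y := by
      rintro v hv rfl
      have h1 := ((adjF hy).1 hxy).1
      rw [h.d1 u (VH_U hu) v hv h1]
      exact adjHF hy hu
    rcases hy' with h1 | h1
    · obtain ⟨v, hv, rfl⟩ := memVH.1 h1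
      exact key v (VH_U hv) rfl
    · rcases memS0.1 h1 with ⟨v, hv, h2⟩ | ⟨b, h2⟩
      · exact key v (LH_U hv) h2
      · exfalso
        subst h2
        rw [hy.B.adj] at hxy
        obtain ⟨v', w', h3, h4, h5, h6⟩ := hxy
        obtain ⟨rfl, _⟩ := rep_eq_inl h5
        obtain ⟨_, h7⟩ := rep_eq_inr h6
        have h8 := h.d1 v' (VH_U hu) w' (LL_U h7) h3
        rw [h8] at h7
        exact VH_pr h hu h7
  · -- nml
    intro w x hx
    obtain ⟨u, hu, rfl⟩ := mem_image.1 (nm_sub w hx)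
    rw [mem_range]
    exact hy.c u (mem_Ks.1 hu).1
  · -- nmk
    intro w
    by_cases hw : w ∈ (mkX G d U pr bn G' R Gd c₀ t₀).VH ∨
      w ∈ (mkX G d U pr bn G' R Gd c₀ t₀).S0
    · rw [nm_in hw]
      simp
    · push Not at hw
      refine (card_le_card (nm_sub w)).trans (card_image_le.trans ?_)
      rcases tri w hw.1 hw.2 with ⟨v, hv, rfl⟩ | ⟨v, hv, rfl⟩ | h3
      · exact (Ks_card hy hv).trans (by omega)
      · rw [Ks_LL hy hv]
        simp
      · have h4 : Ks G d U G' R w ⊆ VHs G d U := fun u hu => (Ks_new h3 hu).1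
        exact (card_le_card h4).trans (by omega)
  · -- nm2
    refine (card_le_card ?_).trans (hexc.trans (by omega))
    intro w hw
    have h1 := (mem_filter.1 hw).2
    have hw1 : ¬ (w ∈ (mkX G d U pr bn G' R Gd c₀ t₀).VH ∨
        w ∈ (mkX G d U pr bn G' R Gd c₀ t₀).S0) := by
      intro h2
      rw [nm_in h2] at h1
      simp at h1
    push Not at hw1
    rw [nm_out hw1.1 hw1.2] at h1
    have h2 : 2 < (Ks G d U G' R w).card := lt_of_lt_of_le h1 card_image_le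
    obtain ⟨u, u', hu, hu', hne⟩ := (one_lt_card_iff.1 (by omega) :
      ∃ a b, a ∈ Ks G d U G' R w ∧ b ∈ Ks G d U G' R w ∧ a ≠ b)
    refine exc_sub hy w hw1.1 hw1.2 ⟨u, hu, u', hu', hne, ?_⟩
    rintro ⟨v, hv, rfl⟩
    have := Ks_card hy hv
    omega
  · -- nm0
    intro w hw
    exact nm_in hw
  · -- nmV
    intro x hx w hxw hw1 hw2
    obtain ⟨u, hu, rfl⟩ := memVH.1 hx
    rw [nm_out hw1 hw2, c0F hy]
    exact mem_image_of_mem _ (mem_Ks.2 ⟨VH_U hu, Or.inr ⟨hu, hxw⟩⟩)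
  · -- nmF
    intro w o ho
    have h1 : (mkX G d U pr bn G' R Gd c₀ t₀).nm w \
        o.image (mkX G d U pr bn G' R Gd c₀ t₀).c0 ⊆
        ((Ks G d U G' R w).filter (fun u => R (rep (LLs G d U pr) bn u) ∉ o)).image c₀ := by
      intro x hx
      rw [mem_sdiff] at hx
      obtain ⟨u, hu, rfl⟩ := mem_image.1 (nm_sub w hx.1)
      refine mem_image_of_mem _ (mem_filter.2 ⟨hu, fun h2 => hx.2 ?_⟩)
      obtain ⟨u', hu', h3⟩ := memVH.1 (ho h2)
      obtain ⟨rfl, h5⟩ := rep_eq_inl (hy.B.Ri h3).symm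
      refine mem_image.2 ⟨_, h2, ?_⟩
      rw [rep_out h5, c0F hy]
    refine (card_le_card h1).trans (card_image_le.trans ?_)
    refine card_le_card_of_injOn (fun u => R (rep (LLs G d U pr) bn u)) ?_ ?_
    · intro u hu
      rw [mem_coe, mem_filter] at hu
      exact mem_sdiff.2 ⟨rF hy hu.1, hu.2⟩
    · intro u hu u' hu' h2
      rw [mem_coe, mem_filter] at hu hu'
      exact rF_inj hy hu.1 hu'.1 h2
  · -- ht
    refine (card_le_card ?_).trans (hexc.trans (by omega))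
    intro w hw
    obtain ⟨x, hx, hxw, h2⟩ := (mem_filter.1 hw).2
    obtain ⟨u, hu, rfl⟩ := memVH.1 hx
    have hw1 : ¬ (w ∈ (mkX G d U pr bn G' R Gd c₀ t₀).VH ∨
        w ∈ (mkX G d U pr bn G' R Gd c₀ t₀).S0) := by
      intro h3
      rw [nm_in h3] at h2
      exact absurd h2 (notMem_empty _)
    push Not at hw1
    rw [h0F hy] at h2
    obtain ⟨u', hu', h3⟩ := mem_image.1 (nm_sub w h2)
    have huK : u ∈ Ks G d U G' R w := mem_Ks.2 ⟨VH_U hu, Or.inr ⟨hu, hxw⟩⟩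
    have hne : u ≠ u' := by
      rintro rfl
      exact hy.ct u (VH_U hu) h3.symm
    refine exc_sub hy w hw1.1 hw1.2 ⟨u, huK, u', hu', hne, ?_⟩
    rintro ⟨v, hv, rfl⟩
    rcases Ks_two hy hv huK hu' with h4 | h4
    · exact hne h4
    · have h5 := hy.ct (pr u) (h.prU u (VH_U hu))
      rw [h.prp u (VH_U hu), Sym2.eq_swap (a := pr u), ← h3, h4] at h5
      exact h5 rfl
  · -- real
    intro x hx
    obtain ⟨u, hu, rfl⟩ := memVH.1 hx
    have h1 : (nU G U u).image (fun v => R (Sum.inl v)) ⊆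
        (nb G' (R (Sum.inl u))).filter (fun w =>
          w ∉ (mkX G d U pr bn G' R Gd c₀ t₀).VH ∧ w ∉ (mkX G d U pr bn G' R Gd c₀ t₀).S0 ∧
          (mkX G d U pr bn G' R Gd c₀ t₀).nm w ⊆
            {(mkX G d U pr bn G' R Gd c₀ t₀).c0 (R (Sum.inl u)),
              (mkX G d U pr bn G' R Gd c₀ t₀).p0 (R (Sum.inl u))} ∧
          ∀ v' ∈ (mkX G d U pr bn G' R Gd c₀ t₀).VH, G'.Adj v' w →
            v' = R (Sum.inl u) ∨
              (mkX G d U pr bn G' R Gd c₀ t₀).H.Adj (R (Sum.inl u)) v') := by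
      intro w hw
      obtain ⟨v, hv, rfl⟩ := mem_image.1 hw
      rw [mem_nU] at hv
      have hvL : v ∉ LLs G d U pr := fun h => hv.2 (LL_U h)
      have hadj : G'.Adj (R (Sum.inl u)) (R (Sum.inl v)) :=
        (adjF hy).2 ⟨hv.1, VH_LL hu, hvL⟩
      have huK : u ∈ Ks G d U G' R (R (Sum.inl v)) :=
        mem_Ks.2 ⟨VH_U hu, Or.inr ⟨hu, hadj⟩⟩
      refine mem_filter.2 ⟨(mem_nb _ _ _).2 hadj, notVH hy hv.2, notS0 hy hv.2, ?_, ?_⟩
      · intro y hy'
        obtain ⟨u', hu', rfl⟩ := mem_image.1 (nm_sub _ hy')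
        rw [c0F hy, p0F hy, mem_insert, mem_singleton]
        rcases Ks_two hy hv.2 huK hu' with h2 | h2
        · rw [h2]
          exact Or.inl rfl
        · rw [h2]
          exact Or.inr rfl
      · intro x' hx' hx'w
        obtain ⟨u', hu', rfl⟩ := memVH.1 hx'
        have huK' : u' ∈ Ks G d U G' R (R (Sum.inl v)) :=
          mem_Ks.2 ⟨VH_U hu', Or.inr ⟨hu', hx'w⟩⟩
        rcases Ks_two hy hv.2 huK huK' with h2 | h2
        · left
          rw [h2]
        · right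
          rw [h2]
          exact adjHF hy hu
    have h2 := card_le_card h1
    rw [card_image_of_injective _ (Finj hy)] at h2
    have h3 := card_nU h u (VH_U hu)
    have h4 : d < 4 * (nb G u).card := (mem_filter.1 hu).2
    refine le_trans ?_ (Nat.mul_le_mul_left 5 h2)
    omega
  · -- ne2
    intro z _ w
    show (Es G d U pr bn R z w).biUnion (fun u => {c₀ u, t₀ s(u, pr u)}) ⊆ _ ∧ _
    constructor
    · intro x hx
      obtain ⟨u, hu, h1⟩ := mem_biUnion.1 hx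
      rw [mem_insert, mem_singleton] at h1
      rw [mem_range]
      rcases h1 with rfl | rfl
      · exact hy.c u (mem_Es.1 hu).1
      · exact hy.t u (mem_Es.1 hu).1
    · show ((Es G d U pr bn R z w).biUnion (fun u => {c₀ u, t₀ s(u, pr u)})).card ≤ 2
      rcases (Es G d U pr bn R z w).eq_empty_or_nonempty with h1 | ⟨u, hu⟩
      · rw [h1]
        simp
      · have h2 : (Es G d U pr bn R z w).biUnion (fun u => ({c₀ u, t₀ s(u, pr u)} : Finset ℕ)) ⊆
            {c₀ u, t₀ s(u, pr u)} := by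
          intro x hx
          obtain ⟨u', hu', h3⟩ := mem_biUnion.1 hx
          rwa [← Es_one hy hu hu'] at h3
        exact (card_le_card h2).trans card_le_two
  · -- neV
    intro z _ w hw
    show (Es G d U pr bn R z w).biUnion (fun u => {c₀ u, t₀ s(u, pr u)}) = ∅
    have h1 : Es G d U pr bn R z w = ∅ := by
      rw [eq_empty_iff_forall_notMem]
      intro u hu
      obtain ⟨_, _, _, v, h2, rfl, _⟩ := mem_Es.1 hu
      rcases hw with hw | hw
      · exact notVH hy h2 hw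
      · exact notS0 hy h2 hw
    rw [h1, biUnion_empty]
  · -- gd0
    intro z hz
    obtain ⟨s, hs, rfl⟩ := hS0 z hz
    exact hy.B.gd0 s hs
  · intro z hz i
    obtain ⟨s, hs, rfl⟩ := hS0 z hz
    exact hy.B.gd1 s hs i
  · intro z hz i
    obtain ⟨s, hs, rfl⟩ := hS0 z hz
    exact hy.B.gd2 s hs i
  · intro z hz i
    obtain ⟨s, hs, rfl⟩ := hS0 z hz
    exact hy.B.gd3 s hs i
  · intro z hz i x hx
    obtain ⟨s, hs, rfl⟩ := hS0 z hz
    obtain ⟨h1, h2⟩ := hy.B.gd4 s hs i x hx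
    have hx1 : x ∉ (mkX G d U pr bn G' R Gd c₀ t₀).VH := by
      intro h3
      obtain ⟨u, _, rfl⟩ := memVH.1 h3
      exact h1 _ rfl
    have hx2 : x ∉ (mkX G d U pr bn G' R Gd c₀ t₀).S0 := by
      intro h3
      rcases memS0.1 h3 with ⟨u, _, rfl⟩ | ⟨b, rfl⟩
      · exact h1 _ rfl
      · exact h1 _ rfl
    refine ⟨hx1, hx2, ?_, ?_⟩
    · have h3 : Ks G d U G' R x = ∅ := by
        rw [eq_empty_iff_forall_notMem]
        intro u hu
        have h4 := Ks_new h1 hu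
        exact h2 u h4.1 h4.2
      rw [nm_out hx1 hx2, h3, image_empty]
    · show (Es G d U pr bn R _ x).biUnion (fun u => {c₀ u, t₀ s(u, pr u)}) = ∅
      have h3 : Es G d U pr bn R (R s) x = ∅ := by
        rw [eq_empty_iff_forall_notMem]
        intro u hu
        obtain ⟨_, _, _, v, _, rfl, _⟩ := mem_Es.1 hu
        exact h1 _ rfl
      rw [h3, biUnion_empty]

end

end EMBAux

end Pool.Agent.Work.MP_db9399_da.helper99
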