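import Pool.Agent.Work.MP_db9399_da_helper99.EMBD

/-!
# MP_db9399, DENSE-ALL, phase 2, EMB2 part E: translation of TotH (helper99)
-/

set_option autoImplicit false

namespace Pool.Agent.Work.MP_db9399_da.helper99

open Finset Classical
open Pool.Agent.Work.MP_db9399_all (nb)
open Pool.Agent.Work.MP_db9399_da.helper62 (mem_nb)

universe u

namespace EMBAux

section
variable {V : Type u} [Fintype V] {m : ℕ} {W : Type u} [Fintype W]
variable {G : SimpleGraph V} {d : ℕ} {U : Finset V} {pr : V → V} {fs : V → Bool}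
    {bn : V → Bool × Fin m} {G' : SimpleGraph W} {R : V ⊕ (Bool × Fin m) → W}
    {Gd : W → Bool → Finset W} {c₀ : V → ℕ} {t₀ : Sym2 V → ℕ}

theorem tot_vertex (hy : Hy G d U pr fs bn G' R Gd c₀ t₀) {c : W → ℕ} {t : W → W → ℕ}
    (hT : TotH d G' (mkX G d U pr bn G' R Gd c₀ t₀) c t) {v w : V} (hv : v ∉ U) (hw : w ∉ U)
    (h : G.Adj v w) :
    c (R (rep (LLs G d U pr) bn v)) ≠ c (R (rep (LLs G d U pr) bn w)) := by
  have hvL : v ∉ LLs G d U pr := fun h => hv (LL_U h)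
  have hwL : w ∉ LLs G d U pr := fun h => hw (LL_U h)
  rw [rep_out hvL, rep_out hwL]
  exact hT.cc _ _ (notVH hy hv) (notVH hy hw) ((adjF hy).2 ⟨h, hvL, hwL⟩)

theorem tot_edge (hy : Hy G d U pr fs bn G' R Gd c₀ t₀) {c : W → ℕ} {t : W → W → ℕ}
    (hT : TotH d G' (mkX G d U pr bn G' R Gd c₀ t₀) c t) {u v : V} (hu : u ∈ U) (hv : v ∉ U)
    (h : G.Adj u v) :
    c (R (rep (LLs G d U pr) bn v)) ≠ c₀ u ∧
    t (R (rep (LLs G d U pr) bn u)) (R (rep (LLs G d U pr) bn v)) ≠ c₀ u ∧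
    t (R (rep (LLs G d U pr) bn u)) (R (rep (LLs G d U pr) bn v)) ≠ t₀ s(u, pr u) := by
  have hvL : v ∉ LLs G d U pr := fun h => hv (LL_U h)
  have hadj : G'.Adj (R (rep (LLs G d U pr) bn u)) (R (rep (LLs G d U pr) bn v)) :=
    (hy.B.adj _ _).2 (G0_adj h (fun h => hvL h.2))
  have huK : u ∈ Ks G d U G' R (R (Sum.inl v)) :=
    mem_Ks.2 ⟨hu, Or.inl ⟨v, hv, rfl, h.symm⟩⟩
  rw [rep_out hvL] at hadj ⊢
  refine ⟨?_, ?_⟩
  · intro h1
    refine hT.nm _ (notVH hy hv) ?_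
    rw [nm_out (notVH hy hv) (notS0 hy hv), h1]
    exact mem_image_of_mem _ huK
  · by_cases huV : u ∈ VHs G d U
    · rw [rep_out (VH_LL huV)] at hadj ⊢
      constructor
      · intro h1
        refine hT.tc _ _ hadj ?_
        rw [hT.cV _ ((memVHF hy).2 huV), c0F hy]
        exact h1
      · intro h1
        have h2 := hT.th _ _ (adjHF hy huV)
        rw [h0F hy] at h2
        have h3 : G'.Adj (R (Sum.inl u)) (R (Sum.inl (pr u))) :=
          (adjF hy).2 ⟨hy.h.pra u hu, VH_LL huV, VH_pr hy.h huV⟩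
        have h4 := hT.inj (R (Sum.inl u)) (mem_coe.2 ((mem_nb _ _ _).2 hadj))
          (mem_coe.2 ((mem_nb _ _ _).2 h3)) (h1.trans h2.symm)
        rw [Fi hy h4] at hv
        exact hv (hy.h.prU u hu)
    · have hz : R (rep (LLs G d U pr) bn u) ∈ (mkX G d U pr bn G' R Gd c₀ t₀).S0 := by
        rcases cls (G := G) (d := d) (pr := pr) u hu with h1 | h1 | h1
        · exact absurd h1 huV
        · rw [rep_out (LH_LL h1)]
          exact (memS0F hy).2 h1
        · rw [rep_in h1]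
          exact memS0.2 (Or.inr ⟨_, rfl⟩)
      have h1 := hT.ne _ hz _ hadj
      have h2 : u ∈ Es G d U pr bn R (R (rep (LLs G d U pr) bn u)) (R (Sum.inl v)) :=
        mem_Es.2 ⟨hu, huV, rfl, v, hv, rfl, h.symm⟩
      have h3 : ∀ x, x = c₀ u ∨ x = t₀ s(u, pr u) →
          x ∈ (mkX G d U pr bn G' R Gd c₀ t₀).ne (R (rep (LLs G d U pr) bn u))
            (R (Sum.inl v)) := by
        intro x hx
        refine mem_biUnion.2 ⟨u, h2, ?_⟩
        rw [mem_insert, mem_singleton]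
        exact hx
      exact ⟨fun h4 => h1 (h3 _ (Or.inl h4)), fun h4 => h1 (h3 _ (Or.inr h4))⟩

theorem tot_adj (hy : Hy G d U pr fs bn G' R Gd c₀ t₀) {v w : V} (h : G.Adj v w)
    (h' : ¬ (v ∈ U ∧ w ∈ U)) :
    G'.Adj (R (rep (LLs G d U pr) bn v)) (R (rep (LLs G d U pr) bn w)) :=
  (hy.B.adj _ _).2 (G0_adj h (fun h1 => h' ⟨LL_U h1.1, LL_U h1.2⟩))

theorem tot_inj (hy : Hy G d U pr fs bn G' R Gd c₀ t₀) {u v w : V} (h1 : G.Adj u v)
    (h2 : G.Adj u w)
    (h3 : R (rep (LLs G d U pr) bn v) = R (rep (LLs G d U pr) bn w)) : v = w :=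
  rep_inj hy.h (fun x hx => LL_U hx) hy.bf h1 h2 (hy.B.Ri h3)

end

/-- the bins -/
theorem bins {V : Type u} [Fintype V] {G : SimpleGraph V} {d : ℕ} {U : Finset V} {pr : V → V}
    {fs : V → Bool} (h : Mt G U pr fs) (m : ℕ) (hm : 0 < m)
    (hm2 : 4 * Fintype.card V ≤ m * d) :
    ∃ bn : V → Bool × Fin m, (∀ v, (bn v).1 = fs v) ∧
      ∀ b, 2 * ∑ u ∈ (LLs G d U pr).filter (fun u => bn u = b), (nU G U u).card ≤ d := by
  have hk : ∀ β : Bool, ∃ b : V → Fin m, ∀ j, 2 * ∑ u ∈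
      ((LLs G d U pr).filter (fun u => fs u = β)).filter (fun u => b u = j),
        (nU G U u).card ≤ d := by
    intro β
    refine binning _ (fun u => (nU G U u).card) d m (Fintype.card V) hm ?_ ?_ hm2
    · intro u hu
      have h1 := (mem_filter.1 hu).1
      have h2 := card_nU h u (LL_U h1)
      have h3 := (mem_filter.1 h1).2.1
      omega
    · exact sum_nU h _ ((filter_subset _ _).trans (fun u hu => LL_U hu)) β
        (fun u hu => (mem_filter.1 hu).2)
  choose b hb using hk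
  refine ⟨fun v => (fs v, b (fs v) v), fun v => rfl, ?_⟩
  rintro ⟨β, j⟩
  have h1 : (LLs G d U pr).filter (fun u => (fs u, b (fs u) u) = (β, j)) =
      ((LLs G d U pr).filter (fun u => fs u = β)).filter (fun u => b β u = j) := by
    ext u
    simp only [mem_filter, Prod.mk.injEq]
    constructor
    · rintro ⟨h2, rfl, h3⟩
      exact ⟨⟨h2, rfl⟩, h3⟩
    · rintro ⟨⟨h2, rfl⟩, h3⟩
      exact ⟨h2, rfl, h3⟩
  rw [h1]
  exact hb β j

/-- number of the single low ends -/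
theorem card_LH {V : Type u} [Fintype V] {G : SimpleGraph V} {d : ℕ} {U : Finset V} {pr : V → V}
    {fs : V → Bool} (h : Mt G U pr fs) : (LHs G d U pr).card ≤ (VHs G d U).card := by
  refine card_le_card_of_injOn pr ?_ ?_
  · intro u hu
    rw [mem_coe, LHs, mem_filter] at hu
    rw [mem_coe, VHs, mem_filter]
    exact ⟨h.prU u hu.1, hu.2.2⟩
  · intro u hu v hv huv
    rw [mem_coe] at hu hv
    rw [← h.prp u (LH_U hu), ← h.prp v (LH_U hv), huv]

end EMBAux

end Pool.Agent.Work.MP_db9399_da.helper99
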