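import Pool.Agent.Work.MP_db9399_da.Parts

/-!
# MP_db9399, DENSE-ALL: PARTS, part A: nodes and labels
-/

set_option autoImplicit false

namespace Pool.Agent.Work.MP_db9399_da.helper99

open Finset Classical
open Pool.Agent.Work.MP_db9399_all (nb)

universe u

namespace PA

variable {V : Type u} {M : ℕ}

/-- the index of the node of a vertex -/
noncomputable def op (P : Pcs V M) (v : V) : Option (Fin M × Bool) :=
  if v ∈ P.V0 then none else some (P.pc v, if P.ty (P.pc v) = Ty.B then P.sd v else false)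

/-- number of labels -/
def rq (P : Pcs V M) : Option (Fin M × Bool) → ℕ
  | none => 1
  | some (n, _) => match P.ty n with
    | Ty.E => 1
    | Ty.N => 4
    | Ty.B => 2
    | Ty.K => 6

/-- the new pieces -/
noncomputable def nP (P : Pcs V M) (lab : V → ℕ) : Pcs V M where
  V0 := P.V0
  pc := P.pc
  ty := P.ty
  rg := P.rg
  sd := fun v => if P.ty (P.pc v) = Ty.N then decide (2 ≤ lab v) else
    if P.ty (P.pc v) = Ty.K then decide (lab v % 2 = 1) else P.sd v
  pt := fun v => if P.ty (P.pc v) = Ty.N then decide (lab v % 2 = 1) else decide (lab v = 1)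
  th := fun v => if lab v / 2 = 0 then 0 else if lab v / 2 = 1 then 1 else 2

theorem rq_N (P : Pcs V M) {n : Fin M} (h : P.ty n = Ty.N) (b : Bool) : rq P (some (n, b)) = 4 := by
  simp only [rq, h]

theorem rq_B (P : Pcs V M) {n : Fin M} (h : P.ty n = Ty.B) (b : Bool) : rq P (some (n, b)) = 2 := by
  simp only [rq, h]

theorem rq_K (P : Pcs V M) {n : Fin M} (h : P.ty n = Ty.K) (b : Bool) : rq P (some (n, b)) = 6 := by
  simp only [rq, h]

theorem rq_E (P : Pcs V M) {n : Fin M} (h : P.ty n = Ty.E) (b : Bool) : rq P (some (n, b)) = 1 := by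
  simp only [rq, h]

theorem rq_pos (P : Pcs V M) (o : Option (Fin M × Bool)) : 1 ≤ rq P o ∧ rq P o ≤ 6 := by
  rcases o with _ | ⟨n, b⟩
  · simp [rq]
  · rcases h : P.ty n with _ | _ | _ | _
    · rw [rq_E P h]; omega
    · rw [rq_K P h]; omega
    · rw [rq_N P h]; omega
    · rw [rq_B P h]; omega

theorem op_iff (P : Pcs V M) (v : V) (n : Fin M) (b : Bool) :
    op P v = some (n, b) ↔ (v ∉ P.V0 ∧ P.pc v = n) ∧
      (if P.ty n = Ty.B then P.sd v else false) = b := by
  unfold op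
  by_cases h1 : v ∈ P.V0
  · rw [if_pos h1]
    constructor
    · intro h; exact absurd h (by simp)
    · rintro ⟨⟨h, -⟩, -⟩; exact absurd h1 h
  · rw [if_neg h1, Option.some.injEq, Prod.mk.injEq]
    constructor
    · rintro ⟨h2, h3⟩
      exact ⟨⟨h1, h2⟩, by rw [h2] at h3; exact h3⟩
    · rintro ⟨⟨-, h2⟩, h3⟩
      exact ⟨h2, by rw [h2]; exact h3⟩

theorem op_nB (P : Pcs V M) (v : V) (n : Fin M) (h : P.ty n ≠ Ty.B) :
    op P v = some (n, false) ↔ v ∉ P.V0 ∧ P.pc v = n := by
  rw [op_iff, if_neg h]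
  tauto

theorem op_B (P : Pcs V M) (v : V) (n : Fin M) (b : Bool) (h : P.ty n = Ty.B) :
    op P v = some (n, b) ↔ v ∉ P.V0 ∧ P.pc v = n ∧ P.sd v = b := by
  rw [op_iff, if_pos h]
  tauto

/-! ### The bulk graph does not change -/

theorem sd_B (P : Pcs V M) (lab : V → ℕ) (v : V) (h : P.ty (P.pc v) = Ty.B) :
    (nP P lab).sd v = P.sd v := by
  simp [nP, h]

theorem bulk_eq (G : SimpleGraph V) (P : Pcs V M) (lab : V → ℕ) : bulk G (nP P lab) = bulk G P := by
  ext v w
  show (G.Adj v w ∧ v ∉ P.V0 ∧ w ∉ P.V0 ∧ P.pc v = P.pc w ∧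
    (P.ty (P.pc v) = Ty.B → (nP P lab).sd v ≠ (nP P lab).sd w)) ↔
    (G.Adj v w ∧ v ∉ P.V0 ∧ w ∉ P.V0 ∧ P.pc v = P.pc w ∧
    (P.ty (P.pc v) = Ty.B → P.sd v ≠ P.sd w))
  constructor
  · rintro ⟨h1, h2, h3, h4, h5⟩
    refine ⟨h1, h2, h3, h4, fun hB => ?_⟩
    have := h5 hB
    rwa [sd_B P lab v hB, sd_B P lab w (h4 ▸ hB)] at this
  · rintro ⟨h1, h2, h3, h4, h5⟩
    refine ⟨h1, h2, h3, h4, fun hB => ?_⟩
    have := h5 hB
    rwa [sd_B P lab v hB, sd_B P lab w (h4 ▸ hB)]

theorem thin_eq (G : SimpleGraph V) (P : Pcs V M) (lab : V → ℕ) : thin G (nP P lab) = thin G P := by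
  ext v w
  show (G.Adj v w ∧ ¬ (bulk G (nP P lab)).Adj v w) ↔ (G.Adj v w ∧ ¬ (bulk G P).Adj v w)
  rw [bulk_eq]

theorem bk_eq (G : SimpleGraph V) (P : Pcs V M) (lab : V → ℕ) (n : Fin M) :
    bk G (nP P lab) n = bk G P n :=
  congrArg (fun H : SimpleGraph V => H.comap (fun v : Ts P n => v.1)) (bulk_eq G P lab)

variable [Fintype V]

theorem sV_B (P : Pcs V M) (lab : V → ℕ) (n : Fin M) (β : Bool) (h : P.ty n = Ty.B) :
    sV (nP P lab) n β = sV P n β := by
  unfold sV
  ext v
  rw [Finset.mem_filter, Finset.mem_filter]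
  show (v ∈ univ ∧ v ∉ P.V0 ∧ P.pc v = n ∧ (nP P lab).sd v = β) ↔ _
  constructor
  · rintro ⟨h0, h1, h2, h3⟩
    rw [sd_B P lab v (h2 ▸ h)] at h3
    exact ⟨h0, h1, h2, h3⟩
  · rintro ⟨h0, h1, h2, h3⟩
    rw [sd_B P lab v (h2 ▸ h)]
    exact ⟨h0, h1, h2, h3⟩

theorem pV_eq (P : Pcs V M) (lab : V → ℕ) (n : Fin M) : pV (nP P lab) n = pV P n := rfl

theorem decP (C g ρ ζ θ : ℝ) (G : SimpleGraph V) (d : ℕ) (P : Pcs V M) (lab : V → ℕ)
    (H : DecP C g ρ ζ θ G d P) : DecP C g ρ ζ θ G d (nP P lab) where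
  reg := H.reg
  siz := H.siz
  V0c := H.V0c
  thd := by
    rw [thin_eq]; exact H.thd
  ths := by
    rw [thin_eq]; exact H.ths
  emp := H.emp
  kL := H.kL
  kU := H.kU
  hubK := H.hubK
  hubB := by
    intro n β hn z hz hr
    rw [sV_B P lab n β hn]
    exact H.hubB n β hn z hz hr
  out := by
    intro n β hn z hz hr
    rw [sV_B P lab n β hn]
    exact H.out n β hn z hz hr
  rgd := by
    intro z hz n β hr
    obtain ⟨h1, h2⟩ := H.rgd z hz n β hr
    refine ⟨h1, ?_⟩
    rw [sV_B P lab n β h1]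
    exact h2
  rgs := H.rgs
  nL := H.nL
  n4 := H.n4
  bal := by
    intro n hn
    rw [sV_B P lab n _ hn, sV_B P lab n _ hn]
    exact H.bal n hn
  cut := by
    intro n hn S
    rw [bk_eq]
    exact H.cut n hn S
  nbi := by
    intro n hn S
    rw [bk_eq]
    exact H.nbi n hn S

/-! ### Classes -/

/-- the node -/
noncomputable def nS (P : Pcs V M) (o : Option (Fin M × Bool)) : Finset V :=
  univ.filter (fun v => op P v = o)

/-- the class -/
noncomputable def cS (P : Pcs V M) (lab : V → ℕ) (o : Option (Fin M × Bool)) (i : ℕ) : Finset V :=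
  univ.filter (fun v => op P v = o ∧ lab v = i)

theorem nS_nB (P : Pcs V M) (n : Fin M) (h : P.ty n ≠ Ty.B) : nS P (some (n, false)) = pV P n := by
  unfold nS pV
  ext v
  simp only [Finset.mem_filter, Finset.mem_univ, true_and]
  exact op_nB P v n h

theorem nS_B (P : Pcs V M) (n : Fin M) (β : Bool) (h : P.ty n = Ty.B) :
    nS P (some (n, β)) = sV P n β := by
  unfold nS sV
  ext v
  simp only [Finset.mem_filter, Finset.mem_univ, true_and]
  exact op_B P v n β h

/-- number of the label of type N -/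
def nl (β i : Bool) : ℕ := 2 * β.toNat + i.toNat

theorem cS_N (P : Pcs V M) (lab : V → ℕ) (hlab : ∀ v, lab v < rq P (op P v)) (n : Fin M)
    (h : P.ty n = Ty.N) (β i : Bool) :
    cS P lab (some (n, false)) (nl β i) = qV (nP P lab) n β i := by
  unfold cS qV
  ext v
  simp only [Finset.mem_filter, Finset.mem_univ, true_and]
  show (op P v = some (n, false) ∧ lab v = nl β i) ↔
    (v ∉ P.V0 ∧ P.pc v = n ∧ (nP P lab).sd v = β ∧ (nP P lab).pt v = i)
  rw [op_nB P v n (by rw [h]; decide)]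
  by_cases hv : v ∉ P.V0 ∧ P.pc v = n
  · have h1 : lab v < 4 := by
      have := hlab v
      rw [(op_nB P v n (by rw [h]; decide)).2 hv, rq_N P h] at this
      exact this
    have h2 : P.ty (P.pc v) = Ty.N := by rw [hv.2]; exact h
    have h3 : (nP P lab).sd v = decide (2 ≤ lab v) := by simp [nP, h2]
    have h4 : (nP P lab).pt v = decide (lab v % 2 = 1) := by simp [nP, h2]
    rw [h3, h4]
    have h5 : (lab v = nl β i) ↔ (decide (2 ≤ lab v) = β ∧ decide (lab v % 2 = 1) = i) := by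
      obtain ⟨k, hk⟩ : ∃ k, k = lab v := ⟨_, rfl⟩
      rw [← hk] at h1 ⊢
      unfold nl
      interval_cases k <;> cases β <;> cases i <;> decide
    rw [h5]
    tauto
  · tauto

theorem cS_B (P : Pcs V M) (lab : V → ℕ) (hlab : ∀ v, lab v < rq P (op P v)) (n : Fin M)
    (h : P.ty n = Ty.B) (β i : Bool) :
    cS P lab (some (n, β)) i.toNat = qV (nP P lab) n β i := by
  unfold cS qV
  ext v
  simp only [Finset.mem_filter, Finset.mem_univ, true_and]
  show (op P v = some (n, β) ∧ lab v = i.toNat) ↔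
    (v ∉ P.V0 ∧ P.pc v = n ∧ (nP P lab).sd v = β ∧ (nP P lab).pt v = i)
  rw [op_B P v n β h]
  by_cases hv : v ∉ P.V0 ∧ P.pc v = n
  · have h2 : P.ty (P.pc v) = Ty.B := by rw [hv.2]; exact h
    have h3 : (nP P lab).sd v = P.sd v := sd_B P lab v h2
    have h4 : (nP P lab).pt v = decide (lab v = 1) := by simp [nP, h2]
    rw [h3, h4]
    by_cases h6 : P.sd v = β
    · have h1 : lab v < 2 := by
        have := hlab v
        rw [(op_B P v n β h).2 ⟨hv.1, hv.2, h6⟩, rq_B P h] at this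
        exact this
      have h5 : (lab v = i.toNat) ↔ (decide (lab v = 1) = i) := by
        obtain ⟨k, hk⟩ : ∃ k, k = lab v := ⟨_, rfl⟩
        rw [← hk] at h1 ⊢
        interval_cases k <;> cases i <;> decide
      rw [h5]
      tauto
    · tauto
  · tauto

/-- the third and the half of type K -/
theorem cS_K (P : Pcs V M) (lab : V → ℕ) (hlab : ∀ v, lab v < rq P (op P v)) (n : Fin M)
    (h : P.ty n = Ty.K) (l : Fin 3) (i : Bool) :
    cS P lab (some (n, false)) (2 * l.val + i.toNat) =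
      univ.filter (fun v => v ∉ P.V0 ∧ P.pc v = n ∧ (nP P lab).th v = l ∧ (nP P lab).sd v = i) := by
  unfold cS
  ext v
  simp only [Finset.mem_filter, Finset.mem_univ, true_and]
  rw [op_nB P v n (by rw [h]; decide)]
  by_cases hv : v ∉ P.V0 ∧ P.pc v = n
  · have h1 : lab v < 6 := by
      have := hlab v
      rw [(op_nB P v n (by rw [h]; decide)).2 hv, rq_K P h] at this
      exact this
    have h2 : P.ty (P.pc v) = Ty.K := by rw [hv.2]; exact h
    have h3 : (nP P lab).sd v = decide (lab v % 2 = 1) := by simp [nP, h2]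
    have h4 : (nP P lab).th v = if lab v / 2 = 0 then 0 else if lab v / 2 = 1 then 1 else 2 := rfl
    rw [h3, h4]
    have h5 : (lab v = 2 * l.val + i.toNat) ↔
        ((if lab v / 2 = 0 then (0 : Fin 3) else if lab v / 2 = 1 then 1 else 2) = l ∧
          decide (lab v % 2 = 1) = i) := by
      obtain ⟨k, hk⟩ : ∃ k, k = lab v := ⟨_, rfl⟩
      rw [← hk] at h1 ⊢
      interval_cases k <;> fin_cases l <;> cases i <;> decide
    rw [h5]
    tauto
  · tauto

theorem tV_K (P : Pcs V M) (lab : V → ℕ) (hlab : ∀ v, lab v < rq P (op P v)) (n : Fin M)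
    (h : P.ty n = Ty.K) (l : Fin 3) :
    tV (nP P lab) n l = cS P lab (some (n, false)) (2 * l.val) ∪
      cS P lab (some (n, false)) (2 * l.val + 1) := by
  have h1 := cS_K P lab hlab n h l false
  have h2 := cS_K P lab hlab n h l true
  simp only [Bool.toNat_false, Bool.toNat_true, add_zero] at h1 h2
  rw [h1, h2]
  unfold tV
  ext v
  simp only [Finset.mem_filter, Finset.mem_univ, true_and, Finset.mem_union]
  show (v ∉ P.V0 ∧ P.pc v = n ∧ (nP P lab).th v = l) ↔ _
  cases hb : (nP P lab).sd v <;> simp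

theorem cS_disj (P : Pcs V M) (lab : V → ℕ) (o : Option (Fin M × Bool)) {i j : ℕ} (h : i ≠ j) :
    Disjoint (cS P lab o i) (cS P lab o j) := by
  rw [Finset.disjoint_left]
  intro v h1 h2
  unfold cS at h1 h2
  rw [Finset.mem_filter] at h1 h2
  exact h (h1.2.2.symm.trans h2.2.2)

end PA

end Pool.Agent.Work.MP_db9399_da.helper99
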