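import Pool.Agent.Work.MP_db9399_da_helper99.PA

/-!
# MP_db9399, DENSE-ALL: PARTS, part B: PartL
-/

set_option autoImplicit false

namespace Pool.Agent.Work.MP_db9399_da.helper99

open Finset Classical
open Pool.Agent.Work.MP_db9399_all (nb)

universe u

namespace PA

variable {V : Type u} {M : ℕ}

/-- type N -/
def GoodN (G : SimpleGraph V) (P : Pcs V M) [Fintype V] (d : ℕ) (ρ' ι : ℝ) (n : Fin M) (Mn : ℕ)
    (cl : Ts P n → Fin Mn) : Prop :=
  ∀ sd pt : Ts P n → Bool,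
    (∀ m β i, |(((qtr sd pt β i).filter (fun v => cl v = m)).card : ℝ) -
      ((univ : Finset (Ts P n)).filter (fun v => cl v = m)).card / 4| ≤ ι * d) →
    (∀ u β i, |((nb (bk G P n) u ∩ qtr sd pt β i).card : ℝ) -
      (nb (bk G P n) u).card / 4| ≤ ι * d) →
    ∀ i, ∀ S ⊆ prt pt i, ρ' * S.card * (prt pt i \ S).card ≤
      ∑ v ∈ S, (((nb (bk G P n) v \ S) ∩ qtr sd pt (!(sd v)) i).card : ℝ)

/-- type B -/
def GoodB (G : SimpleGraph V) (P : Pcs V M) [Fintype V] (d : ℕ) (ρ' ι : ℝ) (n : Fin M) (Mn : ℕ)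
    (cl : Ts P n → Fin Mn) : Prop :=
  ∀ pt : Ts P n → Bool,
    (∀ m β i, |(((qtr (sdn P n) pt β i).filter (fun v => cl v = m)).card : ℝ) -
      ((sid (sdn P n) β).filter (fun v => cl v = m)).card / 2| ≤ ι * d) →
    (∀ u i, |((nb (bk G P n) u ∩ prt pt i).card : ℝ) - (nb (bk G P n) u).card / 2| ≤ ι * d) →
    ∀ i, ∀ S ⊆ prt pt i, ρ' * S.card * (prt pt i \ S).card ≤
      ∑ v ∈ S, (((nb (bk G P n) v \ S) ∩ qtr (sdn P n) pt (!(sdn P n v)) i).card : ℝ)

variable [Fintype V]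

/-- a class of a piece as a set of vertices of the whole graph -/
noncomputable def cset (P : Pcs V M) (n : Fin M) (cl : Ts P n → ℕ) (m : ℕ) : Finset V :=
  univ.filter (fun v => ∃ h : v ∉ P.V0 ∧ P.pc v = n, cl ⟨v, h⟩ = m)

theorem ts_card (P : Pcs V M) (n : Fin M) (A : Finset (Ts P n)) (B : Finset V)
    (h1 : ∀ v : Ts P n, v ∈ A ↔ v.1 ∈ B) (h2 : ∀ v ∈ B, v ∉ P.V0 ∧ P.pc v = n) :
    A.card = B.card := by
  rw [← Finset.card_map ⟨Subtype.val, Subtype.val_injective⟩]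
  congr 1
  ext v
  rw [Finset.mem_map]
  constructor
  · rintro ⟨w, hw, rfl⟩
    exact (h1 w).1 hw
  · intro hv
    exact ⟨⟨v, h2 v hv⟩, (h1 _).2 hv, rfl⟩

theorem mem_nb (G : SimpleGraph V) (v w : V) : w ∈ nb G v ↔ G.Adj v w := by
  unfold nb; simp

theorem adj_nB (G : SimpleGraph V) (P : Pcs V M) (n : Fin M) (h : P.ty n ≠ Ty.B) (v w : Ts P n) :
    (bk G P n).Adj v w ↔ G.Adj v.1 w.1 := by
  show (G.Adj v.1 w.1 ∧ v.1 ∉ P.V0 ∧ w.1 ∉ P.V0 ∧ P.pc v.1 = P.pc w.1 ∧
    (P.ty (P.pc v.1) = Ty.B → P.sd v.1 ≠ P.sd w.1)) ↔ _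
  constructor
  · exact fun h' => h'.1
  · intro h'
    exact ⟨h', v.2.1, w.2.1, v.2.2.trans w.2.2.symm, fun hB => absurd (v.2.2 ▸ hB) h⟩

theorem adj_B (G : SimpleGraph V) (P : Pcs V M) (n : Fin M) (h : P.ty n = Ty.B) (v w : Ts P n) :
    (bk G P n).Adj v w ↔ G.Adj v.1 w.1 ∧ P.sd v.1 ≠ P.sd w.1 := by
  show (G.Adj v.1 w.1 ∧ v.1 ∉ P.V0 ∧ w.1 ∉ P.V0 ∧ P.pc v.1 = P.pc w.1 ∧
    (P.ty (P.pc v.1) = Ty.B → P.sd v.1 ≠ P.sd w.1)) ↔ _
  constructor
  · rintro ⟨h1, -, -, -, h5⟩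
    exact ⟨h1, h5 (by rw [v.2.2]; exact h)⟩
  · rintro ⟨h1, h2⟩
    exact ⟨h1, v.2.1, w.2.1, v.2.2.trans w.2.2.symm, fun _ => h2⟩

theorem mem_pV (P : Pcs V M) (n : Fin M) (v : V) : v ∈ pV P n ↔ v ∉ P.V0 ∧ P.pc v = n := by
  unfold pV; simp

theorem mem_sV (P : Pcs V M) (n : Fin M) (β : Bool) (v : V) :
    v ∈ sV P n β ↔ v ∉ P.V0 ∧ P.pc v = n ∧ P.sd v = β := by
  unfold sV; simp

theorem mem_qV (P : Pcs V M) (n : Fin M) (β i : Bool) (v : V) :
    v ∈ qV P n β i ↔ v ∉ P.V0 ∧ P.pc v = n ∧ P.sd v = β ∧ P.pt v = i := by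
  unfold qV; simp

theorem mem_qtr {W : Type u} [Fintype W] (sd pt : W → Bool) (β i : Bool) (v : W) :
    v ∈ qtr sd pt β i ↔ sd v = β ∧ pt v = i := by
  unfold qtr; simp

theorem mem_prt {W : Type u} [Fintype W] (pt : W → Bool) (i : Bool) (v : W) :
    v ∈ prt pt i ↔ pt v = i := by
  unfold prt; simp

theorem mem_sid {W : Type u} [Fintype W] (sd : W → Bool) (i : Bool) (v : W) :
    v ∈ sid sd i ↔ sd v = i := by
  unfold sid; simp

/-- number of vertices of a piece -/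
theorem card_Ts (P : Pcs V M) (n : Fin M) : Fintype.card (Ts P n) = (pV P n).card := by
  rw [← Finset.card_univ]
  exact ts_card P n univ (pV P n) (fun v => by
    rw [mem_pV]; exact ⟨fun _ => v.2, fun _ => Finset.mem_univ _⟩) (fun v hv => (mem_pV P n v).1 hv)

theorem card_qtr (P : Pcs V M) (n : Fin M) (β i : Bool) :
    (qtr (sdn P n) (ptn P n) β i).card = (qV P n β i).card :=
  ts_card P n _ _ (fun v => by
    rw [mem_qtr, mem_qV]
    exact ⟨fun h => ⟨v.2.1, v.2.2, h.1, h.2⟩, fun h => ⟨h.2.2.1, h.2.2.2⟩⟩)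
    (fun v hv => ⟨((mem_qV P n β i v).1 hv).1, ((mem_qV P n β i v).1 hv).2.1⟩)

/-- neighbours in the bulk, type N -/
theorem card_nbN (G : SimpleGraph V) (P : Pcs V M) (n : Fin M) (h : P.ty n ≠ Ty.B) (v : Ts P n) :
    (nb (bk G P n) v).card = (nb G v.1 ∩ pV P n).card :=
  ts_card P n _ _ (fun w => by
    rw [mem_nb, adj_nB G P n h, Finset.mem_inter, mem_nb, mem_pV]
    exact ⟨fun h => ⟨h, w.2⟩, fun h => h.1⟩)
    (fun w hw => (mem_pV P n w).1 (Finset.mem_inter.1 hw).2)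

theorem card_nbB (G : SimpleGraph V) (P : Pcs V M) (n : Fin M) (h : P.ty n = Ty.B) (v : Ts P n) :
    (nb (bk G P n) v).card = (nb G v.1 ∩ sV P n (!(P.sd v.1))).card :=
  ts_card P n _ _ (fun w => by
    rw [mem_nb, adj_B G P n h, Finset.mem_inter, mem_nb, mem_sV, Bool.eq_not]
    exact ⟨fun h => ⟨h.1, w.2.1, w.2.2, fun h' => h.2 h'.symm⟩,
      fun h => ⟨h.1, fun h' => h.2.2.2 h'.symm⟩⟩)
    (fun w hw => by
      have := (mem_sV P n _ w).1 (Finset.mem_inter.1 hw).2
      exact ⟨this.1, this.2.1⟩)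

theorem card_nbqN (G : SimpleGraph V) (P : Pcs V M) (n : Fin M) (h : P.ty n ≠ Ty.B) (v : Ts P n)
    (sd pt : V → Bool) (A : Finset V) (β i : Bool)
    (hA : ∀ w, w ∈ A ↔ w ∉ P.V0 ∧ P.pc w = n ∧ sd w = β ∧ pt w = i) :
    (nb (bk G P n) v ∩ qtr (fun w : Ts P n => sd w.1) (fun w : Ts P n => pt w.1) β i).card =
      (nb G v.1 ∩ A).card :=
  ts_card P n _ _ (fun w => by
    rw [Finset.mem_inter, mem_nb, adj_nB G P n h, Finset.mem_inter, mem_nb, mem_qtr, hA]
    exact ⟨fun h => ⟨h.1, w.2.1, w.2.2, h.2.1, h.2.2⟩, fun h => ⟨h.1, h.2.2.2.1, h.2.2.2.2⟩⟩)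
    (fun w hw => by
      have := (hA w).1 (Finset.mem_inter.1 hw).2
      exact ⟨this.1, this.2.1⟩)

theorem card_nbpB (G : SimpleGraph V) (P : Pcs V M) (n : Fin M) (h : P.ty n = Ty.B) (v : Ts P n)
    (pt : V → Bool) (A : Finset V) (i : Bool)
    (hA : ∀ w, w ∈ A ↔ w ∉ P.V0 ∧ P.pc w = n ∧ P.sd w = (!(P.sd v.1)) ∧ pt w = i) :
    (nb (bk G P n) v ∩ prt (fun w : Ts P n => pt w.1) i).card = (nb G v.1 ∩ A).card :=
  ts_card P n _ _ (fun w => by
    rw [Finset.mem_inter, mem_nb, adj_B G P n h, Finset.mem_inter, mem_nb, mem_prt, hA,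
      Bool.eq_not]
    exact ⟨fun h => ⟨h.1.1, w.2.1, w.2.2, fun h' => h.1.2 h'.symm, h.2⟩,
      fun h => ⟨⟨h.1, fun h' => h.2.2.2.1 h'.symm⟩, h.2.2.2.2⟩⟩)
    (fun w hw => by
      have := (hA w).1 (Finset.mem_inter.1 hw).2
      exact ⟨this.1, this.2.1⟩)

/-- degree in the bulk -/
theorem deg_bk (C g ρ ζ θ : ℝ) (G : SimpleGraph V) (d : ℕ) (P : Pcs V M)
    (H : DecP C g ρ ζ θ G d P) (n : Fin M) (v : Ts P n) :
    (nb (bk G P n) v).card ≤ d ∧ (1 - ζ) * d ≤ ((nb (bk G P n) v).card : ℝ) := by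
  have h1 : (nb (bk G P n) v).card = (nb G v.1 \ nb (thin G P) v.1).card := by
    refine ts_card P n _ _ (fun w => ?_) (fun w hw => ?_)
    · rw [mem_nb, Finset.mem_sdiff, mem_nb, mem_nb]
      show (bulk G P).Adj v.1 w.1 ↔ G.Adj v.1 w.1 ∧ ¬ (G.Adj v.1 w.1 ∧ ¬ (bulk G P).Adj v.1 w.1)
      constructor
      · intro h
        exact ⟨h.1, fun h' => h'.2 h⟩
      · rintro ⟨h, h'⟩
        by_contra hc
        exact h' ⟨h, hc⟩
    · rw [Finset.mem_sdiff, mem_nb, mem_nb] at hw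
      have hb : (bulk G P).Adj v.1 w := by
        by_contra hc
        exact hw.2 ⟨hw.1, hc⟩
      exact ⟨hb.2.2.1, hb.2.2.2.1.symm.trans v.2.2⟩
  have h2 := H.reg v.1
  constructor
  · rw [h1, ← h2]
    exact Finset.card_le_card Finset.sdiff_subset
  · have h3 := Finset.le_card_sdiff (nb (thin G P) v.1) (nb G v.1)
    rw [← h1, h2] at h3
    have h4 := H.thd v.1 v.2.1
    have h5 : (d : ℝ) ≤ (nb (bk G P n) v).card + (nb (thin G P) v.1).card := by
      exact_mod_cast (by omega : d ≤ (nb (bk G P n) v).card + (nb (thin G P) v.1).card)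
    linarith

/-- The facts about the labels. -/
structure LF (G : SimpleGraph V) (P : Pcs V M) (d : ℕ) (δ L K W : ℝ) (I : Finset (Finset V))
    (T : SimpleGraph V) (w : V → ℝ) (lab : V → ℕ) : Prop where
  lt : ∀ v, lab v < rq P (op P v)
  siz : ∀ o, ∀ i < rq P o, (cS P lab o i).card = ((nS P o).card + (rq P o - 1 - i)) / rq P o
  spl : ∀ A ∈ I, ∀ o, ∀ i < rq P o,
    |((A ∩ cS P lab o i).card : ℝ) - (A ∩ nS P o).card / rq P o| ≤ δ * d
  edg : ∀ o o', L ≤ (eb T (nS P o) (nS P o') : ℝ) → ∀ i < rq P o, ∀ i' < rq P o',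
    |(eb T (cS P lab o i) (cS P lab o' i') : ℝ) -
      eb T (nS P o) (nS P o') / (rq P o * rq P o')| ≤
        (eb T (nS P o) (nS P o') : ℝ) / 1000
  bad : ∑ z ∈ P.V0, ∑ o, (if ∃ i < rq P o, ((nb G z ∩ nS P o).card : ℝ) / 1000 <
      |((nb G z ∩ cS P lab o i).card : ℝ) - (nb G z ∩ nS P o).card / rq P o|
      then ((nb G z ∩ nS P o).card : ℝ) else 0) ≤ K * P.V0.card
  wt : ∀ o, ∀ i < rq P o, ∀ i' < rq P o,
    |∑ v ∈ cS P lab o i, w v - ∑ v ∈ cS P lab o i', w v| ≤ 10 ^ 6 * W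

theorem partL (C g ρ ζ θ : ℝ) (G : SimpleGraph V) (d : ℕ) (P : Pcs V M)
    (H : DecP C g ρ ζ θ G d P) (δ L K W : ℝ) (I : Finset (Finset V))
    (T : SimpleGraph V) (w : V → ℝ) (lab : V → ℕ) (F : LF G P d δ L K W I T w lab)
    (hInb : ∀ v, nb G v ∈ I) (ρ' ι ε : ℝ) (Mn : ℕ) (hδι : δ ≤ ι) (hδ : δ ≤ ε / 2) (hζ : ζ ≤ ε)
    (hd : 1 ≤ ε * d)
    (cl : ∀ n, Ts P n → ℕ) (hcl : ∀ n, ∀ m < Mn, cset P n (cl n) m ∈ I)
    (hN : ∀ n, P.ty n = Ty.N → ∃ (k : ℕ) (c : Ts P n → Fin k), k ≤ Mn ∧ (∀ v, (c v : ℕ) = cl n v) ∧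
      GoodN G P d ρ' ι n k c)
    (hB : ∀ n, P.ty n = Ty.B → ∃ (k : ℕ) (c : Ts P n → Fin k), k ≤ Mn ∧ (∀ v, (c v : ℕ) = cl n v) ∧
      GoodB G P d ρ' ι n k c) :
    PartL ρ' ε G d (nP P lab) := by
  have hd0 : (0 : ℝ) ≤ d := Nat.cast_nonneg _
  have hδd : δ * d ≤ ι * d := mul_le_mul_of_nonneg_right hδι hd0
  -- type N
  have qN : ∀ n, P.ty n = Ty.N → ∀ A ∈ I, ∀ β i,
      |((A ∩ qV (nP P lab) n β i).card : ℝ) - (A ∩ pV P n).card / 4| ≤ δ * d := by
    intro n hn A hA β i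
    have h1 := F.spl A hA (some (n, false)) (nl β i)
      (by rw [rq_N P hn]; unfold nl; cases β <;> cases i <;> decide)
    rw [rq_N P hn, cS_N P lab F.lt n hn, nS_nB P n (by rw [hn]; decide)] at h1
    exact_mod_cast h1
  have qB : ∀ n, P.ty n = Ty.B → ∀ A ∈ I, ∀ β i,
      |((A ∩ qV (nP P lab) n β i).card : ℝ) - (A ∩ sV P n β).card / 2| ≤ δ * d := by
    intro n hn A hA β i
    have h1 := F.spl A hA (some (n, β)) i.toNat
      (by rw [rq_B P hn]; cases i <;> decide)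
    rw [rq_B P hn, cS_B P lab F.lt n hn, nS_B P n β hn] at h1
    exact_mod_cast h1
  have sdB : ∀ n, P.ty n = Ty.B → sdn (nP P lab) n = sdn P n := by
    intro n hn
    funext v
    exact sd_B P lab v.1 (by rw [show P.pc v.1 = n from v.2.2]; exact hn)
  refine ⟨?_, ?_, ?_, ?_, ?_, ?_, ?_⟩
  · -- cutP
    intro n hn
    replace hn : P.ty n = Ty.N ∨ P.ty n = Ty.B := hn
    rw [bk_eq]
    rcases hn with hn | hn
    · obtain ⟨k, c, hk, hc, hg⟩ := hN n hn
      refine hg (fun v : Ts P n => (nP P lab).sd v.1) (fun v : Ts P n => (nP P lab).pt v.1) ?_ ?_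
      · intro m β i
        have h1 := qN n hn _ (hcl n m (lt_of_lt_of_le m.2 hk)) β i
        have h2 : ((qtr (fun v : Ts P n => (nP P lab).sd v.1) (fun v : Ts P n => (nP P lab).pt v.1)
            β i).filter (fun v => c v = m)).card =
              (cset P n (cl n) m ∩ qV (nP P lab) n β i).card := by
          refine ts_card P n _ _ (fun v => ?_) (fun v hv => ?_)
          · rw [Finset.mem_filter, mem_qtr, Finset.mem_inter, mem_qV]
            unfold cset
            rw [Finset.mem_filter]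
            constructor
            · rintro ⟨⟨h3, h4⟩, h5⟩
              exact ⟨⟨Finset.mem_univ _, v.2, by rw [← hc, h5]⟩, v.2.1, v.2.2, h3, h4⟩
            · rintro ⟨⟨-, h3, h4⟩, -, -, h5, h6⟩
              exact ⟨⟨h5, h6⟩, Fin.ext (by rw [hc]; exact h4)⟩
          · have := (mem_qV _ n β i v).1 (Finset.mem_inter.1 hv).2
            exact ⟨this.1, this.2.1⟩
        have h3 : ((univ : Finset (Ts P n)).filter (fun v => c v = m)).card =
            (cset P n (cl n) m ∩ pV P n).card := by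
          refine ts_card P n _ _ (fun v => ?_) (fun v hv => ?_)
          · rw [Finset.mem_filter, Finset.mem_inter, mem_pV]
            unfold cset
            rw [Finset.mem_filter]
            constructor
            · rintro ⟨-, h5⟩
              exact ⟨⟨Finset.mem_univ _, v.2, by rw [← hc, h5]⟩, v.2⟩
            · rintro ⟨⟨-, h3, h4⟩, -⟩
              exact ⟨Finset.mem_univ _, Fin.ext (by rw [hc]; exact h4)⟩
          · exact (mem_pV _ n v).1 (Finset.mem_inter.1 hv).2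
        rw [← h2, ← h3] at h1
        exact h1.trans hδd
      · intro v β i
        have h1 := qN n hn _ (hInb v.1) β i
        rw [← card_nbqN G P n (by rw [hn]; decide) v (nP P lab).sd (nP P lab).pt _ β i
          (fun w => mem_qV (nP P lab) n β i w), ← card_nbN G P n (by rw [hn]; decide) v] at h1
        exact h1.trans hδd
    · obtain ⟨k, c, hk, hc, hg⟩ := hB n hn
      rw [sdB n hn]
      refine hg (fun v : Ts P n => (nP P lab).pt v.1) ?_ ?_
      · intro m β i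
        have h1 := qB n hn _ (hcl n m (lt_of_lt_of_le m.2 hk)) β i
        have h2 : ((qtr (sdn P n) (fun v : Ts P n => (nP P lab).pt v.1) β i).filter
            (fun v => c v = m)).card = (cset P n (cl n) m ∩ qV (nP P lab) n β i).card := by
          refine ts_card P n _ _ (fun v => ?_) (fun v hv => ?_)
          · have h7 : (nP P lab).sd v.1 = P.sd v.1 :=
              sd_B P lab v.1 (by rw [show P.pc v.1 = n from v.2.2]; exact hn)
            rw [Finset.mem_filter, mem_qtr, Finset.mem_inter, mem_qV, h7]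
            unfold cset
            rw [Finset.mem_filter]
            constructor
            · rintro ⟨⟨h3, h4⟩, h5⟩
              exact ⟨⟨Finset.mem_univ _, v.2, by rw [← hc, h5]⟩, v.2.1, v.2.2, h3, h4⟩
            · rintro ⟨⟨-, h3, h4⟩, -, -, h5, h6⟩
              exact ⟨⟨h5, h6⟩, Fin.ext (by rw [hc]; exact h4)⟩
          · have := (mem_qV _ n β i v).1 (Finset.mem_inter.1 hv).2
            exact ⟨this.1, this.2.1⟩
        have h3 : ((sid (sdn P n) β).filter (fun v => c v = m)).card =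
            (cset P n (cl n) m ∩ sV P n β).card := by
          refine ts_card P n _ _ (fun v => ?_) (fun v hv => ?_)
          · rw [Finset.mem_filter, Finset.mem_inter, mem_sid, mem_sV]
            unfold cset
            rw [Finset.mem_filter]
            constructor
            · rintro ⟨h4, h5⟩
              exact ⟨⟨Finset.mem_univ _, v.2, by rw [← hc, h5]⟩, v.2.1, v.2.2, h4⟩
            · rintro ⟨⟨-, h3, h4⟩, -, -, h5⟩
              exact ⟨h5, Fin.ext (by rw [hc]; exact h4)⟩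
          · have := (mem_sV _ n β v).1 (Finset.mem_inter.1 hv).2
            exact ⟨this.1, this.2.1⟩
        rw [← h2, ← h3] at h1
        exact h1.trans hδd
      · intro v i
        have h1 := qB n hn _ (hInb v.1) (!(P.sd v.1)) i
        rw [← card_nbpB G P n hn v (nP P lab).pt _ i (fun w => by
          rw [mem_qV]
          constructor
          · rintro ⟨h3, h4, h5, h6⟩
            rw [sd_B P lab w (by rw [show P.pc w = n from h4]; exact hn)] at h5
            exact ⟨h3, h4, h5, h6⟩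
          · rintro ⟨h3, h4, h5, h6⟩
            refine ⟨h3, h4, ?_, h6⟩
            rw [sd_B P lab w (by rw [show P.pc w = n from h4]; exact hn)]
            exact h5), ← card_nbB G P n hn v] at h1
        exact h1.trans hδd
  · -- nS
    intro n hn β i
    replace hn : P.ty n = Ty.N := hn
    have h1 := F.siz (some (n, false)) (nl β i)
      (by rw [rq_N P hn]; unfold nl; cases β <;> cases i <;> decide)
    rw [rq_N P hn, cS_N P lab F.lt n hn, nS_nB P n (by rw [hn]; decide), ← card_Ts] at h1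
    have h2 := H.n4 n hn
    have h3 : (qtr (sdn (nP P lab) n) (ptn (nP P lab) n) β i).card = _ := card_qtr (nP P lab) n β i
    rw [h3, h1]
    show 4 * ((Fintype.card (Ts P n) + (4 - 1 - nl β i)) / 4) = Fintype.card (Ts P n)
    have h4 : nl β i ≤ 3 := by unfold nl; cases β <;> cases i <;> decide
    omega
  · -- nD
    intro n hn v β i
    replace hn : P.ty n = Ty.N := hn
    change Ts P n at v
    rw [bk_eq]
    have h1 := qN n hn _ (hInb v.1) β i
    rw [← card_nbqN G P n (by rw [hn]; decide) v (nP P lab).sd (nP P lab).pt _ β i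
      (fun w => mem_qV (nP P lab) n β i w), ← card_nbN G P n (by rw [hn]; decide) v] at h1
    obtain ⟨h2, h3⟩ := deg_bk C g ρ ζ θ G d P H n v
    have h2' : ((nb (bk G P n) v).card : ℝ) ≤ d := by exact_mod_cast h2
    have h4 : δ * d ≤ ε / 2 * d := mul_le_mul_of_nonneg_right hδ hd0
    have h5 : ζ * d ≤ ε * d := mul_le_mul_of_nonneg_right hζ hd0
    rw [abs_le] at h1 ⊢
    constructor
    · have := h1.1
      show -(ε * d) ≤ ((nb (bk G P n) v ∩ qtr (fun w : Ts P n => (nP P lab).sd w.1)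
        (fun w : Ts P n => (nP P lab).pt w.1) β i).card : ℝ) - d / 4
      linarith
    · have := h1.2
      show ((nb (bk G P n) v ∩ qtr (fun w : Ts P n => (nP P lab).sd w.1)
        (fun w : Ts P n => (nP P lab).pt w.1) β i).card : ℝ) - d / 4 ≤ ε * d
      linarith
  · -- bB
    intro n hn i
    replace hn : P.ty n = Ty.B := hn
    have h0 := H.bal n hn
    have h1 := F.siz (some (n, false)) i.toNat (by rw [rq_B P hn]; cases i <;> decide)
    have h2 := F.siz (some (n, true)) i.toNat (by rw [rq_B P hn]; cases i <;> decide)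
    rw [rq_B P hn, cS_B P lab F.lt n hn, nS_B P n _ hn] at h1 h2
    have h3 : (qtr (sdn (nP P lab) n) (ptn (nP P lab) n) false i).card = _ :=
      card_qtr (nP P lab) n false i
    have h4 : (qtr (sdn (nP P lab) n) (ptn (nP P lab) n) true i).card = _ :=
      card_qtr (nP P lab) n true i
    rw [h3, h4, h1, h2, h0]
  · -- bS
    intro n hn i
    replace hn : P.ty n = Ty.B := hn
    have h1 := F.siz (some (n, false)) i.toNat (by rw [rq_B P hn]; cases i <;> decide)
    have h2 := F.siz (some (n, false)) (!i).toNat (by rw [rq_B P hn]; cases i <;> decide)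
    rw [rq_B P hn, cS_B P lab F.lt n hn, nS_B P n _ hn] at h1 h2
    have h3 : (qtr (sdn (nP P lab) n) (ptn (nP P lab) n) false i).card = _ :=
      card_qtr (nP P lab) n false i
    have h4 : (qtr (sdn (nP P lab) n) (ptn (nP P lab) n) false (!i)).card = _ :=
      card_qtr (nP P lab) n false (!i)
    rw [h3, h4, h1, h2]
    cases i <;> simp <;> omega
  · -- bD
    intro n hn v i
    replace hn : P.ty n = Ty.B := hn
    change Ts P n at v
    rw [bk_eq]
    have h1 := qB n hn _ (hInb v.1) (!(P.sd v.1)) i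
    rw [← card_nbpB G P n hn v (nP P lab).pt _ i (fun w => by
      rw [mem_qV]
      constructor
      · rintro ⟨h3, h4, h5, h6⟩
        rw [sd_B P lab w (by rw [show P.pc w = n from h4]; exact hn)] at h5
        exact ⟨h3, h4, h5, h6⟩
      · rintro ⟨h3, h4, h5, h6⟩
        refine ⟨h3, h4, ?_, h6⟩
        rw [sd_B P lab w (by rw [show P.pc w = n from h4]; exact hn)]
        exact h5), ← card_nbB G P n hn v] at h1
    obtain ⟨h2, h3⟩ := deg_bk C g ρ ζ θ G d P H n v
    have h2' : ((nb (bk G P n) v).card : ℝ) ≤ d := by exact_mod_cast h2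
    have h4 : δ * d ≤ ε / 2 * d := mul_le_mul_of_nonneg_right hδ hd0
    have h5 : ζ * d ≤ ε * d := mul_le_mul_of_nonneg_right hζ hd0
    rw [abs_le] at h1 ⊢
    constructor
    · have := h1.1
      show -(ε * d) ≤ ((nb (bk G P n) v ∩ prt (fun w : Ts P n => (nP P lab).pt w.1) i).card : ℝ) -
        d / 2
      linarith
    · have := h1.2
      show ((nb (bk G P n) v ∩ prt (fun w : Ts P n => (nP P lab).pt w.1) i).card : ℝ) -
        d / 2 ≤ ε * d
      linarith
  · -- kC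
    intro n hn l i
    replace hn : P.ty n = Ty.K := hn
    have h1 := F.siz (some (n, false)) (2 * l.val + i.toNat) (by
      rw [rq_K P hn]
      have := l.2
      cases i <;> simp <;> omega)
    have h2 : ((univ : Finset (Ts P n)).filter
        (fun v => (nP P lab).th v.1 = l ∧ (nP P lab).sd v.1 = i)).card =
        (cS P lab (some (n, false)) (2 * l.val + i.toNat)).card := by
      rw [cS_K P lab F.lt n hn]
      refine ts_card P n _ _ (fun v => ?_) (fun v hv => ?_)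
      · rw [Finset.mem_filter, Finset.mem_filter]
        exact ⟨fun h => ⟨Finset.mem_univ _, v.2.1, v.2.2, h.2.1, h.2.2⟩,
          fun h => ⟨Finset.mem_univ _, h.2.2.2.1, h.2.2.2.2⟩⟩
      · have := (Finset.mem_filter.1 hv).2
        exact ⟨this.1, this.2.1⟩
    have h2' : (MP_db9399_lt.cell (thn (nP P lab) n) (sdn (nP P lab) n) l i).card =
        (cS P lab (some (n, false)) (2 * l.val + i.toNat)).card := h2
    rw [rq_K P hn, nS_nB P n (by rw [hn]; decide), ← card_Ts] at h1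
    rw [h2', h1]
    show |(((Fintype.card (Ts P n) + (6 - 1 - (2 * l.val + i.toNat))) / 6 : ℕ) : ℝ) -
      (Fintype.card (Ts P n) : ℝ) / 6| ≤ ε * d
    obtain ⟨N, hNn⟩ : ∃ N, N = Fintype.card (Ts P n) := ⟨_, rfl⟩
    obtain ⟨q, hq⟩ : ∃ q, q = (N + (6 - 1 - (2 * l.val + i.toNat))) / 6 := ⟨_, rfl⟩
    rw [← hNn, ← hq]
    have h3 : 6 * q ≤ N + 5 := by omega
    have h4 : N ≤ 6 * q + 5 := by omega
    have h3' : 6 * (q : ℝ) ≤ N + 5 := by exact_mod_cast h3
    have h4' : (N : ℝ) ≤ 6 * q + 5 := by exact_mod_cast h4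
    rw [abs_le]
    constructor <;> linarith

end PA

end Pool.Agent.Work.MP_db9399_da.helper99
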