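import Pool.Agent.Work.MP_db9399_da_helper99.PB

/-!
# MP_db9399, DENSE-ALL: PARTS, part C: PartD
-/

set_option autoImplicit false

namespace Pool.Agent.Work.MP_db9399_da.helper99

open Finset Classical
open Pool.Agent.Work.MP_db9399_all (nb)

universe u

namespace PA

variable {V : Type u} {M : ℕ} [Fintype V]

/-- union of classes -/
noncomputable def cls (P : Pcs V M) (lab : V → ℕ) (o : Option (Fin M × Bool)) (A : Finset ℕ) :
    Finset V :=
  univ.filter (fun v => op P v = o ∧ lab v ∈ A)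

theorem mem_cls (P : Pcs V M) (lab : V → ℕ) (o : Option (Fin M × Bool)) (A : Finset ℕ) (v : V) :
    v ∈ cls P lab o A ↔ op P v = o ∧ lab v ∈ A := by
  unfold cls; simp

theorem mem_cS (P : Pcs V M) (lab : V → ℕ) (o : Option (Fin M × Bool)) (i : ℕ) (v : V) :
    v ∈ cS P lab o i ↔ op P v = o ∧ lab v = i := by
  unfold cS; simp

theorem mem_nS (P : Pcs V M) (o : Option (Fin M × Bool)) (v : V) :
    v ∈ nS P o ↔ op P v = o := by
  unfold nS; simp

/-- the node of a cell -/
noncomputable def on (P : Pcs V M) (n : Fin M) (β : Bool) : Option (Fin M × Bool) :=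
  some (n, if P.ty n = Ty.B then β else false)

/-- the classes of a cell -/
def Acl : Ty → Bool → Finset ℕ
  | Ty.E, _ => ∅
  | Ty.N, β => {2 * β.toNat, 2 * β.toNat + 1}
  | Ty.B, _ => {0, 1}
  | Ty.K, _ => Finset.range 6

/-- the classes of a label class of a cell -/
def Bcl : Ty → Bool → Fin 3 → Finset ℕ
  | Ty.E, _, _ => ∅
  | Ty.N, β, i => {2 * β.toNat + i.val}
  | Ty.B, _, i => {i.val}
  | Ty.K, _, i => {2 * i.val, 2 * i.val + 1}

theorem cel_eq (P : Pcs V M) (hE : ∀ n, P.ty n = Ty.E → IsEmpty (Ts P n)) (lab : V → ℕ)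
    (hlab : ∀ v, lab v < rq P (op P v)) (n : Fin M) (β : Bool) :
    cel (nP P lab) n β = cls P lab (on P n β) (Acl (P.ty n) β) := by
  ext v
  rw [mem_cls]
  unfold cel on
  change (v ∈ if P.ty n = Ty.K then pV (nP P lab) n else sV (nP P lab) n β) ↔ _
  rcases h : P.ty n with _ | _ | _ | _
  · -- E
    rw [if_neg (by decide), if_neg (by decide)]
    have hcon : ¬ (v ∉ P.V0 ∧ P.pc v = n) := fun h' => (hE n h).false ⟨v, h'⟩
    constructor
    · intro h'
      rw [mem_sV] at h'
      exact absurd ⟨h'.1, h'.2.1⟩ hcon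
    · rintro ⟨-, h'⟩
      exact absurd h' (by simp [Acl])
  · -- K
    rw [if_pos rfl, if_neg (by decide), mem_pV, op_nB P v n (by rw [h]; decide)]
    constructor
    · intro h'
      refine ⟨h', ?_⟩
      have := hlab v
      rw [(op_nB P v n (by rw [h]; decide)).2 h', rq_K P h] at this
      simpa [Acl] using this
    · exact fun h' => h'.1
  · -- N
    rw [if_neg (by decide), if_neg (by decide), mem_sV, op_nB P v n (by rw [h]; decide)]
    by_cases hv : v ∉ P.V0 ∧ P.pc v = n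
    · have h1 : lab v < 4 := by
        have := hlab v
        rw [(op_nB P v n (by rw [h]; decide)).2 hv, rq_N P h] at this
        exact this
      have h2 : P.ty (P.pc v) = Ty.N := by rw [hv.2]; exact h
      have h3 : (nP P lab).sd v = decide (2 ≤ lab v) := by simp [nP, h2]
      rw [h3]
      have h5 : (lab v ∈ Acl Ty.N β) ↔ (decide (2 ≤ lab v) = β) := by
        obtain ⟨k, hk⟩ : ∃ k, k = lab v := ⟨_, rfl⟩
        rw [← hk] at h1 ⊢
        interval_cases k <;> cases β <;> decide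
      rw [h5]
      constructor
      · rintro ⟨h6, h7, h8⟩
        exact ⟨⟨h6, h7⟩, h8⟩
      · rintro ⟨⟨h6, h7⟩, h8⟩
        exact ⟨h6, h7, h8⟩
    · constructor
      · rintro ⟨h6, h7, h8⟩
        exact absurd ⟨h6, h7⟩ hv
      · rintro ⟨h6, -⟩
        exact absurd h6 hv
  · -- B
    rw [if_neg (by decide), if_pos rfl, sV_B P lab n β h, mem_sV, op_B P v n β h]
    constructor
    · intro h'
      refine ⟨h', ?_⟩
      have := hlab v
      rw [(op_B P v n β h).2 h', rq_B P h] at this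
      obtain ⟨k, hk⟩ : ∃ k, k = lab v := ⟨_, rfl⟩
      rw [← hk] at this ⊢
      interval_cases k <;> cases β <;> decide
    · exact fun h' => h'.1

theorem clb_eq (P : Pcs V M) (hE : ∀ n, P.ty n = Ty.E → IsEmpty (Ts P n)) (lab : V → ℕ)
    (hlab : ∀ v, lab v < rq P (op P v)) (n : Fin M) (β : Bool) (i : Fin 3)
    (hi : i.val < rr (nP P lab) n) :
    clb (nP P lab) n β i = cls P lab (on P n β) (Bcl (P.ty n) β i) := by
  unfold clb
  rw [cel_eq P hE lab hlab n β]
  ext v
  rw [Finset.mem_filter, mem_cls, mem_cls]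
  have hi' : i.val < if P.ty n = Ty.K then 3 else 2 := hi
  unfold on
  unfold lbl
  change ((_ ∧ _) ∧ (if P.ty (P.pc v) = Ty.K then (nP P lab).th v else
    if (nP P lab).pt v then (1 : Fin 3) else 0) = i) ↔ _
  by_cases ho : op P v = some (n, if P.ty n = Ty.B then β else false)
  · have hv := (op_iff P v n _).1 ho
    have hl := hlab v
    rw [ho] at hl
    rw [hv.1.2]
    have h4 : (nP P lab).th v = if lab v / 2 = 0 then 0 else if lab v / 2 = 1 then 1 else 2 := rfl
    rcases h : P.ty n with _ | _ | _ | _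
    · exact ((hE n h).false ⟨v, hv.1⟩).elim
    · -- K
      rw [rq_K P h] at hl
      rw [h4, if_pos rfl]
      have h5 : (lab v ∈ Acl Ty.K β ∧
          (if lab v / 2 = 0 then (0 : Fin 3) else if lab v / 2 = 1 then 1 else 2) = i) ↔
          lab v ∈ Bcl Ty.K β i := by
        obtain ⟨k, hk⟩ : ∃ k, k = lab v := ⟨_, rfl⟩
        rw [← hk] at hl ⊢
        interval_cases k <;> fin_cases i <;> cases β <;> decide
      rw [and_assoc, h5]
    · -- N
      rw [rq_N P h] at hl
      have h2 : P.ty (P.pc v) = Ty.N := by rw [hv.1.2]; exact h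
      have h3 : (nP P lab).pt v = decide (lab v % 2 = 1) := by simp [nP, h2]
      have hs : (if (2 : ℕ) ≤ lab v then true else false) = decide (2 ≤ lab v) := by
        by_cases h6 : 2 ≤ lab v <;> simp [h6]
      rw [if_neg (by rw [h]; decide)] at hi'
      rw [if_neg (by decide : ¬ (Ty.N = Ty.K)), h3]
      have h5 : (lab v ∈ Acl Ty.N β ∧
          (if decide (lab v % 2 = 1) = true then (1 : Fin 3) else 0) = i) ↔
          lab v ∈ Bcl Ty.N β i := by
        obtain ⟨k, hk⟩ : ∃ k, k = lab v := ⟨_, rfl⟩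
        rw [← hk] at hl ⊢
        interval_cases k <;> fin_cases i <;> cases β <;>
          first | decide | (exfalso; revert hi'; decide)
      rw [and_assoc, h5]
    · -- B
      rw [rq_B P h] at hl
      have h2 : P.ty (P.pc v) = Ty.B := by rw [hv.1.2]; exact h
      have h3 : (nP P lab).pt v = decide (lab v = 1) := by simp [nP, h2]
      rw [if_neg (by rw [h]; decide)] at hi'
      rw [if_neg (by decide : ¬ (Ty.B = Ty.K)), h3]
      have h5 : (lab v ∈ Acl Ty.B β ∧
          (if decide (lab v = 1) = true then (1 : Fin 3) else 0) = i) ↔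
          lab v ∈ Bcl Ty.B β i := by
        obtain ⟨k, hk⟩ : ∃ k, k = lab v := ⟨_, rfl⟩
        rw [← hk] at hl ⊢
        interval_cases k <;> fin_cases i <;> cases β <;>
          first | decide | (exfalso; revert hi'; decide)
      rw [and_assoc, h5]
  · tauto

/-! ### Additivity -/

theorem card_cls (P : Pcs V M) (lab : V → ℕ) (o : Option (Fin M × Bool)) (A : Finset ℕ)
    (S : Finset V) : (S ∩ cls P lab o A).card = ∑ c ∈ A, (S ∩ cS P lab o c).card := by
  rw [Finset.card_eq_sum_card_fiberwise (f := lab) (t := A)]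
  · refine Finset.sum_congr rfl (fun c hc => ?_)
    congr 1
    ext v
    rw [Finset.mem_filter, Finset.mem_inter, Finset.mem_inter, mem_cls, mem_cS]
    constructor
    · rintro ⟨⟨h1, h2, h3⟩, h4⟩
      exact ⟨h1, h2, h4⟩
    · rintro ⟨h1, h2, h4⟩
      exact ⟨⟨h1, h2, by rw [h4]; exact hc⟩, h4⟩
  · intro v hv
    have := (Finset.mem_inter.1 (Finset.mem_coe.1 hv)).2
    rw [mem_cls] at this
    exact this.2

theorem sum_cls (P : Pcs V M) (lab : V → ℕ) (o : Option (Fin M × Bool)) (A : Finset ℕ)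
    (f : V → ℝ) : ∑ v ∈ cls P lab o A, f v = ∑ c ∈ A, ∑ v ∈ cS P lab o c, f v := by
  rw [← Finset.sum_fiberwise_of_maps_to (g := lab) (t := A)]
  · refine Finset.sum_congr rfl (fun c hc => ?_)
    refine Finset.sum_congr ?_ (fun _ _ => rfl)
    ext v
    rw [Finset.mem_filter, mem_cls, mem_cS]
    constructor
    · rintro ⟨⟨h2, h3⟩, h4⟩
      exact ⟨h2, h4⟩
    · rintro ⟨h2, h4⟩
      exact ⟨⟨h2, by rw [h4]; exact hc⟩, h4⟩
  · intro v hv
    rw [mem_cls] at hv
    exact hv.2

theorem eb_cls (T : SimpleGraph V) (P : Pcs V M) (lab : V → ℕ) (o o' : Option (Fin M × Bool))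
    (A A' : Finset ℕ) : (eb T (cls P lab o A) (cls P lab o' A') : ℝ) =
      ∑ c ∈ A, ∑ c' ∈ A', (eb T (cS P lab o c) (cS P lab o' c') : ℝ) := by
  unfold eb
  push_cast
  rw [sum_cls]
  refine Finset.sum_congr rfl (fun c _ => ?_)
  rw [Finset.sum_comm]
  refine Finset.sum_congr rfl (fun v _ => ?_)
  rw [card_cls]
  push_cast
  rfl

/-- the sum over classes of numbers which are almost equal -/
theorem sum_near (A : Finset ℕ) (f : ℕ → ℝ) (x η : ℝ) (h : ∀ c ∈ A, |f c - x| ≤ η) :
    |∑ c ∈ A, f c - A.card * x| ≤ A.card * η := by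
  have h1 : ∑ c ∈ A, f c - A.card * x = ∑ c ∈ A, (f c - x) := by
    rw [Finset.sum_sub_distrib, Finset.sum_const, nsmul_eq_mul]
  rw [h1]
  calc |∑ c ∈ A, (f c - x)| ≤ ∑ c ∈ A, |f c - x| := Finset.abs_sum_le_sum_abs _ _
    _ ≤ ∑ _c ∈ A, η := Finset.sum_le_sum h
    _ = A.card * η := by rw [Finset.sum_const, nsmul_eq_mul]

theorem sum_near2 (A A' : Finset ℕ) (f : ℕ → ℕ → ℝ) (x η : ℝ)
    (h : ∀ c ∈ A, ∀ c' ∈ A', |f c c' - x| ≤ η) :
    |∑ c ∈ A, ∑ c' ∈ A', f c c' - A.card * (A'.card * x)| ≤ A.card * (A'.card * η) :=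
  sum_near A (fun c => ∑ c' ∈ A', f c c') (A'.card * x) (A'.card * η)
    (fun c hc => sum_near A' (f c) x η (h c hc))

/-- the thin graph outside `V0` -/
def tG (G : SimpleGraph V) (P : Pcs V M) : SimpleGraph V where
  Adj v w := (thin G P).Adj v w ∧ v ∉ P.V0 ∧ w ∉ P.V0
  symm := ⟨fun _ _ h => ⟨h.1.symm, h.2.2, h.2.1⟩⟩
  loopless := ⟨fun v h => (thin G P).loopless.irrefl v h.1⟩

theorem eb_tG (G : SimpleGraph V) (P : Pcs V M) (A B : Finset V) (hA : ∀ v ∈ A, v ∉ P.V0)
    (hB : ∀ v ∈ B, v ∉ P.V0) : eb (thin G P) A B = eb (tG G P) A B := by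
  unfold eb
  refine Finset.sum_congr rfl (fun v hv => ?_)
  congr 1
  ext w
  rw [Finset.mem_inter, Finset.mem_inter, mem_nb, mem_nb]
  constructor
  · rintro ⟨h1, h2⟩
    exact ⟨⟨h1, hA v hv, hB w h2⟩, h2⟩
  · rintro ⟨h1, h2⟩
    exact ⟨h1.1, h2⟩

theorem deg_tG (C g ρ ζ θ : ℝ) (G : SimpleGraph V) (d : ℕ) (P : Pcs V M) (hζ : 0 ≤ ζ)
    (H : DecP C g ρ ζ θ G d P) (v : V) : ((nb (tG G P) v).card : ℝ) ≤ ζ * d := by
  by_cases hv : v ∈ P.V0
  · have : nb (tG G P) v = ∅ := by
      ext w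
      rw [mem_nb]
      constructor
      · intro h; exact absurd hv h.2.1
      · intro h; exact absurd h (Finset.notMem_empty _)
    rw [this, Finset.card_empty]
    push_cast
    positivity
  · refine le_trans ?_ (H.thd v hv)
    have : nb (tG G P) v ⊆ nb (thin G P) v := by
      intro w hw
      rw [mem_nb] at hw ⊢
      exact hw.1
    exact_mod_cast Finset.card_le_card this

theorem cls_V0 (P : Pcs V M) (lab : V → ℕ) (n : Fin M) (b : Bool) (A : Finset ℕ) :
    ∀ v ∈ cls P lab (some (n, b)) A, v ∉ P.V0 := by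
  intro v hv
  rw [mem_cls, op_iff] at hv
  exact hv.1.1.1

/-! ### Numbers of classes -/

omit [Fintype V] in
theorem Acl_lt (P : Pcs V M) (n : Fin M) (β : Bool) : ∀ c ∈ Acl (P.ty n) β, c < rq P (on P n β) := by
  intro c hc
  unfold on
  rcases h : P.ty n with _ | _ | _ | _
  · rw [h] at hc; simp [Acl] at hc
  · rw [h] at hc
    rw [rq_K P h]
    simpa [Acl] using hc
  · rw [h] at hc
    rw [rq_N P h]
    have h1 : c = 2 * β.toNat ∨ c = 2 * β.toNat + 1 := by simpa [Acl] using hc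
    cases β <;> simp at h1 <;> omega
  · rw [h] at hc
    rw [rq_B P h]
    have h1 : c = 0 ∨ c = 1 := by simpa [Acl] using hc
    omega

omit [Fintype V] in
theorem Bcl_lt (P : Pcs V M) (lab : V → ℕ) (n : Fin M) (β : Bool) (i : Fin 3)
    (hi : i.val < rr (nP P lab) n) : ∀ c ∈ Bcl (P.ty n) β i, c < rq P (on P n β) := by
  have hi' : i.val < if P.ty n = Ty.K then 3 else 2 := hi
  intro c hc
  unfold on
  rcases h : P.ty n with _ | _ | _ | _
  · rw [h] at hc; simp [Bcl] at hc
  · rw [h] at hc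
    rw [rq_K P h]
    rw [h, if_pos rfl] at hi'
    have h1 : c = 2 * i.val ∨ c = 2 * i.val + 1 := by simpa [Bcl] using hc
    omega
  · rw [h] at hc
    rw [rq_N P h]
    rw [h, if_neg (by decide)] at hi'
    have h1 : c = 2 * β.toNat + i.val := by simpa [Bcl] using hc
    cases β <;> simp at h1 <;> omega
  · rw [h] at hc
    rw [rq_B P h]
    rw [h, if_neg (by decide)] at hi'
    have h1 : c = i.val := by simpa [Bcl] using hc
    omega

theorem cls_sub (P : Pcs V M) (lab : V → ℕ) (o : Option (Fin M × Bool)) (A : Finset ℕ) :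
    cls P lab o A ⊆ nS P o := by
  intro v hv
  rw [mem_cls] at hv
  rw [mem_nS]
  exact hv.1

omit [Fintype V] in
/-- the numbers: classes in a cell, classes in a label class, all classes of the node -/
theorem nums (P : Pcs V M) (lab : V → ℕ) (n : Fin M) (β : Bool) (i : Fin 3) :
    ((Acl (P.ty n) β).card = 0 ∧ (Bcl (P.ty n) β i).card = 0 ∧ rq P (on P n β) = 1 ∧
      rr (nP P lab) n = 2) ∨
    ((Acl (P.ty n) β).card = 6 ∧ (Bcl (P.ty n) β i).card = 2 ∧ rq P (on P n β) = 6 ∧
      rr (nP P lab) n = 3) ∨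
    ((Acl (P.ty n) β).card = 2 ∧ (Bcl (P.ty n) β i).card = 1 ∧ rq P (on P n β) = 4 ∧
      rr (nP P lab) n = 2) ∨
    ((Acl (P.ty n) β).card = 2 ∧ (Bcl (P.ty n) β i).card = 1 ∧ rq P (on P n β) = 2 ∧
      rr (nP P lab) n = 2) := by
  have hr : rr (nP P lab) n = if P.ty n = Ty.K then 3 else 2 := rfl
  unfold on
  rcases h : P.ty n with _ | _ | _ | _
  · left
    refine ⟨by simp [Acl], by simp [Bcl], by rw [rq_E P h], by rw [hr, h]; rfl⟩
  · right; left
    refine ⟨by simp [Acl], ?_, by rw [rq_K P h], by rw [hr, h]; rfl⟩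
    show ({2 * i.val, 2 * i.val + 1} : Finset ℕ).card = 2
    rw [Finset.card_pair (by omega)]
  · right; right; left
    refine ⟨?_, by simp [Bcl], by rw [rq_N P h], by rw [hr, h]; rfl⟩
    show ({2 * β.toNat, 2 * β.toNat + 1} : Finset ℕ).card = 2
    rw [Finset.card_pair (by omega)]
  · right; right; right
    refine ⟨by simp [Acl], by simp [Bcl], by rw [rq_B P h], by rw [hr, h]; rfl⟩

end PA

end Pool.Agent.Work.MP_db9399_da.helper99
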