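import Pool.Agent.Work.MP_db9399_da_helper99.PC

/-!
# MP_db9399, DENSE-ALL: PARTS, part D: PartD
-/

set_option autoImplicit false

namespace Pool.Agent.Work.MP_db9399_da.helper99

open Finset Classical
open Pool.Agent.Work.MP_db9399_all (nb)

universe u

namespace PA

variable {V : Type u} {M : ℕ} [Fintype V]

theorem eb_mono (T : SimpleGraph V) {A A' B B' : Finset V} (hA : A ⊆ A') (hB : B ⊆ B') :
    eb T A B ≤ eb T A' B' := by
  unfold eb
  calc ∑ v ∈ A, (nb T v ∩ B).card ≤ ∑ v ∈ A, (nb T v ∩ B').card :=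
        Finset.sum_le_sum (fun v _ => Finset.card_le_card (Finset.inter_subset_inter_left hB))
    _ ≤ ∑ v ∈ A', (nb T v ∩ B').card :=
        Finset.sum_le_sum_of_subset_of_nonneg hA (fun _ _ _ => Nat.zero_le _)

variable {G : SimpleGraph V} {P : Pcs V M} {d : ℕ} {δ L K3 W : ℝ} {I : Finset (Finset V)}
  {T : SimpleGraph V} {w : V → ℝ} {lab : V → ℕ}

/-- numbers of a set in the classes, in the cell and in the label class -/
theorem one_dim (hE : ∀ n, P.ty n = Ty.E → IsEmpty (Ts P n)) (hlab : ∀ v, lab v < rq P (op P v))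
    (S : Finset V) (n : Fin M) (β : Bool) (i : Fin 3) (hi : i.val < rr (nP P lab) n) (η : ℝ)
    (h : ∀ c < rq P (on P n β), |((S ∩ cS P lab (on P n β) c).card : ℝ) -
      (S ∩ nS P (on P n β)).card / rq P (on P n β)| ≤ η) :
    |((S ∩ cel (nP P lab) n β).card : ℝ) - (Acl (P.ty n) β).card *
      ((S ∩ nS P (on P n β)).card / rq P (on P n β))| ≤ (Acl (P.ty n) β).card * η ∧
    |((S ∩ clb (nP P lab) n β i).card : ℝ) - (Bcl (P.ty n) β i).card *
      ((S ∩ nS P (on P n β)).card / rq P (on P n β))| ≤ (Bcl (P.ty n) β i).card * η := by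
  rw [cel_eq P hE lab hlab n β, clb_eq P hE lab hlab n β i hi, card_cls, card_cls]
  push_cast
  exact ⟨sum_near _ _ _ _ (fun c hc => h c (Acl_lt P n β c hc)),
    sum_near _ _ _ _ (fun c hc => h c (Bcl_lt P lab n β i hi c hc))⟩

theorem eP_core (hE : ∀ n, P.ty n = Ty.E → IsEmpty (Ts P n)) (ζ : ℝ) (hζ : 0 < ζ) (K : ℝ)
    (hK : K3 ≤ K) (F : LF G P d δ (K3 * ζ * d) K3 W I (tG G P) w lab) (n m : Fin M) (β β' : Bool)
    (hL : K * ζ * d ≤ (eb (thin G (nP P lab)) (cel (nP P lab) n β) (cel (nP P lab) m β') : ℝ))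
    (i j : Fin 3) (hi : i.val < rr (nP P lab) n) (hj : j.val < rr (nP P lab) m) :
    |(eb (thin G (nP P lab)) (clb (nP P lab) n β i) (clb (nP P lab) m β' j) : ℝ) -
      (eb (thin G (nP P lab)) (cel (nP P lab) n β) (cel (nP P lab) m β') : ℝ) /
        (rr (nP P lab) n * rr (nP P lab) m)| ≤
      (eb (thin G (nP P lab)) (cel (nP P lab) n β) (cel (nP P lab) m β') : ℝ) / 100 := by
  rw [thin_eq, cel_eq P hE lab F.lt n β, cel_eq P hE lab F.lt m β'] at hL ⊢
  rw [clb_eq P hE lab F.lt n β i hi, clb_eq P hE lab F.lt m β' j hj]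
  have hV0 : ∀ (n : Fin M) (β : Bool) (A : Finset ℕ), ∀ v ∈ cls P lab (on P n β) A, v ∉ P.V0 :=
    fun n β A => cls_V0 P lab n _ A
  rw [eb_tG G P _ _ (hV0 n β _) (hV0 m β' _)] at hL
  rw [eb_tG G P _ _ (hV0 n β (Bcl (P.ty n) β i)) (hV0 m β' (Bcl (P.ty m) β' j)),
    eb_tG G P _ _ (hV0 n β (Acl (P.ty n) β)) (hV0 m β' (Acl (P.ty m) β'))]
  obtain ⟨E, hEE⟩ : ∃ E : ℝ, E = (eb (tG G P) (nS P (on P n β)) (nS P (on P m β')) : ℝ) :=
    ⟨_, rfl⟩
  have hE0 : 0 ≤ E := by rw [hEE]; exact Nat.cast_nonneg _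
  have hmono : (eb (tG G P) (cls P lab (on P n β) (Acl (P.ty n) β))
      (cls P lab (on P m β') (Acl (P.ty m) β')) : ℝ) ≤ E := by
    rw [hEE]
    exact_mod_cast eb_mono (tG G P) (cls_sub P lab _ _) (cls_sub P lab _ _)
  have hd0 : (0 : ℝ) ≤ d := Nat.cast_nonneg _
  have hL3 : K3 * ζ * d ≤ E := by
    have : K3 * (ζ * d) ≤ K * (ζ * d) := mul_le_mul_of_nonneg_right hK (by positivity)
    linarith
  have hedg : ∀ c < rq P (on P n β), ∀ c' < rq P (on P m β'),
      |(eb (tG G P) (cS P lab (on P n β) c) (cS P lab (on P m β') c') : ℝ) -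
        E / (rq P (on P n β) * rq P (on P m β'))| ≤ E / 1000 := by
    intro c hc c' hc'
    have := F.edg (on P n β) (on P m β') (by rw [← hEE]; exact hL3) c hc c' hc'
    rw [← hEE] at this
    exact this
  rw [eb_cls, eb_cls]
  have h1 := sum_near2 (Acl (P.ty n) β) (Acl (P.ty m) β')
    (fun c c' => (eb (tG G P) (cS P lab (on P n β) c) (cS P lab (on P m β') c') : ℝ)) _ _
    (fun c hc c' hc' => hedg c (Acl_lt P n β c hc) c' (Acl_lt P m β' c' hc'))
  have h2 := sum_near2 (Bcl (P.ty n) β i) (Bcl (P.ty m) β' j)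
    (fun c c' => (eb (tG G P) (cS P lab (on P n β) c) (cS P lab (on P m β') c') : ℝ)) _ _
    (fun c hc c' hc' => hedg c (Bcl_lt P lab n β i hi c hc) c' (Bcl_lt P lab m β' j hj c' hc'))
  obtain ⟨eA, heA⟩ : ∃ eA : ℝ, eA = ∑ c ∈ Acl (P.ty n) β, ∑ c' ∈ Acl (P.ty m) β',
    (eb (tG G P) (cS P lab (on P n β) c) (cS P lab (on P m β') c') : ℝ) := ⟨_, rfl⟩
  obtain ⟨eB, heB⟩ : ∃ eB : ℝ, eB = ∑ c ∈ Bcl (P.ty n) β i, ∑ c' ∈ Bcl (P.ty m) β' j,
    (eb (tG G P) (cS P lab (on P n β) c) (cS P lab (on P m β') c') : ℝ) := ⟨_, rfl⟩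
  rw [← heA] at h1 ⊢
  rw [← heB] at h2 ⊢
  obtain ha | ha | ha | ha := nums P lab n β i <;>
    obtain ha' | ha' | ha' | ha' := nums P lab m β' j <;>
    (rw [ha.1, ha'.1, ha.2.2.1, ha'.2.2.1] at h1
     rw [ha.2.1, ha'.2.1, ha.2.2.1, ha'.2.2.1] at h2
     rw [ha.2.2.2, ha'.2.2.2]
     norm_num at h1 h2 ⊢
     first
      | (rw [h1, h2]; norm_num; done)
      | (rw [abs_le] at h1 h2 ⊢
         obtain ⟨h3, h4⟩ := h1
         obtain ⟨h5, h6⟩ := h2
         constructor <;> linarith))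

/-- proportional if all classes of the node are almost right, absolute error -/
theorem okc_abs (hE : ∀ n, P.ty n = Ty.E → IsEmpty (Ts P n)) (hlab : ∀ v, lab v < rq P (op P v))
    (S : Finset V) (n : Fin M) (β : Bool) (η : ℝ) (hη : 0 ≤ η)
    (h : ∀ c < rq P (on P n β), |((S ∩ cS P lab (on P n β) c).card : ℝ) -
      (S ∩ nS P (on P n β)).card / rq P (on P n β)| ≤ η)
    (hb : 400 * η ≤ ((S ∩ cel (nP P lab) n β).card : ℝ)) : Okc (nP P lab) S n β := by
  intro i hi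
  obtain ⟨h1, h2⟩ := one_dim hE hlab S n β i hi η h
  obtain ⟨sA, hsA⟩ : ∃ sA : ℝ, sA = ((S ∩ cel (nP P lab) n β).card : ℝ) := ⟨_, rfl⟩
  obtain ⟨sB, hsB⟩ : ∃ sB : ℝ, sB = ((S ∩ clb (nP P lab) n β i).card : ℝ) := ⟨_, rfl⟩
  obtain ⟨X, hX⟩ : ∃ X : ℝ, X = ((S ∩ nS P (on P n β)).card : ℝ) := ⟨_, rfl⟩
  rw [← hsA] at h1 hb ⊢
  rw [← hsB] at h2 ⊢
  rw [← hX] at h1 h2
  obtain ha | ha | ha | ha := nums P lab n β i <;>
    (rw [ha.1, ha.2.2.1] at h1
     rw [ha.2.1, ha.2.2.1] at h2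
     rw [ha.2.2.2]
     norm_num at h1 h2 ⊢
     first
      | (rw [h1, h2]; norm_num; done)
      | (rw [abs_le] at h1 h2 ⊢
         obtain ⟨h3, h4⟩ := h1
         obtain ⟨h5, h6⟩ := h2
         constructor <;> linarith))

/-- proportional if all classes of the node are almost right, relative error -/
theorem okc_rel (hE : ∀ n, P.ty n = Ty.E → IsEmpty (Ts P n)) (hlab : ∀ v, lab v < rq P (op P v))
    (S : Finset V) (n : Fin M) (β : Bool)
    (h : ∀ c < rq P (on P n β), |((S ∩ cS P lab (on P n β) c).card : ℝ) -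
      (S ∩ nS P (on P n β)).card / rq P (on P n β)| ≤ ((S ∩ nS P (on P n β)).card : ℝ) / 1000) :
    Okc (nP P lab) S n β := by
  intro i hi
  obtain ⟨h1, h2⟩ := one_dim hE hlab S n β i hi _ h
  obtain ⟨sA, hsA⟩ : ∃ sA : ℝ, sA = ((S ∩ cel (nP P lab) n β).card : ℝ) := ⟨_, rfl⟩
  obtain ⟨sB, hsB⟩ : ∃ sB : ℝ, sB = ((S ∩ clb (nP P lab) n β i).card : ℝ) := ⟨_, rfl⟩
  obtain ⟨X, hX⟩ : ∃ X : ℝ, X = ((S ∩ nS P (on P n β)).card : ℝ) := ⟨_, rfl⟩
  have hX0 : 0 ≤ X := by rw [hX]; exact Nat.cast_nonneg _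
  rw [← hsA] at h1 ⊢
  rw [← hsB] at h2 ⊢
  rw [← hX] at h1 h2
  obtain ha | ha | ha | ha := nums P lab n β i <;>
    (rw [ha.1, ha.2.2.1] at h1
     rw [ha.2.1, ha.2.2.1] at h2
     rw [ha.2.2.2]
     norm_num at h1 h2 ⊢
     first
      | (rw [h1, h2]; norm_num; done)
      | (rw [abs_le] at h1 h2 ⊢
         obtain ⟨h3, h4⟩ := h1
         obtain ⟨h5, h6⟩ := h2
         constructor <;> linarith))

/-- badness of a node for `z` -/
noncomputable def bt (G : SimpleGraph V) (P : Pcs V M) (lab : V → ℕ) (z : V)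
    (o : Option (Fin M × Bool)) : ℝ :=
  if ∃ i < rq P o, ((nb G z ∩ nS P o).card : ℝ) / 1000 <
      |((nb G z ∩ cS P lab o i).card : ℝ) - (nb G z ∩ nS P o).card / rq P o|
      then ((nb G z ∩ nS P o).card : ℝ) else 0

theorem bt_nonneg (z : V) (o : Option (Fin M × Bool)) : 0 ≤ bt G P lab z o := by
  unfold bt
  split_ifs
  · exact Nat.cast_nonneg _
  · exact le_refl _

theorem bad_term (hE : ∀ n, P.ty n = Ty.E → IsEmpty (Ts P n)) (hlab : ∀ v, lab v < rq P (op P v))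
    (z : V) (n : Fin M) (β : Bool) (ε : ℝ) (hε : 0 < ε) :
    (if 1 / ε ≤ ((nb G z ∩ cel (nP P lab) n β).card : ℝ) ∧ Okc (nP P lab) (nb G z) n β
      then (0 : ℝ) else ((nb G z ∩ cel (nP P lab) n β).card : ℝ)) ≤
      1 / ε + bt G P lab z (on P n β) := by
  have h0 : 0 < 1 / ε := by positivity
  have h1 := bt_nonneg (G := G) (P := P) (lab := lab) z (on P n β)
  split_ifs with hc
  · linarith
  · by_cases h2 : 1 / ε ≤ ((nb G z ∩ cel (nP P lab) n β).card : ℝ)
    · have h3 : ¬ Okc (nP P lab) (nb G z) n β := fun h => hc ⟨h2, h⟩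
      have h4 : ∃ i < rq P (on P n β), ((nb G z ∩ nS P (on P n β)).card : ℝ) / 1000 <
          |((nb G z ∩ cS P lab (on P n β) i).card : ℝ) -
            (nb G z ∩ nS P (on P n β)).card / rq P (on P n β)| := by
        by_contra hcon
        push Not at hcon
        exact h3 (okc_rel hE hlab (nb G z) n β hcon)
      have h5 : bt G P lab z (on P n β) = ((nb G z ∩ nS P (on P n β)).card : ℝ) := by
        unfold bt
        rw [if_pos h4]
      have h6 : ((nb G z ∩ cel (nP P lab) n β).card : ℝ) ≤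
          ((nb G z ∩ nS P (on P n β)).card : ℝ) := by
        rw [cel_eq P hE lab hlab n β]
        exact_mod_cast Finset.card_le_card (Finset.inter_subset_inter_left (cls_sub P lab _ _))
      linarith
    · rw [not_le] at h2
      linarith

theorem sum_on (f : Option (Fin M × Bool) → ℝ) (hf : ∀ o, 0 ≤ f o) :
    ∑ n : Fin M, ∑ β : Bool, f (on P n β) ≤ 2 * ∑ o, f o := by
  have h1 : ∀ n : Fin M, ∀ β : Bool, f (on P n β) ≤ ∑ b : Bool, f (some (n, b)) := by
    intro n β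
    unfold on
    exact Finset.single_le_sum (f := fun b : Bool => f (some (n, b))) (fun b _ => hf _)
      (Finset.mem_univ _)
  calc ∑ n : Fin M, ∑ β : Bool, f (on P n β)
      ≤ ∑ n : Fin M, ∑ _β : Bool, ∑ b : Bool, f (some (n, b)) :=
        Finset.sum_le_sum (fun n _ => Finset.sum_le_sum (fun β _ => h1 n β))
    _ = 2 * ∑ n : Fin M, ∑ b : Bool, f (some (n, b)) := by
        rw [Finset.mul_sum]
        refine Finset.sum_congr rfl (fun n _ => ?_)
        rw [Finset.sum_const, nsmul_eq_mul]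
        simp
    _ = 2 * ∑ q : Fin M × Bool, f (some q) := by rw [Fintype.sum_prod_type]
    _ ≤ 2 * ∑ o, f o := by
        rw [Fintype.sum_option]
        have := hf none
        linarith

theorem partD (C g ρ ζ θ : ℝ) (H : DecP C g ρ ζ θ G d P)
    (F : LF G P d δ (K3 * ζ * d) K3 (ζ * d) I (tG G P) w lab)
    (hInb : ∀ v, nb G v ∈ I) (hw : ∀ v, v ∉ P.V0 → w v = ((nb (thin G P) v).card : ℝ))
    (ε K : ℝ) (hε : 0 < ε) (hε1 : ε ≤ 1) (hζ : 0 < ζ) (hδ0 : 0 ≤ δ) (hδ : δ ≤ ζ ^ 2 / 400)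
    (hK3 : 0 < K3) (hK : 2 * K3 + 2 * M + 2 * 10 ^ 6 ≤ K) :
    PartD K ζ ε G d (nP P lab) := by
  have hd0 : (0 : ℝ) ≤ d := Nat.cast_nonneg _
  have hM0 : (0 : ℝ) ≤ M := Nat.cast_nonneg _
  refine ⟨?_, ?_, ?_, ?_⟩
  · intro n m β β' hL i j hi hj
    exact eP_core H.emp ζ hζ K (by linarith) F n m β β' hL i j hi hj
  · intro z hz n β hbig
    refine okc_abs H.emp F.lt (nb G z) n β (δ * d) (by positivity)
      (fun c hc => F.spl _ (hInb z) _ c hc) ?_
    refine le_trans ?_ hbig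
    have := mul_le_mul_of_nonneg_right hδ hd0
    linarith
  · change ∑ z ∈ P.V0, ∑ n, ∑ β, (if 1 / ε ≤ ((nb G z ∩ cel (nP P lab) n β).card : ℝ) ∧
      Okc (nP P lab) (nb G z) n β then (0 : ℝ) else ((nb G z ∩ cel (nP P lab) n β).card : ℝ)) ≤
        K / ε * P.V0.card
    have hbad : ∑ z ∈ P.V0, ∑ o, bt G P lab z o ≤ K3 * P.V0.card := F.bad
    calc ∑ z ∈ P.V0, ∑ n, ∑ β, (if 1 / ε ≤ ((nb G z ∩ cel (nP P lab) n β).card : ℝ) ∧
        Okc (nP P lab) (nb G z) n β then (0 : ℝ) else ((nb G z ∩ cel (nP P lab) n β).card : ℝ))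
        ≤ ∑ z ∈ P.V0, ∑ n : Fin M, ∑ β : Bool, (1 / ε + bt G P lab z (on P n β)) :=
          Finset.sum_le_sum (fun z _ => Finset.sum_le_sum (fun n _ => Finset.sum_le_sum
            (fun β _ => bad_term H.emp F.lt z n β ε hε)))
      _ ≤ ∑ z ∈ P.V0, (2 * M / ε + 2 * ∑ o, bt G P lab z o) := by
          refine Finset.sum_le_sum (fun z _ => ?_)
          have h1 : ∑ n : Fin M, ∑ β : Bool, (1 / ε + bt G P lab z (on P n β)) =
              2 * M / ε + ∑ n : Fin M, ∑ β : Bool, bt G P lab z (on P n β) := by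
            simp only [Finset.sum_add_distrib, Finset.sum_const, Finset.card_univ,
              Fintype.card_bool, Fintype.card_fin, nsmul_eq_mul]
            push_cast
            ring
          rw [h1]
          have h2 := sum_on (P := P) (fun o => bt G P lab z o) (fun o => bt_nonneg z o)
          linarith
      _ = P.V0.card * (2 * M / ε) + 2 * ∑ z ∈ P.V0, ∑ o, bt G P lab z o := by
          rw [Finset.sum_add_distrib, Finset.sum_const, nsmul_eq_mul, Finset.mul_sum]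
      _ ≤ P.V0.card * (2 * M / ε) + 2 * (K3 * P.V0.card) := by linarith
      _ ≤ K / ε * P.V0.card := by
          have h1 : 2 * M / ε + 2 * K3 ≤ K / ε := by
            rw [div_add' _ _ _ hε.ne', div_le_div_iff_of_pos_right hε]
            have : 2 * K3 * ε ≤ 2 * K3 := by nlinarith
            linarith
          have h2 := mul_le_mul_of_nonneg_right h1 (Nat.cast_nonneg (α := ℝ) P.V0.card)
          linarith
  · intro n hn
    replace hn : P.ty n = Ty.N := hn
    rw [thin_eq]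
    have h1 : ∀ β : Bool, ∑ v ∈ sV (nP P lab) n β, ((nb (thin G P) v).card : ℝ) =
        ∑ v ∈ cS P lab (some (n, false)) (2 * β.toNat), w v +
          ∑ v ∈ cS P lab (some (n, false)) (2 * β.toNat + 1), w v := by
      intro β
      have h2 := cel_eq P H.emp lab F.lt n β
      unfold cel on at h2
      rw [if_neg (by change ¬ P.ty n = Ty.K; rw [hn]; decide), if_neg (by rw [hn]; decide), hn] at h2
      rw [h2]
      have h3 : ∑ v ∈ cls P lab (some (n, false)) (Acl Ty.N β), ((nb (thin G P) v).card : ℝ) =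
          ∑ v ∈ cls P lab (some (n, false)) (Acl Ty.N β), w v :=
        Finset.sum_congr rfl (fun v hv => (hw v (cls_V0 P lab n _ _ v hv)).symm)
      rw [h3, sum_cls]
      show ∑ c ∈ ({2 * β.toNat, 2 * β.toNat + 1} : Finset ℕ), _ = _
      rw [Finset.sum_pair (by omega)]
    rw [h1, h1]
    have hq : rq P (some (n, false)) = 4 := rq_N P hn false
    have h2 := F.wt (some (n, false)) 0 (by rw [hq]; omega) 2 (by rw [hq]; omega)
    have h3 := F.wt (some (n, false)) 1 (by rw [hq]; omega) 3 (by rw [hq]; omega)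
    simp only [Bool.toNat_false, Bool.toNat_true, mul_zero, mul_one, zero_add]
    norm_num
    rw [abs_le] at h2 h3 ⊢
    have hζd : 0 ≤ ζ * d := by positivity
    have h4 : 2 * 10 ^ 6 * (ζ * d) ≤ K * (ζ * d) :=
      mul_le_mul_of_nonneg_right (by linarith) hζd
    constructor
    · linarith [h2.1, h3.1]
    · linarith [h2.2, h3.2]

end PA

end Pool.Agent.Work.MP_db9399_da.helper99
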